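import Pool.Agent.H754R3.PR.Gauss

set_option autoImplicit false

/-!
# A Carleman inequality on a bounded open set and unique continuation from the boundary
-/

namespace Pool.Agent.H754R3.PR

open MeasureTheory Set Filter Topology

lemma d_contDiff {f : P2 → ℝ} {n m : ℕ} (hf : ContDiff ℝ n f) (h : m + 1 ≤ n) (e : P2) :
    ContDiff ℝ m (fun x => fderiv ℝ f x e) := by
  refine ContDiff.clm_apply ?_ contDiff_const
  exact hf.fderiv_right (by exact_mod_cast h)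

lemma d1_contDiff {f : P2 → ℝ} {n m : ℕ} (hf : ContDiff ℝ n f) (h : m + 1 ≤ n) :
    ContDiff ℝ m (d1 f) := d_contDiff hf h _

lemma d2_contDiff {f : P2 → ℝ} {n m : ℕ} (hf : ContDiff ℝ n f) (h : m + 1 ≤ n) :
    ContDiff ℝ m (d2 f) := d_contDiff hf h _

lemma fderiv_fderiv_apply {f : P2 → ℝ} (hf : ContDiff ℝ 2 f) (x e e' : P2) :
    fderiv ℝ (fun y => fderiv ℝ f y e) x e' = fderiv ℝ (fderiv ℝ f) x e' e := by
  have h1 : DifferentiableAt ℝ (fderiv ℝ f) x :=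
    ((hf.fderiv_right (m := 1) (by norm_num)).differentiable (by norm_num)) x
  have h2 := h1.hasFDerivAt.clm_apply (hasFDerivAt_const e x)
  rw [h2.fderiv]
  simp

lemma d_comm {f : P2 → ℝ} (hf : ContDiff ℝ 2 f) (x : P2) : d1 (d2 f) x = d2 (d1 f) x := by
  have h1 := fderiv_fderiv_apply hf x (0, 1) (1, 0)
  have h2 := fderiv_fderiv_apply hf x (1, 0) (0, 1)
  have h3 : IsSymmSndFDerivAt ℝ f x := hf.contDiffAt.isSymmSndFDerivAt (by simp)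
  have h4 := h3 (1, 0) (0, 1)
  show fderiv ℝ (fun y => fderiv ℝ f y (0, 1)) x (1, 0) =
    fderiv ℝ (fun y => fderiv ℝ f y (1, 0)) x (0, 1)
  rw [h1, h2, h4]

/-- the weight -/
noncomputable def Ew (τ b : ℝ) (x : P2) : ℝ := Real.exp (τ * (x.1 + b) ^ 2)

/-- the gradient component of the conjugated function -/
noncomputable def hh (τ b : ℝ) (f : P2 → ℝ) (x : P2) : ℝ := d1 f x + τ * ((x.1 + b) * f x)

/-- first flux -/
noncomputable def V1 (τ b : ℝ) (f : P2 → ℝ) (x : P2) : ℝ :=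
  Ew τ b x * (-(2 * τ) * ((x.1 + b) * hh τ b f x ^ 2) + 2 * τ * ((x.1 + b) * d2 f x ^ 2)
    - 4 * τ * (f x * hh τ b f x) - 2 * τ ^ 3 * ((x.1 + b) ^ 3 * f x ^ 2))

/-- second flux -/
noncomputable def V2 (τ b : ℝ) (f : P2 → ℝ) (x : P2) : ℝ :=
  Ew τ b x * (-(4 * τ) * ((x.1 + b) * (hh τ b f x * d2 f x)) - 4 * τ * (f x * d2 f x))

lemma X_contDiff (b : ℝ) {n : ℕ} : ContDiff ℝ n (fun x : P2 => x.1 + b) :=
  contDiff_fst.add contDiff_const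

lemma Ew_contDiff (τ b : ℝ) {n : ℕ} : ContDiff ℝ n (Ew τ b) := by
  unfold Ew
  exact (contDiff_const.mul ((X_contDiff b).pow 2)).exp

lemma hh_contDiff (τ b : ℝ) {f : P2 → ℝ} (hf : ContDiff ℝ 2 f) : ContDiff ℝ 1 (hh τ b f) := by
  unfold hh
  exact (d1_contDiff (m := 1) (n := 2) hf (by norm_num)).add
    (contDiff_const.mul ((X_contDiff b (n := 1)).mul (hf.of_le (by norm_num))))

lemma V1_contDiff (τ b : ℝ) {f : P2 → ℝ} (hf : ContDiff ℝ 2 f) : ContDiff ℝ 1 (V1 τ b f) := by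
  unfold V1
  have h1 := hh_contDiff τ b hf
  have h2 : ContDiff ℝ 1 (d2 f) := d2_contDiff (m := 1) (n := 2) hf (by norm_num)
  have h3 : ContDiff ℝ 1 f := hf.of_le (by norm_num)
  have h4 : ContDiff ℝ 1 (Ew τ b) := Ew_contDiff τ b (n := 1)
  have h5 : ContDiff ℝ 1 (fun x : P2 => x.1 + b) := X_contDiff b (n := 1)
  exact h4.mul ((((contDiff_const.mul (h5.mul (h1.pow 2))).add
    (contDiff_const.mul (h5.mul (h2.pow 2)))).sub (contDiff_const.mul (h3.mul h1))).sub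
    (contDiff_const.mul ((h5.pow 3).mul (h3.pow 2))))

lemma V2_contDiff (τ b : ℝ) {f : P2 → ℝ} (hf : ContDiff ℝ 2 f) : ContDiff ℝ 1 (V2 τ b f) := by
  unfold V2
  have h1 := hh_contDiff τ b hf
  have h2 : ContDiff ℝ 1 (d2 f) := d2_contDiff (m := 1) (n := 2) hf (by norm_num)
  have h3 : ContDiff ℝ 1 f := hf.of_le (by norm_num)
  have h4 : ContDiff ℝ 1 (Ew τ b) := Ew_contDiff τ b (n := 1)
  have h5 : ContDiff ℝ 1 (fun x : P2 => x.1 + b) := X_contDiff b (n := 1)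
  exact h4.mul ((contDiff_const.mul (h5.mul (h1.mul h2))).sub (contDiff_const.mul (h3.mul h2)))

section deriv

variable {f : P2 → ℝ} (hf : ContDiff ℝ 2 f) (τ b : ℝ) (x : P2)

lemma X_hasFDerivAt : HasFDerivAt (fun x : P2 => x.1 + b) (ContinuousLinearMap.fst ℝ ℝ ℝ) x :=
  hasFDerivAt_fst.add_const b

lemma Ew_hasFDerivAt :
    HasFDerivAt (Ew τ b) ((2 * τ * (x.1 + b) * Ew τ b x) • ContinuousLinearMap.fst ℝ ℝ ℝ) x := by
  have h1 := (((X_hasFDerivAt b x).pow 2).const_mul τ).exp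
  have e : ((2 * τ * (x.1 + b) * Ew τ b x) • ContinuousLinearMap.fst ℝ ℝ ℝ) =
      Real.exp (τ * (x.1 + b) ^ 2) • τ • (2 • (x.1 + b) ^ (2 - 1)) •
        ContinuousLinearMap.fst ℝ ℝ ℝ := by
    ext <;> simp [Ew]; ring
  rw [e]
  exact h1

include hf in
lemma hh_hasFDerivAt :
    HasFDerivAt (hh τ b f) (fderiv ℝ (d1 f) x + τ • ((x.1 + b) • fderiv ℝ f x
      + f x • ContinuousLinearMap.fst ℝ ℝ ℝ)) x := by
  have h1 : HasFDerivAt (d1 f) (fderiv ℝ (d1 f) x) x :=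
    (((d1_contDiff (m := 1) (n := 2) hf (by norm_num))).differentiable (by norm_num) x).hasFDerivAt
  have h2 : HasFDerivAt f (fderiv ℝ f x) x :=
    (hf.differentiable (by norm_num) x).hasFDerivAt
  exact h1.fun_add (((X_hasFDerivAt b x).fun_mul h2).const_mul τ)

include hf in
lemma V1_hasFDerivAt : ∃ L : P2 →L[ℝ] ℝ, HasFDerivAt (V1 τ b f) L x ∧ (∀ e, L e =
    (2 * τ * (x.1 + b) * Ew τ b x * e.1) * (-(2 * τ) * ((x.1 + b) * hh τ b f x ^ 2)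
      + 2 * τ * ((x.1 + b) * d2 f x ^ 2)
      - 4 * τ * (f x * hh τ b f x) - 2 * τ ^ 3 * ((x.1 + b) ^ 3 * f x ^ 2))
    + Ew τ b x * (-(2 * τ) * (e.1 * hh τ b f x ^ 2 + (x.1 + b) * (2 * hh τ b f x *
        fderiv ℝ (hh τ b f) x e))
      + 2 * τ * (e.1 * d2 f x ^ 2 + (x.1 + b) * (2 * d2 f x * fderiv ℝ (d2 f) x e))
      - 4 * τ * (fderiv ℝ f x e * hh τ b f x + f x * fderiv ℝ (hh τ b f) x e)
      - 2 * τ ^ 3 * (3 * (x.1 + b) ^ 2 * e.1 * f x ^ 2 + (x.1 + b) ^ 3 *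
        (2 * f x * fderiv ℝ f x e)))) := by
  have h1 : HasFDerivAt (hh τ b f) (fderiv ℝ (hh τ b f) x) x :=
    ((hh_contDiff τ b hf).differentiable (by norm_num) x).hasFDerivAt
  have h2 : HasFDerivAt (d2 f) (fderiv ℝ (d2 f) x) x :=
    (((d2_contDiff (m := 1) (n := 2) hf (by norm_num))).differentiable (by norm_num) x).hasFDerivAt
  have h3 : HasFDerivAt f (fderiv ℝ f x) x :=
    (hf.differentiable (by norm_num) x).hasFDerivAt
  have h4 := Ew_hasFDerivAt τ b x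
  have h5 := X_hasFDerivAt b x
  have hm := h4.fun_mul (((((h5.fun_mul (h1.pow 2)).const_mul (-(2 * τ))).fun_add
    ((h5.fun_mul (h2.pow 2)).const_mul (2 * τ))).fun_sub ((h3.fun_mul h1).const_mul (4 * τ))).fun_sub
    (((h5.pow 3).fun_mul (h3.pow 2)).const_mul (2 * τ ^ 3)))
  refine ⟨_, hm, fun e => ?_⟩
  simp
  ring

include hf in
lemma V2_hasFDerivAt : ∃ L : P2 →L[ℝ] ℝ, HasFDerivAt (V2 τ b f) L x ∧ (∀ e, L e =
    (2 * τ * (x.1 + b) * Ew τ b x * e.1) * (-(4 * τ) * ((x.1 + b) * (hh τ b f x * d2 f x))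
      - 4 * τ * (f x * d2 f x))
    + Ew τ b x * (-(4 * τ) * (e.1 * (hh τ b f x * d2 f x) + (x.1 + b) *
        (fderiv ℝ (hh τ b f) x e * d2 f x + hh τ b f x * fderiv ℝ (d2 f) x e))
      - 4 * τ * (fderiv ℝ f x e * d2 f x + f x * fderiv ℝ (d2 f) x e))) := by
  have h1 : HasFDerivAt (hh τ b f) (fderiv ℝ (hh τ b f) x) x :=
    ((hh_contDiff τ b hf).differentiable (by norm_num) x).hasFDerivAt
  have h2 : HasFDerivAt (d2 f) (fderiv ℝ (d2 f) x) x :=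
    (((d2_contDiff (m := 1) (n := 2) hf (by norm_num))).differentiable (by norm_num) x).hasFDerivAt
  have h3 : HasFDerivAt f (fderiv ℝ f x) x :=
    (hf.differentiable (by norm_num) x).hasFDerivAt
  have h4 := Ew_hasFDerivAt τ b x
  have h5 := X_hasFDerivAt b x
  have hm := h4.fun_mul (((h5.fun_mul (h1.fun_mul h2)).const_mul (-(4 * τ))).fun_sub
    ((h3.fun_mul h2).const_mul (4 * τ)))
  refine ⟨_, hm, fun e => ?_⟩
  simp
  ring

include hf in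
/-- the pointwise Carleman identity -/
lemma carleman_pt :
    Ew τ b x * (d1 (d1 f) x + d2 (d2 f) x) ^ 2 =
      Ew τ b x * ((d1 (d1 f) x + d2 (d2 f) x + 2 * τ * (x.1 + b) * d1 f x + 2 * τ * f x
          + 2 * τ ^ 2 * (x.1 + b) ^ 2 * f x) ^ 2
        + (2 * τ * (x.1 + b) * hh τ b f x + τ * f x) ^ 2
        + 4 * τ * hh τ b f x ^ 2 + 2 * τ * (hh τ b f x ^ 2 + d2 f x ^ 2)
        + 2 * τ ^ 3 * (x.1 + b) ^ 2 * f x ^ 2 - τ ^ 2 * f x ^ 2)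
      + d1 (V1 τ b f) x + d2 (V2 τ b f) x := by
  obtain ⟨L1, hL1, hL1e⟩ := V1_hasFDerivAt hf τ b x
  obtain ⟨L2, hL2, hL2e⟩ := V2_hasFDerivAt hf τ b x
  have e1 : d1 (V1 τ b f) x = L1 (1, 0) := by rw [d1, hL1.fderiv]
  have e2 : d2 (V2 τ b f) x = L2 (0, 1) := by rw [d2, hL2.fderiv]
  have e3 : fderiv ℝ (hh τ b f) x (1, 0) = d1 (d1 f) x + τ * ((x.1 + b) * d1 f x + f x) := by
    rw [(hh_hasFDerivAt hf τ b x).fderiv]
    simp [d1]
    ring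
  have e4 : fderiv ℝ (hh τ b f) x (0, 1) = d1 (d2 f) x + τ * ((x.1 + b) * d2 f x) := by
    rw [(hh_hasFDerivAt hf τ b x).fderiv, d_comm hf x]
    simp [d2]
  have e5 : fderiv ℝ (d2 f) x (1, 0) = d1 (d2 f) x := rfl
  have e6 : fderiv ℝ (d2 f) x (0, 1) = d2 (d2 f) x := rfl
  have e7 : fderiv ℝ f x (1, 0) = d1 f x := rfl
  have e8 : fderiv ℝ f x (0, 1) = d2 f x := rfl
  rw [e1, e2, hL1e, hL2e, e3, e4, e5, e6, e7, e8]
  simp only [hh]
  ring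

end deriv

lemma d_zero_of {f : P2 → ℝ} {x : P2} (h : fderiv ℝ f x = 0) : d1 f x = 0 ∧ d2 f x = 0 := by
  simp [d1, d2, h]

lemma V_zero {f : P2 → ℝ} (hf : ContDiff ℝ 2 f) (τ b : ℝ) (x : P2) (h0 : f x = 0)
    (h1 : fderiv ℝ f x = 0) :
    (V1 τ b f x = 0 ∧ fderiv ℝ (V1 τ b f) x = 0) ∧ (V2 τ b f x = 0 ∧ fderiv ℝ (V2 τ b f) x = 0) := by
  obtain ⟨L1, hL1, hL1e⟩ := V1_hasFDerivAt hf τ b x
  obtain ⟨L2, hL2, hL2e⟩ := V2_hasFDerivAt hf τ b x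
  obtain ⟨z1, z2⟩ := d_zero_of h1
  have z3 : hh τ b f x = 0 := by simp [hh, z1, h0]
  refine ⟨⟨by simp [V1, z3, z2, h0], ?_⟩, ⟨by simp [V2, z3, z2, h0], ?_⟩⟩
  · rw [hL1.fderiv]
    ext e
    · simp [hL1e, z3, z2, h0, h1]
    · simp [hL1e, z3, z2, h0, h1]
  · rw [hL2.fderiv]
    ext e
    · simp [hL2e, z3, z2, h0, h1]
    · simp [hL2e, z3, z2, h0, h1]

/-- size of a function and its gradient -/
noncomputable def sz (f : P2 → ℝ) (x : P2) : ℝ := f x ^ 2 + d1 f x ^ 2 + d2 f x ^ 2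

lemma lb_real {τ M R X F h d A B : ℝ} (hM : 0 ≤ M) (hX : 1 ≤ X)
    (hτ : τ = 1 + 2 * M + 4 * M * R ^ 2) :
    F ^ 2 + M * (F ^ 2 * (1 + 2 * τ ^ 2 * R ^ 2) + 2 * h ^ 2 + d ^ 2) ≤
      A ^ 2 + B ^ 2 + 4 * τ * h ^ 2 + 2 * τ * (h ^ 2 + d ^ 2)
        + 2 * τ ^ 3 * X ^ 2 * F ^ 2 - τ ^ 2 * F ^ 2 := by
  have hMR : 0 ≤ M * R ^ 2 := by positivity
  have hτ1 : 1 ≤ τ := by linarith
  have hτM : 2 * M ≤ τ := by linarith
  have s1 : 0 ≤ A ^ 2 := sq_nonneg _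
  have s2 : 0 ≤ B ^ 2 := sq_nonneg _
  have s3 : (2 * M) * h ^ 2 ≤ τ * h ^ 2 := mul_le_mul_of_nonneg_right hτM (sq_nonneg _)
  have s4 : (2 * M) * d ^ 2 ≤ τ * d ^ 2 := mul_le_mul_of_nonneg_right hτM (sq_nonneg _)
  have s4' : 0 ≤ M * d ^ 2 := by positivity
  have s4'' : 0 ≤ τ * d ^ 2 := by positivity
  have s5 : 0 ≤ τ * h ^ 2 := by positivity
  have c1 : 1 ≤ X ^ 2 := by nlinarith
  have c2 : 1 + M * (1 + 2 * τ ^ 2 * R ^ 2) ≤ 2 * τ ^ 3 * X ^ 2 - τ ^ 2 := by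
    have c3 : 2 * τ ^ 3 * 1 ≤ 2 * τ ^ 3 * X ^ 2 :=
      mul_le_mul_of_nonneg_left c1 (by positivity)
    have c4 : τ ^ 2 * 1 ≤ τ ^ 2 * τ := mul_le_mul_of_nonneg_left hτ1 (by positivity)
    have c5 : 1 ≤ τ ^ 2 := by nlinarith
    have c6 : τ ^ 3 = τ ^ 2 + 2 * (M * τ ^ 2) + 4 * (M * R ^ 2 * τ ^ 2) := by
      have : τ ^ 3 = τ ^ 2 * (1 + 2 * M + 4 * M * R ^ 2) := by rw [← hτ]; ring
      rw [this]; ring
    have c7 : M * 1 ≤ M * τ ^ 2 := mul_le_mul_of_nonneg_left c5 hM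
    have c8 : 0 ≤ M * R ^ 2 * τ ^ 2 := by positivity
    have c10 : τ ^ 2 * τ = τ ^ 3 := by ring
    have c11 : M * (1 + 2 * τ ^ 2 * R ^ 2) = M + 2 * (M * R ^ 2 * τ ^ 2) := by ring
    rw [c11]
    linarith
  have s6 := mul_le_mul_of_nonneg_right c2 (sq_nonneg F)
  have e1 : (1 + M * (1 + 2 * τ ^ 2 * R ^ 2)) * F ^ 2 =
    F ^ 2 + M * (F ^ 2 * (1 + 2 * τ ^ 2 * R ^ 2)) := by ring
  have e2 : (2 * τ ^ 3 * X ^ 2 - τ ^ 2) * F ^ 2 = 2 * τ ^ 3 * X ^ 2 * F ^ 2 - τ ^ 2 * F ^ 2 := by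
    ring
  rw [e1, e2] at s6
  have e3 : M * (F ^ 2 * (1 + 2 * τ ^ 2 * R ^ 2) + 2 * h ^ 2 + d ^ 2) =
    M * (F ^ 2 * (1 + 2 * τ ^ 2 * R ^ 2)) + (2 * M) * h ^ 2 + M * d ^ 2 := by ring
  rw [e3]
  linarith

lemma bd_real {τ M R X F h d : ℝ} (hM : 0 ≤ M) (hX : 1 ≤ X) (hXR : X ≤ R) :
    M * (F ^ 2 + (h - τ * (X * F)) ^ 2 + d ^ 2) ≤
      M * (F ^ 2 * (1 + 2 * τ ^ 2 * R ^ 2) + 2 * h ^ 2 + d ^ 2) := by
  refine mul_le_mul_of_nonneg_left ?_ hM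
  have e2 : X ^ 2 ≤ R ^ 2 := by nlinarith
  have e3 : (τ * F) ^ 2 * X ^ 2 ≤ (τ * F) ^ 2 * R ^ 2 :=
    mul_le_mul_of_nonneg_left e2 (sq_nonneg _)
  nlinarith [sq_nonneg (h + τ * (X * F))]

lemma comb {E A1 A2 K1 K2 D1 D1' D2 D2' S1 S2 B1 B2 M p q : ℝ} (hE : 0 < E)
    (h1 : E * A1 = E * K1 + D1 + D1') (h2 : E * A2 = E * K2 + D2 + D2')
    (h3 : A1 + A2 ≤ M * (S1 + S2)) (h4 : M * S1 ≤ B1) (h5 : M * S2 ≤ B2)
    (h6 : p + B1 ≤ K1) (h7 : q + B2 ≤ K2) :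
    E * (p + q) ≤ -((D1 + D1') + (D2 + D2')) := by
  have h8 : p + q ≤ K1 + K2 - A1 - A2 := by linarith
  have h9 := mul_le_mul_of_nonneg_left h8 hE.le
  have h10 : E * (K1 + K2 - A1 - A2) = E * K1 + E * K2 - E * A1 - E * A2 := by ring
  rw [h10] at h9
  linarith

/-- unique continuation from the frontier -/
lemma ucp {Ω : Set P2} (hΩ : IsOpen Ω) (hb : Bornology.IsBounded Ω) {f g : P2 → ℝ}
    (hf : ContDiff ℝ 2 f) (hg : ContDiff ℝ 2 g)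
    (hf0 : ∀ x ∈ frontier Ω, f x = 0 ∧ fderiv ℝ f x = 0)
    (hg0 : ∀ x ∈ frontier Ω, g x = 0 ∧ fderiv ℝ g x = 0) {M : ℝ} (hM : 0 ≤ M)
    (hineq : ∀ x ∈ Ω, (d1 (d1 f) x + d2 (d2 f) x) ^ 2 + (d1 (d1 g) x + d2 (d2 g) x) ^ 2
      ≤ M * (sz f x + sz g x)) : ∀ x ∈ Ω, f x = 0 ∧ g x = 0 := by
  -- bounds for the first coordinate
  obtain ⟨r, hr⟩ := hb.subset_closedBall (0 : P2)
  set b : ℝ := |r| + 1 with hbd
  have hX : ∀ x ∈ Ω, 1 ≤ x.1 + b ∧ x.1 + b ≤ 2 * |r| + 1 := by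
    intro x hx
    have h1 := hr hx
    rw [mem_closedBall_zero_iff] at h1
    have h2 : |x.1| ≤ r := (norm_fst_le x).trans h1
    have h3 := abs_le.1 (h2.trans (le_abs_self r))
    constructor <;> linarith [h3.1, h3.2]
  set R : ℝ := 2 * |r| + 1 with hR
  set τ : ℝ := 1 + 2 * M + 4 * M * R ^ 2 with hτ
  -- pointwise inequality
  have key : ∀ x ∈ Ω, Ew τ b x * (f x ^ 2 + g x ^ 2) ≤
      -((d1 (V1 τ b f) x + d2 (V2 τ b f) x) + (d1 (V1 τ b g) x + d2 (V2 τ b g) x)) := by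
    intro x hx
    have hE : 0 < Ew τ b x := Real.exp_pos _
    obtain ⟨x1, x2⟩ := hX x hx
    have bd : ∀ F : P2 → ℝ, M * sz F x ≤ M * (F x ^ 2 * (1 + 2 * τ ^ 2 * R ^ 2)
        + 2 * hh τ b F x ^ 2 + d2 F x ^ 2) := by
      intro F
      have e1 : d1 F x = hh τ b F x - τ * ((x.1 + b) * F x) := by simp [hh]
      rw [sz, e1]
      exact bd_real hM x1 x2
    exact comb hE (carleman_pt hf τ b x) (carleman_pt hg τ b x) (hineq x hx) (bd f) (bd g)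
      (lb_real hM x1 hτ) (lb_real hM x1 hτ)
  -- integration
  have cV : ∀ (V : P2 → ℝ), ContDiff ℝ 1 V → ∀ e : P2, IntegrableOn (fun x => fderiv ℝ V x e) Ω :=
    fun V hV e => ((hV.continuous_fderiv (by norm_num)).clm_apply
        continuous_const).continuousOn.integrableOn_compact hb.isCompact_closure
        |>.mono_set subset_closure
  have i1 := cV _ (V1_contDiff τ b hf) (1, 0)
  have i2 := cV _ (V2_contDiff τ b hf) (0, 1)
  have i3 := cV _ (V1_contDiff τ b hg) (1, 0)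
  have i4 := cV _ (V2_contDiff τ b hg) (0, 1)
  have j1 := gauss0 hΩ hb (V1_contDiff τ b hf)
    (fun x hx => (V_zero hf τ b x (hf0 x hx).1 (hf0 x hx).2).1) (1, 0)
  have j2 := gauss0 hΩ hb (V2_contDiff τ b hf)
    (fun x hx => (V_zero hf τ b x (hf0 x hx).1 (hf0 x hx).2).2) (0, 1)
  have j3 := gauss0 hΩ hb (V1_contDiff τ b hg)
    (fun x hx => (V_zero hg τ b x (hg0 x hx).1 (hg0 x hx).2).1) (1, 0)
  have j4 := gauss0 hΩ hb (V2_contDiff τ b hg)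
    (fun x hx => (V_zero hg τ b x (hg0 x hx).1 (hg0 x hx).2).2) (0, 1)
  have hint : ∫ x in Ω, -((d1 (V1 τ b f) x + d2 (V2 τ b f) x)
      + (d1 (V1 τ b g) x + d2 (V2 τ b g) x)) = 0 := by
    rw [integral_neg]
    have k1 := integral_add (i1.add i2) (i3.add i4)
    have k2 := integral_add i1 i2
    have k3 := integral_add i3 i4
    rw [j1, j2] at k2
    rw [j3, j4] at k3
    simp only [Pi.add_apply] at k1
    rw [k2, k3] at k1
    simp only [d1, d2]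
    rw [k1]
    simp
  have hcont : Continuous (fun x => Ew τ b x * (f x ^ 2 + g x ^ 2)) :=
    (Ew_contDiff τ b (n := 1)).continuous.mul
      ((hf.continuous.pow 2).add (hg.continuous.pow 2))
  have hle : ∫ x in Ω, Ew τ b x * (f x ^ 2 + g x ^ 2) ≤ 0 := by
    rw [← hint]
    refine setIntegral_mono_on (hcont.continuousOn.integrableOn_compact hb.isCompact_closure
      |>.mono_set subset_closure) ?_ hΩ.measurableSet key
    exact ((i1.add i2).add (i3.add i4)).neg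
  have hnn : ∀ x, 0 ≤ Ew τ b x * (f x ^ 2 + g x ^ 2) := fun x =>
    mul_nonneg (Real.exp_pos _).le (by positivity)
  have hz : ∫ x in Ω, Ew τ b x * (f x ^ 2 + g x ^ 2) = 0 :=
    le_antisymm hle (setIntegral_nonneg hΩ.measurableSet (fun x _ => hnn x))
  rw [setIntegral_eq_zero_iff_of_nonneg_ae (Eventually.of_forall hnn)
    (hcont.continuousOn.integrableOn_compact hb.isCompact_closure
      |>.mono_set subset_closure)] at hz
  have hopen : IsOpen (Ω ∩ {x | Ew τ b x * (f x ^ 2 + g x ^ 2) ≠ 0}) :=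
    hΩ.inter (isOpen_ne_fun hcont continuous_const)
  have hvol : volume (Ω ∩ {x | Ew τ b x * (f x ^ 2 + g x ^ 2) ≠ 0}) = 0 := by
    have h1 := (ae_restrict_iff' hΩ.measurableSet).1 hz
    rw [ae_iff] at h1
    refine measure_mono_null (fun x hx => ?_) h1
    simp only [Set.mem_ofPred_eq, Classical.not_imp]
    exact ⟨hx.1, hx.2⟩
  have hemp := (hopen.measure_eq_zero_iff volume).1 hvol
  intro x hx
  have h1 : Ew τ b x * (f x ^ 2 + g x ^ 2) = 0 := by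
    by_contra h
    have : x ∈ Ω ∩ {x | Ew τ b x * (f x ^ 2 + g x ^ 2) ≠ 0} := ⟨hx, h⟩
    rw [hemp] at this
    exact this
  have h2 : f x ^ 2 + g x ^ 2 = 0 := by
    rcases mul_eq_zero.1 h1 with h | h
    · exact absurd h (Real.exp_pos _).ne'
    · exact h
  constructor <;> nlinarith [sq_nonneg (f x), sq_nonneg (g x)]

end Pool.Agent.H754R3.PR
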