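import Pool.Agent.H754R3.PR.Gauss

set_option autoImplicit false

/-!
# A field vanishing on the frontier has no constant nonzero divergence
-/

namespace Pool.Agent.H754R3.PR

open MeasureTheory Set Filter Topology

lemma theta_deriv {s ε : ℝ} (h : s + ε ≠ 0) :
    HasDerivAt (fun s : ℝ => s / (s + ε)) (ε / (s + ε) ^ 2) s := by
  have h1 : HasDerivAt (fun s : ℝ => s + ε) 1 s := (hasDerivAt_id s).add_const ε
  have h2 := (hasDerivAt_id s).fun_div h1 h
  have e : (1 * (s + ε) - id s * 1) / (s + ε) ^ 2 = ε / (s + ε) ^ 2 := by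
    simp only [id]; ring
  rw [e] at h2
  exact h2

lemma const_zero {Ω : Set P2} (hΩ : IsOpen Ω) (hb : Bornology.IsBounded Ω) (hne : Ω.Nonempty)
    {Y1 Y2 : P2 → ℝ} (h1 : ContDiff ℝ 1 Y1) (h2 : ContDiff ℝ 1 Y2)
    (hY : ∀ x ∈ frontier Ω, Y1 x = 0 ∧ Y2 x = 0) {k : ℝ}
    (hk : ∀ x ∈ Ω, d1 Y1 x + d2 Y2 x = k) : k = 0 := by
  by_contra hk0
  set N : P2 → ℝ := fun x => Y1 x ^ 2 + Y2 x ^ 2 with hN
  have hNc : ContDiff ℝ 1 N := (h1.pow 2).add (h2.pow 2)
  have hNn : ∀ x, 0 ≤ N x := fun x => by simp only [hN]; positivity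
  have h1d : Differentiable ℝ Y1 := h1.differentiable (by norm_num)
  have h2d : Differentiable ℝ Y2 := h2.differentiable (by norm_num)
  have hNd : ∀ x, HasFDerivAt N ((2 * Y1 x) • fderiv ℝ Y1 x + (2 * Y2 x) • fderiv ℝ Y2 x) x := by
    intro x
    have a1 := (h1d x).hasFDerivAt.pow 2
    have a2 := (h2d x).hasFDerivAt.pow 2
    have a3 := a1.fun_add a2
    simp only [Nat.add_one_sub_one, pow_one, nsmul_eq_mul, Nat.cast_ofNat] at a3
    exact a3
  -- the derivative of the regularised fields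
  have hF : ∀ (ε : ℝ), 0 < ε → ∀ (Y : P2 → ℝ), Differentiable ℝ Y → ∀ x,
      HasFDerivAt (fun x => Y x * (N x / (N x + ε)))
        ((Y x * (ε / (N x + ε) ^ 2)) • ((2 * Y1 x) • fderiv ℝ Y1 x + (2 * Y2 x) • fderiv ℝ Y2 x)
          + (N x / (N x + ε)) • fderiv ℝ Y x) x := by
    intro ε hε Y hYd x
    have hne' : N x + ε ≠ 0 := by have := hNn x; positivity
    have a1 := (theta_deriv hne').comp_hasFDerivAt x (hNd x)
    have a2 := (hYd x).hasFDerivAt.fun_mul a1
    rw [smul_smul] at a2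
    exact a2
  have hFc : ∀ (ε : ℝ), 0 < ε → ∀ (Y : P2 → ℝ), ContDiff ℝ 1 Y →
      ContDiff ℝ 1 (fun x => Y x * (N x / (N x + ε))) := by
    intro ε hε Y hYc
    exact hYc.mul (hNc.div (hNc.add contDiff_const) (fun x => by have := hNn x; positivity))
  -- the integral identity for each epsilon
  set G : ℕ → P2 → ℝ := fun n x =>
    (N x / (N x + 1 / ((n : ℝ) + 1))) * k
      + (1 / ((n : ℝ) + 1)) / (N x + 1 / ((n : ℝ) + 1)) ^ 2 *
        (2 * (Y1 x ^ 2 * d1 Y1 x + Y1 x * Y2 x * d1 Y2 x + Y1 x * Y2 x * d2 Y1 x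
          + Y2 x ^ 2 * d2 Y2 x)) with hG
  have hGint : ∀ n, ∫ x in Ω, G n x = 0 := by
    intro n
    have hε : 0 < 1 / ((n : ℝ) + 1) := by positivity
    set ε := 1 / ((n : ℝ) + 1) with hεd
    have b1 := gauss0 hΩ hb (hFc ε hε Y1 h1) (fun x hx => by
      obtain ⟨c1, c2⟩ := hY x hx
      refine ⟨by simp [c1], ?_⟩
      rw [(hF ε hε Y1 h1d x).fderiv]
      simp [hN, c1, c2]) (1, 0)
    have b2 := gauss0 hΩ hb (hFc ε hε Y2 h2) (fun x hx => by
      obtain ⟨c1, c2⟩ := hY x hx
      refine ⟨by simp [c2], ?_⟩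
      rw [(hF ε hε Y2 h2d x).fderiv]
      simp [hN, c1, c2]) (0, 1)
    have i1 : IntegrableOn (fun x => fderiv ℝ (fun x => Y1 x * (N x / (N x + ε))) x (1, 0)) Ω :=
      (((hFc ε hε Y1 h1).continuous_fderiv (by norm_num)).clm_apply
        continuous_const).continuousOn.integrableOn_compact hb.isCompact_closure
        |>.mono_set subset_closure
    have i2 : IntegrableOn (fun x => fderiv ℝ (fun x => Y2 x * (N x / (N x + ε))) x (0, 1)) Ω :=
      (((hFc ε hε Y2 h2).continuous_fderiv (by norm_num)).clm_apply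
        continuous_const).continuousOn.integrableOn_compact hb.isCompact_closure
        |>.mono_set subset_closure
    have b3 := integral_add i1 i2
    rw [b1, b2, add_zero] at b3
    rw [← b3]
    refine setIntegral_congr_fun hΩ.measurableSet (fun x hx => ?_)
    beta_reduce
    rw [(hF ε hε Y1 h1d x).fderiv, (hF ε hε Y2 h2d x).fderiv]
    simp only [hG, ← hεd, ← hk x hx, d1, d2, ContinuousLinearMap.add_apply,
      ContinuousLinearMap.smul_apply, smul_eq_mul]
    ring
  -- continuity of the partial derivatives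
  have cd : ∀ (Y : P2 → ℝ), ContDiff ℝ 1 Y → ∀ e : P2, Continuous (fun x => fderiv ℝ Y x e) :=
    fun Y hYc e => (hYc.continuous_fderiv (by norm_num)).clm_apply continuous_const
  set D : P2 → ℝ := fun x => |d1 Y1 x| + |d1 Y2 x| + |d2 Y1 x| + |d2 Y2 x| with hD
  have hDc : Continuous D := by
    have q1 := (cd Y1 h1 (1, 0)).abs
    have q2 := (cd Y2 h2 (1, 0)).abs
    have q3 := (cd Y1 h1 (0, 1)).abs
    have q4 := (cd Y2 h2 (0, 1)).abs
    exact ((q1.add q2).add q3).add q4
  have hGcont : ∀ n, Continuous (G n) := by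
    intro n
    have hε : 0 < 1 / ((n : ℝ) + 1) := by positivity
    have q1 := cd Y1 h1 (1, 0)
    have q2 := cd Y2 h2 (1, 0)
    have q3 := cd Y1 h1 (0, 1)
    have q4 := cd Y2 h2 (0, 1)
    have hNcc := hNc.continuous
    have hy1 := h1.continuous
    have hy2 := h2.continuous
    have hden : ∀ x, N x + 1 / ((n : ℝ) + 1) ≠ 0 := fun x => by have := hNn x; positivity
    have hden2 : ∀ x, (N x + 1 / ((n : ℝ) + 1)) ^ 2 ≠ 0 := fun x => pow_ne_zero _ (hden x)
    simp only [hG]
    refine Continuous.add (Continuous.mul (Continuous.div hNcc (by fun_prop) hden)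
      continuous_const) (Continuous.mul (Continuous.div continuous_const (by fun_prop) hden2) ?_)
    refine continuous_const.mul ((((hy1.pow 2).mul q1).add ((hy1.mul hy2).mul q2)).add
      ((hy1.mul hy2).mul q3) |>.add ((hy2.pow 2).mul q4))
  set Gl : P2 → ℝ := {x | N x ≠ 0}.indicator (fun _ => k) with hGi
  have hlim : Tendsto (fun n => ∫ x in Ω, G n x) atTop (𝓝 (∫ x in Ω, Gl x)) := by
    refine tendsto_integral_of_dominated_convergence (fun x => |k| + 2 * D x) (fun n => ?_) ?_
      (fun n => ?_) ?_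
    · exact (hGcont n).aestronglyMeasurable
    · exact ((continuous_const.add (continuous_const.mul hDc)).continuousOn.integrableOn_compact
        hb.isCompact_closure).mono_set subset_closure
    · refine Eventually.of_forall fun x => ?_
      have hε : 0 < 1 / ((n : ℝ) + 1) := by positivity
      set ε := 1 / ((n : ℝ) + 1) with hεd
      simp only [hG, ← hεd]
      have hn := hNn x
      have hp : 0 < N x + ε := by positivity
      rw [Real.norm_eq_abs]
      refine (abs_add_le _ _).trans (add_le_add ?_ ?_)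
      · rw [abs_mul, abs_of_nonneg (by positivity : 0 ≤ N x / (N x + ε))]
        have : N x / (N x + ε) ≤ 1 := by rw [div_le_one hp]; linarith
        nlinarith [abs_nonneg k]
      · have e1 : |Y1 x * Y2 x| ≤ N x := by
          simp only [hN]
          rw [abs_le]; constructor <;> nlinarith [sq_nonneg (Y1 x + Y2 x), sq_nonneg (Y1 x - Y2 x)]
        have e2 : |Y1 x ^ 2| ≤ N x := by
          rw [abs_of_nonneg (sq_nonneg _)]; simp only [hN]; nlinarith [sq_nonneg (Y2 x)]
        have e3 : |Y2 x ^ 2| ≤ N x := by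
          rw [abs_of_nonneg (sq_nonneg _)]; simp only [hN]; nlinarith [sq_nonneg (Y1 x)]
        have e4 : |2 * (Y1 x ^ 2 * d1 Y1 x + Y1 x * Y2 x * d1 Y2 x + Y1 x * Y2 x * d2 Y1 x
            + Y2 x ^ 2 * d2 Y2 x)| ≤ 2 * (N x * D x) := by
          rw [abs_mul, abs_of_pos (by norm_num : (0 : ℝ) < 2)]
          refine mul_le_mul_of_nonneg_left ?_ (by norm_num)
          refine (abs_add_le _ _).trans ?_
          have t1 := (abs_add_le (Y1 x ^ 2 * d1 Y1 x + Y1 x * Y2 x * d1 Y2 x)
            (Y1 x * Y2 x * d2 Y1 x))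
          have t2 := abs_add_le (Y1 x ^ 2 * d1 Y1 x) (Y1 x * Y2 x * d1 Y2 x)
          have s1 : |Y1 x ^ 2 * d1 Y1 x| ≤ N x * |d1 Y1 x| := by
            rw [abs_mul]; exact mul_le_mul_of_nonneg_right e2 (abs_nonneg _)
          have s2 : |Y1 x * Y2 x * d1 Y2 x| ≤ N x * |d1 Y2 x| := by
            rw [abs_mul]; exact mul_le_mul_of_nonneg_right e1 (abs_nonneg _)
          have s3 : |Y1 x * Y2 x * d2 Y1 x| ≤ N x * |d2 Y1 x| := by
            rw [abs_mul]; exact mul_le_mul_of_nonneg_right e1 (abs_nonneg _)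
          have s4 : |Y2 x ^ 2 * d2 Y2 x| ≤ N x * |d2 Y2 x| := by
            rw [abs_mul]; exact mul_le_mul_of_nonneg_right e3 (abs_nonneg _)
          simp only [hD]
          linarith
        rw [abs_mul, abs_of_nonneg (by positivity : 0 ≤ ε / (N x + ε) ^ 2)]
        have e5 : ε / (N x + ε) ^ 2 * N x ≤ 1 := by
          rw [div_mul_eq_mul_div, div_le_one (by positivity)]
          nlinarith [sq_nonneg (N x), mul_nonneg hn hε.le]
        have hD0 : 0 ≤ D x := by simp only [hD]; positivity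
        calc ε / (N x + ε) ^ 2 * |2 * (Y1 x ^ 2 * d1 Y1 x + Y1 x * Y2 x * d1 Y2 x
              + Y1 x * Y2 x * d2 Y1 x + Y2 x ^ 2 * d2 Y2 x)|
            ≤ ε / (N x + ε) ^ 2 * (2 * (N x * D x)) :=
              mul_le_mul_of_nonneg_left e4 (by positivity)
          _ = (ε / (N x + ε) ^ 2 * N x) * (2 * D x) := by ring
          _ ≤ 1 * (2 * D x) := mul_le_mul_of_nonneg_right e5 (by positivity)
          _ = 2 * D x := one_mul _
    · refine Eventually.of_forall fun x => ?_
      have hεl : Tendsto (fun n : ℕ => 1 / ((n : ℝ) + 1)) atTop (𝓝 0) :=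
        tendsto_one_div_add_atTop_nhds_zero_nat
      by_cases hx : N x = 0
      · have hy1 : Y1 x = 0 := by
          simp only [hN] at hx; nlinarith [sq_nonneg (Y1 x), sq_nonneg (Y2 x)]
        have hy2 : Y2 x = 0 := by
          simp only [hN] at hx; nlinarith [sq_nonneg (Y1 x), sq_nonneg (Y2 x)]
        have e0 : Gl x = 0 := by
          rw [hGi]; exact indicator_of_notMem (by simpa using hx) _
        rw [e0]
        refine tendsto_const_nhds.congr (fun n => ?_)
        simp only [hG]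
        rw [hx, hy1, hy2]; simp
      · have e0 : Gl x = k := by
          rw [hGi]; exact indicator_of_mem (by simpa using hx) _
        rw [e0]
        have l1 : Tendsto (fun n : ℕ => N x + 1 / ((n : ℝ) + 1)) atTop (𝓝 (N x)) := by
          simpa using hεl.const_add (N x)
        have l2 : Tendsto (fun n : ℕ => N x / (N x + 1 / ((n : ℝ) + 1)) * k) atTop (𝓝 k) := by
          have := (tendsto_const_nhds (x := N x)).div l1 hx |>.mul_const k
          rwa [div_self hx, one_mul] at this
        have l3 : Tendsto (fun n : ℕ => (1 / ((n : ℝ) + 1)) / (N x + 1 / ((n : ℝ) + 1)) ^ 2 *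
            (2 * (Y1 x ^ 2 * d1 Y1 x + Y1 x * Y2 x * d1 Y2 x + Y1 x * Y2 x * d2 Y1 x
              + Y2 x ^ 2 * d2 Y2 x))) atTop (𝓝 0) := by
          have := (hεl.div (l1.pow 2) (pow_ne_zero 2 hx)).mul_const
            (2 * (Y1 x ^ 2 * d1 Y1 x + Y1 x * Y2 x * d1 Y2 x + Y1 x * Y2 x * d2 Y1 x
              + Y2 x ^ 2 * d2 Y2 x))
          rwa [zero_div, zero_mul] at this
        have := l2.add l3
        rw [add_zero] at this
        exact this
  have hzero : ∫ x in Ω, Gl x = 0 := by
    refine tendsto_nhds_unique hlim ?_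
    simp only [hGint]
    exact tendsto_const_nhds
  have hopen : IsOpen {x | N x ≠ 0} := isOpen_ne_fun hNc.continuous continuous_const
  rw [hGi, setIntegral_indicator hopen.measurableSet, setIntegral_const, smul_eq_mul] at hzero
  have hvol : volume (Ω ∩ {x | N x ≠ 0}) = 0 := by
    rcases mul_eq_zero.1 hzero with h | h
    · rw [Measure.real, ENNReal.toReal_eq_zero_iff] at h
      rcases h with h | h
      · exact h
      · exact absurd h ((hb.subset inter_subset_left).measure_lt_top.ne)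
    · exact absurd h hk0
  have hemp : Ω ∩ {x | N x ≠ 0} = ∅ := (hΩ.inter hopen).measure_eq_zero_iff volume |>.1 hvol
  obtain ⟨x, hx⟩ := hne
  have hz : ∀ y ∈ Ω, N y = 0 := by
    intro y hy
    by_contra h
    have : y ∈ Ω ∩ {x | N x ≠ 0} := ⟨hy, h⟩
    rw [hemp] at this
    exact this
  have z1 : Y1 =ᶠ[𝓝 x] fun _ => 0 := by
    filter_upwards [hΩ.mem_nhds hx] with y hy
    have := hz y hy
    simp only [hN] at this; nlinarith [sq_nonneg (Y1 y), sq_nonneg (Y2 y)]
  have z2 : Y2 =ᶠ[𝓝 x] fun _ => 0 := by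
    filter_upwards [hΩ.mem_nhds hx] with y hy
    have := hz y hy
    simp only [hN] at this; nlinarith [sq_nonneg (Y1 y), sq_nonneg (Y2 y)]
  have := hk x hx
  rw [d1, d2, z1.fderiv_eq, z2.fderiv_eq] at this
  simp at this
  exact hk0 this.symm

end Pool.Agent.H754R3.PR
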