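import Pool.Agent.H754R3.PR.Fixed

set_option autoImplicit false

/-!
# The curvature identity on the frontier
-/

namespace Pool.Agent.H754R3.PR

open MeasureTheory Set Filter Topology

lemma curv_alg {p q p' q' x y z u h11 h12 h22 g11 g12 g22 X Y Z U H11 H12 H22 G11 G12 G22 : ℝ}
    (hS : 0 < p ^ 2 + q ^ 2)
    (e1 : p * x + q * y = 0) (e2 : p * z + q * u = 0) (e3 : x + u = 0)
    (E1 : p * X + q * Y = 0) (E2 : p * Z + q * U = 0) (E3 : X + U = 0)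
    (f1 : p' * x + q' * y + (p ^ 2 * h11 + 2 * p * q * h12 + q ^ 2 * h22) = 0)
    (f2 : p' * z + q' * u + (p ^ 2 * g11 + 2 * p * q * g12 + q ^ 2 * g22) = 0)
    (f3 : h11 + g12 = 0) (f4 : h12 + g22 = 0)
    (F1 : p' * X + q' * Y + (p ^ 2 * H11 + 2 * p * q * H12 + q ^ 2 * H22) = 0)
    (F2 : p' * Z + q' * U + (p ^ 2 * G11 + 2 * p * q * G12 + q ^ 2 * G22) = 0)
    (F3 : H11 + G12 = 0) (F4 : H12 + G22 = 0)
    (g1 : X * h11 + H11 * x + Y * g11 + H12 * z + Z * h12 + G11 * y + U * g12 + G12 * u = 0)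
    (g2 : X * h12 + H12 * x + Y * g12 + H22 * z + Z * h22 + G12 * y + U * g22 + G22 * u = 0) :
    (z - y) * (Z - Y) * (p * q' - q * p') = 0 := by
  have hS' : p ^ 2 + q ^ 2 ≠ 0 := hS.ne'
  have hx : (p ^ 2 + q ^ 2) * x - p * q * (z - y) = 0 := by
    linear_combination p * e1 - q * e2 + q ^ 2 * e3
  have hy : (p ^ 2 + q ^ 2) * y + p ^ 2 * (z - y) = 0 := by
    linear_combination q * e1 + p * e2 - p * q * e3
  have hz : (p ^ 2 + q ^ 2) * z - q ^ 2 * (z - y) = 0 := by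
    linear_combination q * e1 + p * e2 - p * q * e3
  have hu : (p ^ 2 + q ^ 2) * u + p * q * (z - y) = 0 := by
    linear_combination -p * e1 + q * e2 - q ^ 2 * e3 + (p ^ 2 + q ^ 2) * e3
  have hX : (p ^ 2 + q ^ 2) * X - p * q * (Z - Y) = 0 := by
    linear_combination p * E1 - q * E2 + q ^ 2 * E3
  have hY : (p ^ 2 + q ^ 2) * Y + p ^ 2 * (Z - Y) = 0 := by
    linear_combination q * E1 + p * E2 - p * q * E3
  have hZ : (p ^ 2 + q ^ 2) * Z - q ^ 2 * (Z - Y) = 0 := by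
    linear_combination q * E1 + p * E2 - p * q * E3
  have hU : (p ^ 2 + q ^ 2) * U + p * q * (Z - Y) = 0 := by
    linear_combination -p * E1 + q * E2 - q ^ 2 * E3 + (p ^ 2 + q ^ 2) * E3
  obtain ⟨Nw, hNw⟩ : ∃ N : ℝ, N = -q * (-(p * q) * h11 + (p ^ 2 - q ^ 2) * h12 + p * q * h22)
    + p * (-(p * q) * g11 + (p ^ 2 - q ^ 2) * g12 + p * q * g22) := ⟨_, rfl⟩
  obtain ⟨Na, hNa⟩ : ∃ N : ℝ, N = -q * (-(p * q) * H11 + (p ^ 2 - q ^ 2) * H12 + p * q * H22)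
    + p * (-(p * q) * G11 + (p ^ 2 - q ^ 2) * G12 + p * q * G22) := ⟨_, rfl⟩
  have n1 : Nw = p * (p' * x + q' * y) + q * (p' * z + q' * u) := by
    rw [hNw]
    linear_combination (p ^ 2 + q ^ 2) * (p * f3 + q * f4) - p * f1 - q * f2
  have n2 : Na = p * (p' * X + q' * Y) + q * (p' * Z + q' * U) := by
    rw [hNa]
    linear_combination (p ^ 2 + q ^ 2) * (p * F3 + q * F4) - p * F1 - q * F2
  have m1 : Nw = -((z - y) * (p * q' - q * p')) := by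
    apply mul_left_cancel₀ hS'
    rw [n1]
    linear_combination p * p' * hx + p * q' * hy + q * p' * hz + q * q' * hu
  have m2 : Na = -((Z - Y) * (p * q' - q * p')) := by
    apply mul_left_cancel₀ hS'
    rw [n2]
    linear_combination p * p' * hX + p * q' * hY + q * p' * hZ + q * q' * hU
  have key : -(z - y) * Na - (Z - Y) * Nw = 0 := by
    rw [hNa, hNw]
    linear_combination (p ^ 2 + q ^ 2) * (-q * g1 + p * g2)
      - ((-q * H11 + p * H12) * hx + (-q * G11 + p * G12) * hy + (-q * H12 + p * H22) * hz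
        + (-q * G12 + p * G22) * hu + (-q * h11 + p * h12) * hX + (-q * g11 + p * g12) * hY
        + (-q * h12 + p * h22) * hZ + (-q * g12 + p * g22) * hU)
  rw [m1, m2] at key
  linarith

/-- the mixed determinant identity in the domain -/
lemma mixed_det {Ω : Set P2} (hΩ : IsOpen Ω) {ν : ℝ} {w1 w2 a1 a2 k1 k2 : P2 → ℝ}
    (hk1 : ContDiff ℝ 2 k1) (hk2 : ContDiff ℝ 2 k2)
    (hw1 : ContDiff ℝ 3 w1) (hw2 : ContDiff ℝ 3 w2) (ha1 : ContDiff ℝ 3 a1) (ha2 : ContDiff ℝ 3 a2)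
    (hdw : ∀ x ∈ Ω, d1 w1 x + d2 w2 x = 0) (hda : ∀ x ∈ Ω, d1 a1 x + d2 a2 x = 0)
    (hdk : ∀ x ∈ Ω, d1 k1 x + d2 k2 x = 0)
    (hm1 : ∀ x ∈ Ω, ν * (d1 (d1 w1) x + d2 (d2 w1) x) =
      k1 x + (a1 x * d1 w1 x + a2 x * d2 w1 x + w1 x * d1 a1 x + w2 x * d2 a1 x))
    (hm2 : ∀ x ∈ Ω, ν * (d1 (d1 w2) x + d2 (d2 w2) x) =
      k2 x + (a1 x * d1 w2 x + a2 x * d2 w2 x + w1 x * d1 a2 x + w2 x * d2 a2 x)) :
    ∀ x ∈ Ω, d1 a1 x * d1 w1 x + d2 a1 x * d1 w2 x + d1 a2 x * d2 w1 x + d2 a2 x * d2 w2 x = 0 := by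
  have hw1' : ContDiff ℝ 2 w1 := hw1.of_le (by norm_num)
  have hw2' : ContDiff ℝ 2 w2 := hw2.of_le (by norm_num)
  have ha1' : ContDiff ℝ 2 a1 := ha1.of_le (by norm_num)
  have ha2' : ContDiff ℝ 2 a2 := ha2.of_le (by norm_num)
  have r1 : ContDiff ℝ 2 (d1 w1) := d1_contDiff (m := 2) (n := 3) hw1 (by norm_num)
  have r2 : ContDiff ℝ 2 (d2 w1) := d2_contDiff (m := 2) (n := 3) hw1 (by norm_num)
  have r3 : ContDiff ℝ 2 (d1 w2) := d1_contDiff (m := 2) (n := 3) hw2 (by norm_num)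
  have r4 : ContDiff ℝ 2 (d2 w2) := d2_contDiff (m := 2) (n := 3) hw2 (by norm_num)
  have q1 : ContDiff ℝ 2 (d1 a1) := d1_contDiff (m := 2) (n := 3) ha1 (by norm_num)
  have q2 : ContDiff ℝ 2 (d2 a1) := d2_contDiff (m := 2) (n := 3) ha1 (by norm_num)
  have q3 : ContDiff ℝ 2 (d1 a2) := d1_contDiff (m := 2) (n := 3) ha2 (by norm_num)
  have q4 : ContDiff ℝ 2 (d2 a2) := d2_contDiff (m := 2) (n := 3) ha2 (by norm_num)
  have dd : ∀ {F : P2 → ℝ}, ContDiff ℝ 2 F → Differentiable ℝ F := fun hF =>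
    hF.differentiable (by norm_num)
  have dw1 := dd hw1'
  have dw2 := dd hw2'
  have dr1 := dd r1
  have dr2 := dd r2
  have dr3 := dd r3
  have dr4 := dd r4
  have da1 := dd ha1'
  have da2 := dd ha2'
  have dq1 := dd q1
  have dq2 := dd q2
  have dq3 := dd q3
  have dq4 := dd q4
  have dk1 := dd hk1
  have dk2 := dd hk2
  -- derivatives of identities valid on Ω
  have tr1 : ∀ {F : P2 → ℝ}, (∀ x ∈ Ω, F x = 0) → ∀ x ∈ Ω, d1 F x = 0 ∧ d2 F x = 0 := by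
    intro F hF x hx
    have : F =ᶠ[𝓝 x] fun _ => 0 := by
      filter_upwards [hΩ.mem_nhds hx] with y hy using hF y hy
    rw [d1, d2, this.fderiv_eq, fderiv_fun_const]; simp
  obtain ⟨om, hom⟩ : ∃ om : P2 → ℝ, om = fun x => d1 w2 x - d2 w1 x := ⟨_, rfl⟩
  have hom2 : ContDiff ℝ 2 om := by rw [hom]; exact r3.sub r2
  have dom := dd hom2
  have o1 : ContDiff ℝ 1 (d1 om) := d1_contDiff (m := 1) (n := 2) hom2 (by norm_num)
  have o2 : ContDiff ℝ 1 (d2 om) := d2_contDiff (m := 1) (n := 2) hom2 (by norm_num)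
  have do1 : Differentiable ℝ (d1 om) := o1.differentiable (by norm_num)
  have do2 : Differentiable ℝ (d2 om) := o2.differentiable (by norm_num)
  have ho1 : ∀ x, d1 om x = d1 (d1 w2) x - d1 (d2 w1) x := fun x => by
    rw [hom]; exact d1_sub dr3 dr2 x
  have ho2 : ∀ x, d2 om x = d2 (d1 w2) x - d2 (d2 w1) x := fun x => by
    rw [hom]; exact d2_sub dr3 dr2 x
  have hdd1 : ∀ x ∈ Ω, d1 (d1 w1) x + d1 (d2 w2) x = 0 := fun x hx => by
    rw [← d1_add dr1 dr4]; exact (tr1 hdw x hx).1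
  have hdd2 : ∀ x ∈ Ω, d2 (d1 w1) x + d2 (d2 w2) x = 0 := fun x hx => by
    rw [← d2_add dr1 dr4]; exact (tr1 hdw x hx).2
  have hda1 : ∀ x ∈ Ω, d1 (d1 a1) x + d1 (d2 a2) x = 0 := fun x hx => by
    rw [← d1_add dq1 dq4]; exact (tr1 hda x hx).1
  have hda2 : ∀ x ∈ Ω, d2 (d1 a1) x + d2 (d2 a2) x = 0 := fun x hx => by
    rw [← d2_add dq1 dq4]; exact (tr1 hda x hx).2
  have m1 : Differentiable ℝ (fun x => a1 x * d1 w1 x) := da1.mul dr1
  have m2 : Differentiable ℝ (fun x => a2 x * d2 w1 x) := da2.mul dr2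
  have m3 : Differentiable ℝ (fun x => w1 x * d1 a1 x) := dw1.mul dq1
  have m4 : Differentiable ℝ (fun x => w2 x * d2 a1 x) := dw2.mul dq2
  have m5 : Differentiable ℝ (fun x => a1 x * d1 w2 x) := da1.mul dr3
  have m6 : Differentiable ℝ (fun x => a2 x * d2 w2 x) := da2.mul dr4
  have m7 : Differentiable ℝ (fun x => w1 x * d1 a2 x) := dw1.mul dq3
  have m8 : Differentiable ℝ (fun x => w2 x * d2 a2 x) := dw2.mul dq4
  have m12 : Differentiable ℝ (fun x => a1 x * d1 w1 x + a2 x * d2 w1 x) := m1.add m2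
  have m123 : Differentiable ℝ (fun x => a1 x * d1 w1 x + a2 x * d2 w1 x + w1 x * d1 a1 x) :=
    m12.add m3
  have m1234 : Differentiable ℝ (fun x => a1 x * d1 w1 x + a2 x * d2 w1 x + w1 x * d1 a1 x
    + w2 x * d2 a1 x) := m123.add m4
  have m56 : Differentiable ℝ (fun x => a1 x * d1 w2 x + a2 x * d2 w2 x) := m5.add m6
  have m567 : Differentiable ℝ (fun x => a1 x * d1 w2 x + a2 x * d2 w2 x + w1 x * d1 a2 x) :=
    m56.add m7
  have m5678 : Differentiable ℝ (fun x => a1 x * d1 w2 x + a2 x * d2 w2 x + w1 x * d1 a2 x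
    + w2 x * d2 a2 x) := m567.add m8
  have mk1 : Differentiable ℝ (fun x => k1 x + (a1 x * d1 w1 x + a2 x * d2 w1 x + w1 x * d1 a1 x
    + w2 x * d2 a1 x)) := dk1.add m1234
  have mk2 : Differentiable ℝ (fun x => k2 x + (a1 x * d1 w2 x + a2 x * d2 w2 x + w1 x * d1 a2 x
    + w2 x * d2 a2 x)) := dk2.add m5678
  have mo1 : Differentiable ℝ (fun x => ν * d2 om x) := do2.const_mul ν
  have mo2 : Differentiable ℝ (fun x => ν * d1 om x) := do1.const_mul ν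
  have I1 : ∀ x ∈ Ω, ν * d2 om x + (k1 x + (a1 x * d1 w1 x + a2 x * d2 w1 x + w1 x * d1 a1 x
      + w2 x * d2 a1 x)) = 0 := by
    intro x hx
    have h1 := hm1 x hx
    have h2 : d1 (d1 w1) x + d2 (d2 w1) x = - d2 om x := by
      rw [ho2, ← d_comm hw2' x]; have := hdd1 x hx; linarith
    rw [h2] at h1; linarith
  have I2 : ∀ x ∈ Ω, ν * d1 om x - (k2 x + (a1 x * d1 w2 x + a2 x * d2 w2 x + w1 x * d1 a2 x
      + w2 x * d2 a2 x)) = 0 := by
    intro x hx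
    have h1 := hm2 x hx
    have h2 : d1 (d1 w2) x + d2 (d2 w2) x = d1 om x := by
      rw [ho1, d_comm hw1' x]; have := hdd2 x hx; linarith
    rw [h2] at h1; linarith
  intro x hx
  have J1 := (tr1 I1 x hx).1
  have J2 := (tr1 I2 x hx).2
  rw [d1_add mo1 mk1, d1_cmul do2,
    d1_add dk1 m1234, d1_add m123 m4, d1_add m12 m3, d1_add m1 m2, d1_mul da1 dr1, d1_mul da2 dr2,
    d1_mul dw1 dq1, d1_mul dw2 dq2] at J1
  rw [d2_sub mo2 mk2, d2_cmul do1,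
    d2_add dk2 m5678, d2_add m567 m8, d2_add m56 m7, d2_add m5 m6, d2_mul da1 dr3, d2_mul da2 dr4,
    d2_mul dw1 dq3, d2_mul dw2 dq4] at J2
  have s1 := d_comm hom2 x
  have s2 := d_comm hw1' x
  have s3 := d_comm hw2' x
  have s4 := d_comm ha1' x
  have s5 := d_comm ha2' x
  have t1 := hdd1 x hx
  have t2 := hdd2 x hx
  have t3 := hda1 x hx
  have t4 := hda2 x hx
  have t5 := hdk x hx
  rw [s1] at J1
  rw [s2, s4] at J1
  rw [s3] at t1
  rw [s5] at t3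
  linear_combination (1 / 2) * J1 - (1 / 2) * J2 - (1 / 2) * t5 - (1 / 2) * a1 x * t1
    - (1 / 2) * a2 x * t2 - (1 / 2) * w1 x * t3 - (1 / 2) * w2 x * t4

/-- the curvature identity: `ω_w ω_a κ = 0` on the frontier -/
lemma curvature {Ω : Set P2} (hΩ : IsOpen Ω) {γ : ℝ → P2} (hγ : ContDiff ℝ 2 γ)
    (hγ0 : ∀ s, deriv γ s ≠ 0) (hγr : range γ = frontier Ω) {w1 w2 a1 a2 : P2 → ℝ}
    (hw1 : ContDiff ℝ 3 w1) (hw2 : ContDiff ℝ 3 w2) (ha1 : ContDiff ℝ 3 a1) (ha2 : ContDiff ℝ 3 a2)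
    (hdw : ∀ x ∈ Ω, d1 w1 x + d2 w2 x = 0) (hda : ∀ x ∈ Ω, d1 a1 x + d2 a2 x = 0)
    (hbw : ∀ x ∈ frontier Ω, w1 x = 0 ∧ w2 x = 0) (hba : ∀ x ∈ frontier Ω, a1 x = 0 ∧ a2 x = 0)
    (hG : ∀ x ∈ Ω, d1 a1 x * d1 w1 x + d2 a1 x * d1 w2 x + d1 a2 x * d2 w1 x
      + d2 a2 x * d2 w2 x = 0) (s : ℝ) :
    (d1 w2 (γ s) - d2 w1 (γ s)) * (d1 a2 (γ s) - d2 a1 (γ s)) *
      ((deriv γ s).1 * (deriv (deriv γ) s).2 - (deriv γ s).2 * (deriv (deriv γ) s).1) = 0 := by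
  have hw1' : ContDiff ℝ 2 w1 := hw1.of_le (by norm_num)
  have hw2' : ContDiff ℝ 2 w2 := hw2.of_le (by norm_num)
  have ha1' : ContDiff ℝ 2 a1 := ha1.of_le (by norm_num)
  have ha2' : ContDiff ℝ 2 a2 := ha2.of_le (by norm_num)
  have r1 : ContDiff ℝ 2 (d1 w1) := d1_contDiff (m := 2) (n := 3) hw1 (by norm_num)
  have r2 : ContDiff ℝ 2 (d2 w1) := d2_contDiff (m := 2) (n := 3) hw1 (by norm_num)
  have r3 : ContDiff ℝ 2 (d1 w2) := d1_contDiff (m := 2) (n := 3) hw2 (by norm_num)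
  have r4 : ContDiff ℝ 2 (d2 w2) := d2_contDiff (m := 2) (n := 3) hw2 (by norm_num)
  have q1 : ContDiff ℝ 2 (d1 a1) := d1_contDiff (m := 2) (n := 3) ha1 (by norm_num)
  have q2 : ContDiff ℝ 2 (d2 a1) := d2_contDiff (m := 2) (n := 3) ha1 (by norm_num)
  have q3 : ContDiff ℝ 2 (d1 a2) := d1_contDiff (m := 2) (n := 3) ha2 (by norm_num)
  have q4 : ContDiff ℝ 2 (d2 a2) := d2_contDiff (m := 2) (n := 3) ha2 (by norm_num)
  have dd : ∀ {F : P2 → ℝ}, ContDiff ℝ 2 F → Differentiable ℝ F := fun hF =>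
    hF.differentiable (by norm_num)
  have dr1 := dd r1
  have dr2 := dd r2
  have dr3 := dd r3
  have dr4 := dd r4
  have dq1 := dd q1
  have dq2 := dd q2
  have dq3 := dd q3
  have dq4 := dd q4
  have hγd : Differentiable ℝ γ := hγ.differentiable (by norm_num)
  have hγ1 : Differentiable ℝ (deriv γ) :=
    (hγ.iterate_deriv' 1 1).differentiable (by norm_num)
  have hmem : ∀ s, γ s ∈ frontier Ω := fun s => by rw [← hγr]; exact mem_range_self s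
  have cc : ∀ {F : P2 → ℝ}, ContDiff ℝ 2 F → Continuous (d1 F) ∧ Continuous (d2 F) := fun hF =>
    ⟨(d1_contDiff (m := 1) (n := 2) hF (by norm_num)).continuous,
      (d2_contDiff (m := 1) (n := 2) hF (by norm_num)).continuous⟩
  -- an identity on Ω of C^2 functions holds with first derivatives on the frontier
  have tr : ∀ {F : P2 → ℝ}, ContDiff ℝ 2 F → (∀ x ∈ Ω, F x = 0) →
      ∀ x ∈ frontier Ω, F x = 0 ∧ d1 F x = 0 ∧ d2 F x = 0 := by
    intro F hF h0 x hx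
    have h1 : ∀ y ∈ Ω, d1 F y = 0 ∧ d2 F y = 0 := by
      intro y hy
      have : F =ᶠ[𝓝 y] fun _ => 0 := by
        filter_upwards [hΩ.mem_nhds hy] with z hz using h0 z hz
      rw [d1, d2, this.fderiv_eq, fderiv_fun_const]; simp
    exact ⟨zero_on_frontier hF.continuous h0 x hx,
      zero_on_frontier (cc hF).1 (fun y hy => (h1 y hy).1) x hx,
      zero_on_frontier (cc hF).2 (fun y hy => (h1 y hy).2) x hx⟩
  -- tangential derivatives
  have tan1 : ∀ {F : P2 → ℝ}, ContDiff ℝ 3 F → (∀ x ∈ frontier Ω, F x = 0) → ∀ s,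
      (deriv γ s).1 * d1 F (γ s) + (deriv γ s).2 * d2 F (γ s) = 0 := by
    intro F hF h0 s
    have h1 := (hF.differentiable (by norm_num) (γ s)).hasFDerivAt.comp_hasDerivAt s
      (hγd s).hasDerivAt
    have h2 : (F ∘ γ) = fun _ => 0 := funext fun s => h0 _ (hmem s)
    rw [h2] at h1
    have h3 := h1.unique (hasDerivAt_const s (0 : ℝ))
    rw [fderiv_eq_of_d] at h3
    exact h3
  have tan2 : ∀ {F : P2 → ℝ}, ContDiff ℝ 3 F → (∀ x ∈ frontier Ω, F x = 0) →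
      (deriv (deriv γ) s).1 * d1 F (γ s) + (deriv (deriv γ) s).2 * d2 F (γ s) +
      ((deriv γ s).1 ^ 2 * d1 (d1 F) (γ s) + 2 * (deriv γ s).1 * (deriv γ s).2 * d1 (d2 F) (γ s)
        + (deriv γ s).2 ^ 2 * d2 (d2 F) (γ s)) = 0 := by
    intro F hF h0
    have R1 : ContDiff ℝ 2 (d1 F) := d1_contDiff (m := 2) (n := 3) hF (by norm_num)
    have R2 : ContDiff ℝ 2 (d2 F) := d2_contDiff (m := 2) (n := 3) hF (by norm_num)
    have b1 := ((dd R1) (γ s)).hasFDerivAt.comp_hasDerivAt s (hγd s).hasDerivAt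
    have b2 := ((dd R2) (γ s)).hasFDerivAt.comp_hasDerivAt s (hγd s).hasDerivAt
    rw [fderiv_eq_of_d] at b1 b2
    have b3 : HasDerivAt (fun s => (deriv γ s).1) (deriv (deriv γ) s).1 s :=
      (hγ1 s).hasDerivAt.fst
    have b4 : HasDerivAt (fun s => (deriv γ s).2) (deriv (deriv γ) s).2 s :=
      (hγ1 s).hasDerivAt.snd
    have b5 := (b3.fun_mul b1).fun_add (b4.fun_mul b2)
    have b6 : (fun s => (deriv γ s).1 * (d1 F ∘ γ) s + (deriv γ s).2 * (d2 F ∘ γ) s) =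
        fun _ => 0 := funext fun s => tan1 hF h0 s
    rw [b6] at b5
    have b7 := b5.unique (hasDerivAt_const s (0 : ℝ))
    have b8 := d_comm (hF.of_le (by norm_num) : ContDiff ℝ 2 F) (γ s)
    simp only [Function.comp] at b7
    rw [← b8] at b7
    linarith
  have hS : 0 < (deriv γ s).1 ^ 2 + (deriv γ s).2 ^ 2 := by
    by_contra h
    push Not at h
    apply hγ0 s
    have z1 : (deriv γ s).1 = 0 := by nlinarith [sq_nonneg (deriv γ s).1, sq_nonneg (deriv γ s).2]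
    have z2 : (deriv γ s).2 = 0 := by nlinarith [sq_nonneg (deriv γ s).1, sq_nonneg (deriv γ s).2]
    exact Prod.ext z1 z2
  obtain ⟨v0, v1, v2⟩ := tr (F := fun x => d1 w1 x + d2 w2 x) (r1.add r4) hdw _ (hmem s)
  obtain ⟨y0, y1, y2⟩ := tr (F := fun x => d1 a1 x + d2 a2 x) (q1.add q4) hda _ (hmem s)
  obtain ⟨-, G1, G2⟩ := tr (F := fun x => d1 a1 x * d1 w1 x + d2 a1 x * d1 w2 x
    + d1 a2 x * d2 w1 x + d2 a2 x * d2 w2 x)
    ((((q1.mul r1).add (q2.mul r3)).add (q3.mul r2)).add (q4.mul r4)) hG _ (hmem s)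
  rw [d1_add dr1 dr4] at v1
  rw [d2_add dr1 dr4] at v2
  rw [d1_add dq1 dq4] at y1
  rw [d2_add dq1 dq4] at y2
  have m1 : Differentiable ℝ (fun x => d1 a1 x * d1 w1 x) := dq1.mul dr1
  have m2 : Differentiable ℝ (fun x => d2 a1 x * d1 w2 x) := dq2.mul dr3
  have m3 : Differentiable ℝ (fun x => d1 a2 x * d2 w1 x) := dq3.mul dr2
  have m4 : Differentiable ℝ (fun x => d2 a2 x * d2 w2 x) := dq4.mul dr4
  have m12 : Differentiable ℝ (fun x => d1 a1 x * d1 w1 x + d2 a1 x * d1 w2 x) := m1.add m2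
  have m123 : Differentiable ℝ (fun x => d1 a1 x * d1 w1 x + d2 a1 x * d1 w2 x
    + d1 a2 x * d2 w1 x) := m12.add m3
  rw [d1_add m123 m4, d1_add m12 m3, d1_add m1 m2, d1_mul dq1 dr1, d1_mul dq2 dr3,
    d1_mul dq3 dr2, d1_mul dq4 dr4] at G1
  rw [d2_add m123 m4, d2_add m12 m3, d2_add m1 m2, d2_mul dq1 dr1, d2_mul dq2 dr3,
    d2_mul dq3 dr2, d2_mul dq4 dr4] at G2
  have c1 := d_comm hw1' (γ s)
  have c2 := d_comm hw2' (γ s)
  have c3 := d_comm ha1' (γ s)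
  have c4 := d_comm ha2' (γ s)
  rw [← c1] at v2
  rw [← c3] at y2
  rw [← c1, ← c2, ← c3, ← c4] at G2
  refine curv_alg (x := d1 w1 (γ s)) (y := d2 w1 (γ s)) (z := d1 w2 (γ s)) (u := d2 w2 (γ s))
    (h11 := d1 (d1 w1) (γ s)) (h12 := d1 (d2 w1) (γ s)) (h22 := d2 (d2 w1) (γ s))
    (g11 := d1 (d1 w2) (γ s)) (g12 := d1 (d2 w2) (γ s)) (g22 := d2 (d2 w2) (γ s))
    (X := d1 a1 (γ s)) (Y := d2 a1 (γ s)) (Z := d1 a2 (γ s)) (U := d2 a2 (γ s))
    (H11 := d1 (d1 a1) (γ s)) (H12 := d1 (d2 a1) (γ s)) (H22 := d2 (d2 a1) (γ s))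
    (G11 := d1 (d1 a2) (γ s)) (G12 := d1 (d2 a2) (γ s)) (G22 := d2 (d2 a2) (γ s))
    hS (tan1 hw1 (fun x hx => (hbw x hx).1) s) (tan1 hw2 (fun x hx => (hbw x hx).2) s) v0
    (tan1 ha1 (fun x hx => (hba x hx).1) s) (tan1 ha2 (fun x hx => (hba x hx).2) s) y0
    (tan2 hw1 (fun x hx => (hbw x hx).1)) (tan2 hw2 (fun x hx => (hbw x hx).2)) v1 v2
    (tan2 ha1 (fun x hx => (hba x hx).1)) (tan2 ha2 (fun x hx => (hba x hx).2)) y1 y2 ?_ ?_
  · linarith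
  · linarith

/-- a compact frontier parametrised by a regular curve has a point of nonzero curvature -/
lemma exists_curved {K : Set P2} (hK : IsCompact K) {γ : ℝ → P2} (hγ : ContDiff ℝ 2 γ)
    (hγ0 : ∀ s, deriv γ s ≠ 0) (hγr : range γ = K) :
    ∃ s, (deriv γ s).1 * (deriv (deriv γ) s).2 - (deriv γ s).2 * (deriv (deriv γ) s).1 ≠ 0 := by
  have hγd : Differentiable ℝ γ := hγ.differentiable (by norm_num)
  have hγ1 : Differentiable ℝ (deriv γ) :=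
    (hγ.iterate_deriv' 1 1).differentiable (by norm_num)
  have hne : K.Nonempty := by rw [← hγr]; exact range_nonempty γ
  obtain ⟨x0, hx0, hmax⟩ := hK.exists_isMaxOn hne
    (f := fun x : P2 => x.1 ^ 2 + x.2 ^ 2) (by fun_prop)
  rw [← hγr] at hx0
  obtain ⟨s, rfl⟩ := hx0
  refine ⟨s, fun hk => ?_⟩
  obtain ⟨φ, hφ⟩ : ∃ φ : ℝ → ℝ, φ = fun s => (γ s).1 ^ 2 + (γ s).2 ^ 2 := ⟨_, rfl⟩
  have hm : ∀ s', φ s' ≤ φ s := by
    intro s'
    rw [hφ]
    exact hmax (by rw [← hγr]; exact mem_range_self s')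
  have e1 : ∀ s, HasDerivAt φ (2 * (γ s).1 * (deriv γ s).1 + 2 * (γ s).2 * (deriv γ s).2) s := by
    intro s
    have b3 : HasDerivAt (fun s => (γ s).1) (deriv γ s).1 s := (hγd s).hasDerivAt.fst
    have b4 : HasDerivAt (fun s => (γ s).2) (deriv γ s).2 s := (hγd s).hasDerivAt.snd
    rw [hφ]
    refine ((b3.fun_pow 2).fun_add (b4.fun_pow 2)).congr_deriv ?_
    push_cast; ring
  have e2 : deriv φ = fun s => 2 * (γ s).1 * (deriv γ s).1 + 2 * (γ s).2 * (deriv γ s).2 :=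
    funext fun s => (e1 s).deriv
  have e3 : HasDerivAt (deriv φ) (2 * ((deriv γ s).1 ^ 2 + (deriv γ s).2 ^ 2) +
      2 * ((γ s).1 * (deriv (deriv γ) s).1 + (γ s).2 * (deriv (deriv γ) s).2)) s := by
    have b3 : HasDerivAt (fun s => (γ s).1) (deriv γ s).1 s := (hγd s).hasDerivAt.fst
    have b4 : HasDerivAt (fun s => (γ s).2) (deriv γ s).2 s := (hγd s).hasDerivAt.snd
    have b5 : HasDerivAt (fun s => (deriv γ s).1) (deriv (deriv γ) s).1 s :=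
      (hγ1 s).hasDerivAt.fst
    have b6 : HasDerivAt (fun s => (deriv γ s).2) (deriv (deriv γ) s).2 s :=
      (hγ1 s).hasDerivAt.snd
    rw [e2]
    refine (((b3.const_mul 2).fun_mul b5).fun_add ((b4.const_mul 2).fun_mul b6)).congr_deriv ?_
    ring
  have hloc : IsLocalMax φ s := Eventually.of_forall hm
  have hz : deriv φ s = 0 := hloc.deriv_eq_zero
  have hle : deriv (deriv φ) s ≤ 0 := by
    by_contra h
    push Not at h
    have hmin := isLocalMin_of_deriv_deriv_pos h hz (e1 s).continuousAt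
    have hev : φ =ᶠ[𝓝 s] fun _ => φ s := by
      filter_upwards [hmin] with y hy
      exact le_antisymm (hm y) hy
    have h1 : deriv φ =ᶠ[𝓝 s] deriv fun _ => φ s := hev.deriv
    have h2 := h1.deriv_eq
    rw [h2] at h
    simp at h
  rw [e3.deriv] at hle
  rw [e2] at hz
  simp only at hz
  obtain ⟨p, hp⟩ : ∃ p, p = (deriv γ s).1 := ⟨_, rfl⟩
  obtain ⟨q, hq⟩ : ∃ q, q = (deriv γ s).2 := ⟨_, rfl⟩
  obtain ⟨p', hp'⟩ : ∃ p', p' = (deriv (deriv γ) s).1 := ⟨_, rfl⟩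
  obtain ⟨q', hq'⟩ : ∃ q', q' = (deriv (deriv γ) s).2 := ⟨_, rfl⟩
  obtain ⟨A, hA⟩ : ∃ A, A = (γ s).1 := ⟨_, rfl⟩
  obtain ⟨B, hB⟩ : ∃ B, B = (γ s).2 := ⟨_, rfl⟩
  rw [← hp, ← hq, ← hp', ← hq', ← hA, ← hB] at hle
  rw [← hp, ← hq, ← hA, ← hB] at hz
  rw [← hp, ← hq, ← hp', ← hq'] at hk
  have hS : 0 < p ^ 2 + q ^ 2 := by
    by_contra h
    push Not at h
    apply hγ0 s
    have z1 : (deriv γ s).1 = 0 := by rw [← hp]; nlinarith [sq_nonneg p, sq_nonneg q]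
    have z2 : (deriv γ s).2 = 0 := by rw [← hq]; nlinarith [sq_nonneg p, sq_nonneg q]
    exact Prod.ext z1 z2
  -- `γ'' = λ γ'` and `γ ⟂ γ'`, so `γ·γ'' = 0`
  have h1 : (p ^ 2 + q ^ 2) * (A * p' + B * q') = 0 := by
    linear_combination (p * p' + q * q') * (1 / 2) * hz + (B * p - A * q) * hk
  have h2 := (mul_eq_zero.1 h1).resolve_left hS.ne'
  rw [h2] at hle
  linarith

end Pool.Agent.H754R3.PR
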