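import Pool.Agent.H754R3.PR.ConstZero

set_option autoImplicit false

/-!
# The divergence theorem for functions vanishing on the frontier
-/

namespace Pool.Agent.H754R3.PR

open MeasureTheory Set Filter Topology

lemma countable_simple_zeros (f : ℝ → ℝ) (hf : Differentiable ℝ f) :
    {x | f x = 0 ∧ deriv f x ≠ 0}.Countable := by
  set Z := {x | f x = 0 ∧ deriv f x ≠ 0} with hZ
  have hd : DiscreteTopology Z := by
    rw [discreteTopology_subtype_iff]
    rintro x ⟨_, hx2⟩
    have h1 : ∀ᶠ z in 𝓝[≠] x, f z ≠ 0 := (hf x).hasDerivAt.eventually_ne hx2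
    rw [← disjoint_iff, Filter.disjoint_principal_right]
    filter_upwards [h1] with z hz
    intro hzZ
    exact hz hzZ.1
  have : Countable Z := (TopologicalSpace.separableSpace_iff_countable).1 inferInstance
  exact Set.countable_coe_iff.1 this

lemma null2 {V : P2 → ℝ} (hV : ContDiff ℝ 1 V) :
    volume {x : P2 | V x = 0 ∧ d2 V x ≠ 0} = 0 := by
  have c2 : Continuous (d2 V) :=
    (hV.continuous_fderiv (by norm_num)).clm_apply continuous_const
  have hm : MeasurableSet {x : P2 | V x = 0 ∧ d2 V x ≠ 0} :=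
    ((isClosed_eq hV.continuous continuous_const).measurableSet).inter
      ((isOpen_ne_fun c2 continuous_const).measurableSet)
  rw [Measure.volume_eq_prod, Measure.measure_prod_null hm]
  refine Eventually.of_forall fun a => ?_
  have hd : Differentiable ℝ (fun t => V (a, t)) := fun t =>
    ((hV.differentiable (by norm_num)) (a, t)).comp t
      ((differentiableAt_const a).prodMk differentiableAt_id)
  have hder : ∀ t, deriv (fun t => V (a, t)) t = d2 V (a, t) := by
    intro t
    have h1 : HasDerivAt (fun t : ℝ => ((a, t) : P2)) ((0 : ℝ), (1 : ℝ)) t :=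
      (hasDerivAt_const t a).prodMk (hasDerivAt_id t)
    exact (((hV.differentiable (by norm_num)) (a, t)).hasFDerivAt.comp_hasDerivAt t h1).deriv
  have h2 := countable_simple_zeros (fun t => V (a, t)) hd
  refine (h2.mono ?_).measure_zero _
  intro t ht
  exact ⟨ht.1, by rw [hder t]; exact ht.2⟩

lemma null1 {V : P2 → ℝ} (hV : ContDiff ℝ 1 V) :
    volume {x : P2 | V x = 0 ∧ d1 V x ≠ 0} = 0 := by
  have c1 : Continuous (d1 V) :=
    (hV.continuous_fderiv (by norm_num)).clm_apply continuous_const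
  have hm : MeasurableSet {x : P2 | V x = 0 ∧ d1 V x ≠ 0} :=
    ((isClosed_eq hV.continuous continuous_const).measurableSet).inter
      ((isOpen_ne_fun c1 continuous_const).measurableSet)
  have hW : ContDiff ℝ 1 (fun x : P2 => V (x.2, x.1)) :=
    hV.comp (contDiff_snd.prodMk contDiff_fst)
  have h := null2 hW
  have h2 : MeasurePreserving (Prod.swap : P2 → P2) volume volume :=
    Measure.measurePreserving_swap
  rw [← h2.measure_preimage hm.nullMeasurableSet]
  have e : ∀ x : P2, d2 (fun x : P2 => V (x.2, x.1)) x = d1 V (x.2, x.1) := by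
    intro x
    have h1 : HasFDerivAt (fun x : P2 => ((x.2, x.1) : P2))
        ((ContinuousLinearMap.snd ℝ ℝ ℝ).prod (ContinuousLinearMap.fst ℝ ℝ ℝ)) x :=
      hasFDerivAt_snd.prodMk hasFDerivAt_fst
    have h3 := ((hV.differentiable (by norm_num)) (x.2, x.1)).hasFDerivAt.comp x h1
    have h4 : fderiv ℝ (fun x : P2 => V (x.2, x.1)) x = _ := h3.fderiv
    rw [d2, h4]
    simp [d1]
  convert h using 2
  ext x
  simp only [Set.mem_preimage, Set.mem_ofPred_eq, e, Prod.swap]

/-- the divergence theorem for a function vanishing on the frontier, abstract direction -/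
lemma gauss {Ω : Set P2} (hΩ : IsOpen Ω) (hb : Bornology.IsBounded Ω) {V : P2 → ℝ}
    (hV : ContDiff ℝ 1 V) (h0 : ∀ x ∈ frontier Ω, V x = 0) (e : P2)
    (hnull : volume {x : P2 | V x = 0 ∧ fderiv ℝ V x e ≠ 0} = 0) :
    ∫ x in Ω, fderiv ℝ V x e = 0 := by
  have hVd : Differentiable ℝ V := hV.differentiable (by norm_num)
  have hVc : Continuous (fun x => fderiv ℝ V x e) :=
    (hV.continuous_fderiv (by norm_num)).clm_apply continuous_const
  set ep : ℕ → ℝ := fun n => 1 / ((n : ℝ) + 1) with hep
  have hep0 : ∀ n, 0 < ep n := fun n => by simp only [hep]; positivity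
  have hden : ∀ n x, V x ^ 2 + ep n ≠ 0 := fun n x => by have := hep0 n; positivity
  have hder : ∀ n x, HasFDerivAt (fun x => V x * (V x ^ 2 / (V x ^ 2 + ep n)))
      ((V x * (ep n / (V x ^ 2 + ep n) ^ 2)) • ((2 * V x) • fderiv ℝ V x)
        + (V x ^ 2 / (V x ^ 2 + ep n)) • fderiv ℝ V x) x := by
    intro n x
    have a0 : HasFDerivAt (fun x => V x ^ 2) ((2 * V x) • fderiv ℝ V x) x := by
      have := (hVd x).hasFDerivAt.pow 2
      simp only [Nat.add_one_sub_one, pow_one, nsmul_eq_mul, Nat.cast_ofNat] at this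
      exact this
    have a1 := (theta_deriv (hden n x)).comp_hasFDerivAt x a0
    have a2 := (hVd x).hasFDerivAt.fun_mul a1
    rw [smul_smul] at a2
    exact a2
  have hcd : ∀ n, ContDiff ℝ 1 (fun x => V x * (V x ^ 2 / (V x ^ 2 + ep n))) := fun n =>
    hV.mul ((hV.pow 2).div ((hV.pow 2).add contDiff_const) (hden n))
  set G : ℕ → P2 → ℝ := fun n x =>
    (V x * (ep n / (V x ^ 2 + ep n) ^ 2) * (2 * V x) + V x ^ 2 / (V x ^ 2 + ep n))
      * fderiv ℝ V x e with hG
  have hGe : ∀ n x, G n x = fderiv ℝ (fun x => V x * (V x ^ 2 / (V x ^ 2 + ep n))) x e := by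
    intro n x
    rw [(hder n x).fderiv]
    simp [hG]; ring
  have hGi : ∀ n, ∫ x in Ω, G n x = 0 := by
    intro n
    have := gauss0 hΩ hb (hcd n) (fun x hx => by
      have h1 := h0 x hx
      refine ⟨by simp [h1], ?_⟩
      rw [(hder n x).fderiv, h1]; simp) e
    simp only [hGe]
    exact this
  have hlim : Tendsto (fun n => ∫ x in Ω, G n x) atTop (𝓝 (∫ x in Ω, fderiv ℝ V x e)) := by
    refine tendsto_integral_of_dominated_convergence (fun x => 3 * |fderiv ℝ V x e|)
      (fun n => ?_) ?_ (fun n => ?_) ?_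
    · have : Continuous (G n) := by
        have e1 : G n = fun x => fderiv ℝ (fun x => V x * (V x ^ 2 / (V x ^ 2 + ep n))) x e :=
          funext (hGe n)
        rw [e1]
        exact ((hcd n).continuous_fderiv (by norm_num)).clm_apply continuous_const
      exact this.aestronglyMeasurable
    · exact ((continuous_const.mul hVc.abs).continuousOn.integrableOn_compact
        hb.isCompact_closure).mono_set subset_closure
    · refine Eventually.of_forall fun x => ?_
      simp only [hG]
      rw [norm_mul, Real.norm_eq_abs, Real.norm_eq_abs]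
      refine mul_le_mul_of_nonneg_right ?_ (abs_nonneg _)
      have hp : 0 < V x ^ 2 + ep n := by have := hep0 n; positivity
      have hpe := hep0 n
      have b1 : V x * (ep n / (V x ^ 2 + ep n) ^ 2) * (2 * V x) =
          2 * (V x ^ 2 * ep n / (V x ^ 2 + ep n) ^ 2) := by ring
      have b2 : V x ^ 2 * ep n / (V x ^ 2 + ep n) ^ 2 ≤ 1 := by
        rw [div_le_one (by positivity)]
        nlinarith [sq_nonneg (V x), mul_nonneg (sq_nonneg (V x)) hpe.le,
          sq_nonneg (V x ^ 2)]
      have b3 : V x ^ 2 / (V x ^ 2 + ep n) ≤ 1 := by rw [div_le_one hp]; linarith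
      have b4 : 0 ≤ V x ^ 2 * ep n / (V x ^ 2 + ep n) ^ 2 := by positivity
      have b5 : 0 ≤ V x ^ 2 / (V x ^ 2 + ep n) := by positivity
      rw [b1, abs_of_nonneg (by linarith)]
      linarith
    · have hae : ∀ᵐ x ∂(volume : Measure P2), ¬ (V x = 0 ∧ fderiv ℝ V x e ≠ 0) := by
        rw [ae_iff]; simpa using hnull
      filter_upwards [ae_restrict_of_ae hae] with x hx
      have hεl : Tendsto ep atTop (𝓝 0) := tendsto_one_div_add_atTop_nhds_zero_nat
      by_cases hv : V x = 0
      · have h1 : fderiv ℝ V x e = 0 := by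
          by_contra h; exact hx ⟨hv, h⟩
        simp only [hG, h1, mul_zero]
        exact tendsto_const_nhds
      · have hv2 : V x ^ 2 ≠ 0 := pow_ne_zero 2 hv
        have l1 : Tendsto (fun n => V x ^ 2 + ep n) atTop (𝓝 (V x ^ 2)) := by
          simpa using hεl.const_add (V x ^ 2)
        have l2 : Tendsto (fun n => V x ^ 2 / (V x ^ 2 + ep n)) atTop (𝓝 1) := by
          have := (tendsto_const_nhds (x := V x ^ 2)).div l1 hv2
          rwa [div_self hv2] at this
        have l3 : Tendsto (fun n => V x * (ep n / (V x ^ 2 + ep n) ^ 2) * (2 * V x)) atTop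
            (𝓝 0) := by
          have := ((hεl.div (l1.pow 2) (pow_ne_zero 2 hv2)).const_mul (V x)).mul_const (2 * V x)
          rwa [zero_div, mul_zero, zero_mul] at this
        have l4 := (l3.add l2).mul_const (fderiv ℝ V x e)
        rw [zero_add, one_mul] at l4
        exact l4
  refine (tendsto_nhds_unique hlim ?_)
  simp only [hGi]
  exact tendsto_const_nhds

lemma gauss_d1 {Ω : Set P2} (hΩ : IsOpen Ω) (hb : Bornology.IsBounded Ω) {V : P2 → ℝ}
    (hV : ContDiff ℝ 1 V) (h0 : ∀ x ∈ frontier Ω, V x = 0) : ∫ x in Ω, d1 V x = 0 :=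
  gauss hΩ hb hV h0 (1, 0) (null1 hV)

lemma gauss_d2 {Ω : Set P2} (hΩ : IsOpen Ω) (hb : Bornology.IsBounded Ω) {V : P2 → ℝ}
    (hV : ContDiff ℝ 1 V) (h0 : ∀ x ∈ frontier Ω, V x = 0) : ∫ x in Ω, d2 V x = 0 :=
  gauss hΩ hb hV h0 (0, 1) (null2 hV)

end Pool.Agent.H754R3.PR
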