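import Pool.Agent.H754R3.PR.Par
import Pool.Agent.H754R3.PR.Stamp

set_option autoImplicit false

/-!
# Boundary structure of the difference of two trajectories with the same pressure
-/

namespace Pool.Agent.H754R3.PR

open MeasureTheory Set Filter Topology

/-- boundary structure at a fixed time; `k` is the time derivative of `w` -/
theorem fixed_time {Ω : Set P2} (hΩ : IsOpen Ω) (hb : Bornology.IsBounded Ω)
    {γ : ℝ → P2} (hγ : Differentiable ℝ γ) (hγ0 : ∀ s, deriv γ s ≠ 0) (hγr : range γ = frontier Ω)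
    {ν : ℝ} (hν : 0 < ν) {w1 w2 a1 a2 k1 k2 : P2 → ℝ}
    (hk1c : Continuous k1) (hk2c : Continuous k2)
    (hbk : ∀ x ∈ frontier Ω, k1 x = 0 ∧ k2 x = 0)
    (hw1 : ContDiff ℝ 3 w1) (hw2 : ContDiff ℝ 3 w2) (ha1 : ContDiff ℝ 3 a1) (ha2 : ContDiff ℝ 3 a2)
    (hdw : ∀ x ∈ Ω, d1 w1 x + d2 w2 x = 0) (hda : ∀ x ∈ Ω, d1 a1 x + d2 a2 x = 0)
    (hbw : ∀ x ∈ frontier Ω, w1 x = 0 ∧ w2 x = 0) (hba : ∀ x ∈ frontier Ω, a1 x = 0 ∧ a2 x = 0)
    (hm1 : ∀ x ∈ Ω, ν * (d1 (d1 w1) x + d2 (d2 w1) x) =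
      k1 x + (a1 x * d1 w1 x + a2 x * d2 w1 x + w1 x * d1 a1 x + w2 x * d2 a1 x))
    (hm2 : ∀ x ∈ Ω, ν * (d1 (d1 w2) x + d2 (d2 w2) x) =
      k2 x + (a1 x * d1 w2 x + a2 x * d2 w2 x + w1 x * d1 a2 x + w2 x * d2 a2 x)) :
    (∀ x ∈ frontier Ω, d1 w2 x - d2 w1 x = d1 w2 (γ 0) - d2 w1 (γ 0)) ∧
    (2 * ν * (d1 w2 (γ 0) - d2 w1 (γ 0)) * volume.real Ω =
      ∫ x in Ω, (x.1 * k2 x - x.2 * k1 x)) ∧
    (∀ x ∈ frontier Ω, d1 w1 x + d2 w2 x = 0) ∧
    (d1 w2 (γ 0) - d2 w1 (γ 0) = 0 → ∀ x ∈ frontier Ω,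
      (d1 w1 x = 0 ∧ d2 w1 x = 0) ∧ (d1 w2 x = 0 ∧ d2 w2 x = 0)) := by
  -- regularity
  have hw1' : ContDiff ℝ 2 w1 := hw1.of_le (by norm_num)
  have hw2' : ContDiff ℝ 2 w2 := hw2.of_le (by norm_num)
  have r1 : ContDiff ℝ 2 (d1 w1) := d1_contDiff (m := 2) (n := 3) hw1 (by norm_num)
  have r2 : ContDiff ℝ 2 (d2 w1) := d2_contDiff (m := 2) (n := 3) hw1 (by norm_num)
  have r3 : ContDiff ℝ 2 (d1 w2) := d1_contDiff (m := 2) (n := 3) hw2 (by norm_num)
  have r4 : ContDiff ℝ 2 (d2 w2) := d2_contDiff (m := 2) (n := 3) hw2 (by norm_num)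
  have q1 : ContDiff ℝ 2 (d1 a1) := d1_contDiff (m := 2) (n := 3) ha1 (by norm_num)
  have q2 : ContDiff ℝ 2 (d2 a1) := d2_contDiff (m := 2) (n := 3) ha1 (by norm_num)
  have q3 : ContDiff ℝ 2 (d1 a2) := d1_contDiff (m := 2) (n := 3) ha2 (by norm_num)
  have q4 : ContDiff ℝ 2 (d2 a2) := d2_contDiff (m := 2) (n := 3) ha2 (by norm_num)
  have cdd : ∀ {F : P2 → ℝ}, ContDiff ℝ 2 F → Continuous (d1 F) ∧ Continuous (d2 F) := fun hF =>
    ⟨(d1_contDiff (m := 1) (n := 2) hF (by norm_num)).continuous,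
      (d2_contDiff (m := 1) (n := 2) hF (by norm_num)).continuous⟩
  have dd : ∀ {F : P2 → ℝ}, ContDiff ℝ 2 F → Differentiable ℝ F := fun hF =>
    hF.differentiable (by norm_num)
  have dw1 := dd hw1'
  have dw2 := dd hw2'
  have dr1 := dd r1
  have dr2 := dd r2
  have dr3 := dd r3
  have dr4 := dd r4
  have da1 := dd (ha1.of_le (by norm_num))
  have da2 := dd (ha2.of_le (by norm_num))
  -- derivatives of the divergence
  have hdd1 : ∀ x ∈ Ω, d1 (d1 w1) x + d1 (d2 w2) x = 0 := by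
    intro x hx
    rw [← d1_add dr1 dr4]
    have : (fun y => d1 w1 y + d2 w2 y) =ᶠ[𝓝 x] fun _ => 0 := by
      filter_upwards [hΩ.mem_nhds hx] with y hy using hdw y hy
    rw [d1, this.fderiv_eq, fderiv_fun_const]; simp
  have hdd2 : ∀ x ∈ Ω, d2 (d1 w1) x + d2 (d2 w2) x = 0 := by
    intro x hx
    rw [← d2_add dr1 dr4]
    have : (fun y => d1 w1 y + d2 w2 y) =ᶠ[𝓝 x] fun _ => 0 := by
      filter_upwards [hΩ.mem_nhds hx] with y hy using hdw y hy
    rw [d2, this.fderiv_eq, fderiv_fun_const]; simp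
  -- vorticity
  obtain ⟨om, hom⟩ : ∃ om : P2 → ℝ, om = fun x => d1 w2 x - d2 w1 x := ⟨_, rfl⟩
  have hom2 : ContDiff ℝ 2 om := by rw [hom]; exact r3.sub r2
  have dom := dd hom2
  have ho1 : ∀ x, d1 om x = d1 (d1 w2) x - d1 (d2 w1) x := fun x => by
    rw [hom]; exact d1_sub dr3 dr2 x
  have ho2 : ∀ x, d2 om x = d2 (d1 w2) x - d2 (d2 w1) x := fun x => by
    rw [hom]; exact d2_sub dr3 dr2 x
  have hL1 : ∀ x ∈ Ω, d1 (d1 w1) x + d2 (d2 w1) x = - d2 om x := by
    intro x hx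
    rw [ho2, ← d_comm hw2' x]
    have := hdd1 x hx
    linarith
  have hL2 : ∀ x ∈ Ω, d1 (d1 w2) x + d2 (d2 w2) x = d1 om x := by
    intro x hx
    rw [ho1, d_comm hw1' x]
    have := hdd2 x hx
    linarith
  -- frontier identities
  have f1 : ∀ x ∈ frontier Ω, d2 om x = 0 := by
    intro x hx
    have h1 := zero_on_frontier (Ω := Ω) (F := fun x => ν * d2 om x + k1 x +
      (a1 x * d1 w1 x + a2 x * d2 w1 x + w1 x * d1 a1 x + w2 x * d2 a1 x)) (by
        have := (cdd hom2).2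
        have := r1.continuous; have := r2.continuous; have := q1.continuous
        have := q2.continuous; have := ha1.continuous; have := ha2.continuous
        have := hw1.continuous; have := hw2.continuous
        fun_prop) (by
        intro y hy
        have e1 := hm1 y hy
        rw [hL1 y hy] at e1
        linarith) x hx
    simp only [(hbw x hx).1, (hbw x hx).2, (hba x hx).1, (hba x hx).2, (hbk x hx).1, (hbk x hx).2] at h1
    have : ν * d2 om x = 0 := by linarith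
    exact (mul_eq_zero.1 this).resolve_left hν.ne'
  have f2 : ∀ x ∈ frontier Ω, d1 om x = 0 := by
    intro x hx
    have h1 := zero_on_frontier (Ω := Ω) (F := fun x => ν * d1 om x - k2 x -
      (a1 x * d1 w2 x + a2 x * d2 w2 x + w1 x * d1 a2 x + w2 x * d2 a2 x)) (by
        have := (cdd hom2).1
        have := r3.continuous; have := r4.continuous; have := q3.continuous
        have := q4.continuous; have := ha1.continuous; have := ha2.continuous
        have := hw1.continuous; have := hw2.continuous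
        fun_prop) (by
        intro y hy
        have e1 := hm2 y hy
        rw [hL2 y hy] at e1
        linarith) x hx
    simp only [(hbw x hx).1, (hbw x hx).2, (hba x hx).1, (hba x hx).2, (hbk x hx).1, (hbk x hx).2] at h1
    have : ν * d1 om x = 0 := by linarith
    exact (mul_eq_zero.1 this).resolve_left hν.ne'
  have hmem : ∀ s, γ s ∈ frontier Ω := fun s => by rw [← hγr]; exact mem_range_self s
  have hconst : ∀ s, om (γ s) = om (γ 0) := by
    intro s
    have hd : ∀ s, HasDerivAt (fun s => om (γ s)) 0 s := by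
      intro s
      have h1 := (dom (γ s)).hasFDerivAt.comp_hasDerivAt s (hγ s).hasDerivAt
      rw [fderiv_zero_of_d (f2 _ (hmem s)) (f1 _ (hmem s))] at h1
      exact h1
    exact is_const_of_deriv_eq_zero (fun s => (hd s).differentiableAt) (fun s => (hd s).deriv) s 0
  set c : ℝ := om (γ 0) with hc
  have hcf : ∀ x ∈ frontier Ω, om x = c := by
    intro x hx
    rw [← hγr] at hx
    obtain ⟨s, rfl⟩ := hx
    exact hconst s
  -- the moment identity
  have hmom : 2 * ν * c * volume.real Ω = ∫ x in Ω, (x.1 * k2 x - x.2 * k1 x) := by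
    have hT : ContDiff ℝ 1 (fun x : P2 => x.1) := contDiff_fst
    have hT2 : ContDiff ℝ 1 (fun x : P2 => x.2) := contDiff_snd
    have kk1 : ContDiff ℝ 1 w1 := hw1.of_le (by norm_num)
    have kk2 : ContDiff ℝ 1 w2 := hw2.of_le (by norm_num)
    have kk3 : ContDiff ℝ 1 a1 := ha1.of_le (by norm_num)
    have kk4 : ContDiff ℝ 1 a2 := ha2.of_le (by norm_num)
    have kk5 : ContDiff ℝ 1 om := hom2.of_le (by norm_num)
    obtain ⟨Y1, hY1⟩ : ∃ Y1 : P2 → ℝ, Y1 = fun x => ((om x - c) * x.1 - 2 * w2 x) - ν⁻¹ *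
      ((a1 x * w2 x + w1 x * a2 x) * x.1 - (2 * (a1 x * w1 x)) * x.2) := ⟨_, rfl⟩
    obtain ⟨Y2, hY2⟩ : ∃ Y2 : P2 → ℝ, Y2 = fun x => ((om x - c) * x.2 + 2 * w1 x) - ν⁻¹ *
      ((2 * (a2 x * w2 x)) * x.1 - (a1 x * w2 x + w1 x * a2 x) * x.2) := ⟨_, rfl⟩
    have cY1 : ContDiff ℝ 1 Y1 := by rw [hY1]; fun_prop
    have cY2 : ContDiff ℝ 1 Y2 := by rw [hY2]; fun_prop
    have zY1 : ∀ x ∈ frontier Ω, Y1 x = 0 := by
      intro x hx
      rw [hY1]
      simp [hcf x hx, (hbw x hx).1, (hbw x hx).2, (hba x hx).1, (hba x hx).2]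
    have zY2 : ∀ x ∈ frontier Ω, Y2 x = 0 := by
      intro x hx
      rw [hY2]
      simp [hcf x hx, (hbw x hx).1, (hbw x hx).2, (hba x hx).1, (hba x hx).2]
    have hpt : ∀ x ∈ Ω, d1 Y1 x + d2 Y2 x = -2 * c + ν⁻¹ * (x.1 * k2 x - x.2 * k1 x) := by
        intro x hx
        rw [hY1, hY2]
        have dX : Differentiable ℝ (fun x : P2 => x.1) := differentiable_fst
        have dX2 : Differentiable ℝ (fun x : P2 => x.2) := differentiable_snd
        have dc : Differentiable ℝ (fun _ : P2 => c) := differentiable_const c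
        have m1 : Differentiable ℝ (fun x => a1 x * w2 x) := da1.mul dw2
        have m2 : Differentiable ℝ (fun x => w1 x * a2 x) := dw1.mul da2
        have m3 : Differentiable ℝ (fun x => a1 x * w1 x) := da1.mul dw1
        have m4 : Differentiable ℝ (fun x => a2 x * w2 x) := da2.mul dw2
        have m5 : Differentiable ℝ (fun x => a1 x * w2 x + w1 x * a2 x) := m1.add m2
        have m6 : Differentiable ℝ (fun x => om x - c) := dom.sub dc
        have m7 : Differentiable ℝ (fun x => 2 * (a1 x * w1 x)) := m3.const_mul 2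
        have m8 : Differentiable ℝ (fun x => 2 * (a2 x * w2 x)) := m4.const_mul 2
        have e1 : d1 (fun x : P2 => ((om x - c) * x.1 - 2 * w2 x) - ν⁻¹ *
            ((a1 x * w2 x + w1 x * a2 x) * x.1 - (2 * (a1 x * w1 x)) * x.2)) x =
            (om x - c) + d1 om x * x.1 - 2 * d1 w2 x - ν⁻¹ *
            ((a1 x * w2 x + w1 x * a2 x) + (a1 x * d1 w2 x + d1 a1 x * w2 x + (w1 x * d1 a2 x +
              d1 w1 x * a2 x)) * x.1 - 2 * (a1 x * d1 w1 x + d1 a1 x * w1 x) * x.2) := by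
          rw [d1_sub (by fun_prop) (by fun_prop), d1_sub (by fun_prop) (by fun_prop),
            d1_mul m6 dX, d1_sub dom dc, d1_const, d1_fst, d1_cmul dw2,
            d1_cmul (by fun_prop), d1_sub (by fun_prop) (by fun_prop), d1_mul m5 dX,
            d1_add m1 m2, d1_mul da1 dw2, d1_mul dw1 da2, d1_fst, d1_mul m7 dX2, d1_snd,
            d1_cmul m3, d1_mul da1 dw1]
          ring
        have e2 : d2 (fun x : P2 => ((om x - c) * x.2 + 2 * w1 x) - ν⁻¹ *
            ((2 * (a2 x * w2 x)) * x.1 - (a1 x * w2 x + w1 x * a2 x) * x.2)) x =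
            (om x - c) + d2 om x * x.2 + 2 * d2 w1 x - ν⁻¹ *
            (2 * (a2 x * d2 w2 x + d2 a2 x * w2 x) * x.1 - ((a1 x * w2 x + w1 x * a2 x) +
              (a1 x * d2 w2 x + d2 a1 x * w2 x + (w1 x * d2 a2 x + d2 w1 x * a2 x)) * x.2)) := by
          rw [d2_sub (by fun_prop) (by fun_prop), d2_add (by fun_prop) (by fun_prop),
            d2_mul m6 dX2, d2_sub dom dc, d2_const, d2_snd, d2_cmul dw1,
            d2_cmul (by fun_prop), d2_sub (by fun_prop) (by fun_prop), d2_mul m8 dX, d2_fst,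
            d2_cmul m4, d2_mul da2 dw2, d2_mul m5 dX2, d2_snd, d2_add m1 m2, d2_mul da1 dw2,
            d2_mul dw1 da2]
          ring
        rw [e1, e2]
        have g1 := hm1 x hx
        have g2 := hm2 x hx
        rw [hL1 x hx] at g1
        rw [hL2 x hx] at g2
        have g3 := hdw x hx
        have g4 := hda x hx
        have s1 : d2 w2 x = - d1 w1 x := by linarith
        have s2 : d2 a2 x = - d1 a1 x := by linarith
        have hνν : ν⁻¹ * ν = 1 := inv_mul_cancel₀ hν.ne'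
        have g1' : d2 om x = - (ν⁻¹ * (k1 x + (a1 x * d1 w1 x + a2 x * d2 w1 x + w1 x * d1 a1 x
            + w2 x * d2 a1 x))) := by
          rw [← g1, ← mul_assoc, hνν]; ring
        have g2' : d1 om x = ν⁻¹ * (k2 x + (a1 x * d1 w2 x + a2 x * d2 w2 x + w1 x * d1 a2 x
            + w2 x * d2 a2 x)) := by
          rw [← g2, ← mul_assoc, hνν]; ring
        rw [g1', g2', s1, s2]
        simp only [hom]
        ring
    have i1 := gauss_d1 hΩ hb cY1 zY1
    have i2 := gauss_d2 hΩ hb cY2 zY2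
    have iO : ∀ {H : P2 → ℝ}, Continuous H → IntegrableOn H Ω := fun hH =>
      (hH.continuousOn.integrableOn_compact hb.isCompact_closure).mono_set subset_closure
    have c1 : Continuous (d1 Y1) :=
      (cY1.continuous_fderiv (by norm_num)).clm_apply continuous_const
    have c2 : Continuous (d2 Y2) :=
      (cY2.continuous_fderiv (by norm_num)).clm_apply continuous_const
    have i3 := integral_add (iO c1) (iO c2)
    rw [i1, i2, add_zero] at i3
    have i4 : ∫ x in Ω, (d1 Y1 x + d2 Y2 x) =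
        ∫ x in Ω, (-2 * c + ν⁻¹ * (x.1 * k2 x - x.2 * k1 x)) :=
      setIntegral_congr_fun hΩ.measurableSet (fun x hx => hpt x hx)
    have c3 : Continuous (fun x : P2 => x.1 * k2 x - x.2 * k1 x) := by fun_prop
    have i5 : ∫ x in Ω, (-2 * c + ν⁻¹ * (x.1 * k2 x - x.2 * k1 x)) =
        (∫ x in Ω, (-2 * c : ℝ)) + ∫ x in Ω, ν⁻¹ * (x.1 * k2 x - x.2 * k1 x) :=
      integral_add (iO (continuous_const (y := (-2 * c : ℝ)))) (iO (continuous_const.mul c3))
    rw [setIntegral_const, integral_const_mul, smul_eq_mul] at i5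
    have i6 : volume.real Ω * (-2 * c) + ν⁻¹ * ∫ x in Ω, (x.1 * k2 x - x.2 * k1 x) = 0 := by
      rw [← i5, ← i4, i3]
    have i7 : ν * (volume.real Ω * (-2 * c) + ν⁻¹ * ∫ x in Ω, (x.1 * k2 x - x.2 * k1 x)) = 0 := by
      rw [i6, mul_zero]
    rw [mul_add, ← mul_assoc ν ν⁻¹, mul_inv_cancel₀ hν.ne', one_mul] at i7
    linarith
  have hom0 : om = fun x => d1 w2 x - d2 w1 x := hom
  have hcv : c = d1 w2 (γ 0) - d2 w1 (γ 0) := by rw [hc, hom0]
  rw [← hcv]
  refine ⟨fun x hx => by have := hcf x hx; rw [hom0] at this; exact this, hmom, ?_, ?_⟩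
  · exact zero_on_frontier (Ω := Ω) (F := fun x => d1 w1 x + d2 w2 x)
      (r1.continuous.add r4.continuous) hdw
  intro hc0
  -- the gradient vanishes on the frontier
  have hgr : ∀ x ∈ frontier Ω, (d1 w1 x = 0 ∧ d2 w1 x = 0) ∧ (d1 w2 x = 0 ∧ d2 w2 x = 0) := by
    intro x hx
    have g0 := hcf x hx
    rw [hc0] at g0
    simp only [hom] at g0
    have g1 := zero_on_frontier (Ω := Ω) (F := fun x => d1 w1 x + d2 w2 x)
      (r1.continuous.add r4.continuous) hdw x hx
    rw [← hγr] at hx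
    obtain ⟨s, rfl⟩ := hx
    have t1 : ∀ F : P2 → ℝ, Differentiable ℝ F → (∀ x ∈ frontier Ω, F x = 0) →
        (deriv γ s).1 * d1 F (γ s) + (deriv γ s).2 * d2 F (γ s) = 0 := by
      intro F hF h0
      have h1 := (hF (γ s)).hasFDerivAt.comp_hasDerivAt s (hγ s).hasDerivAt
      have h2 : (F ∘ γ) = fun _ => 0 := funext fun s => h0 _ (hmem s)
      rw [h2] at h1
      have h3 := h1.unique (hasDerivAt_const s (0 : ℝ))
      rw [fderiv_eq_of_d] at h3
      exact h3
    have u1 := t1 w1 dw1 (fun x hx => (hbw x hx).1)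
    have u2 := t1 w2 dw2 (fun x hx => (hbw x hx).2)
    have hp : 0 < (deriv γ s).1 ^ 2 + (deriv γ s).2 ^ 2 := by
      by_contra h
      push Not at h
      apply hγ0 s
      have z1 : (deriv γ s).1 = 0 := by nlinarith [sq_nonneg (deriv γ s).1, sq_nonneg (deriv γ s).2]
      have z2 : (deriv γ s).2 = 0 := by nlinarith [sq_nonneg (deriv γ s).1, sq_nonneg (deriv γ s).2]
      exact Prod.ext z1 z2
    set t := (deriv γ s).1
    set t' := (deriv γ s).2
    have v1 : d2 w2 (γ s) = - d1 w1 (γ s) := by linarith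
    have v2 : d1 w2 (γ s) = d2 w1 (γ s) := by linarith
    rw [v1, v2] at u2
    have p1 : (t ^ 2 + t' ^ 2) * d1 w1 (γ s) = 0 := by linear_combination t * u1 - t' * u2
    have p2 : (t ^ 2 + t' ^ 2) * d2 w1 (γ s) = 0 := by linear_combination t' * u1 + t * u2
    have p3 := (mul_eq_zero.1 p1).resolve_left hp.ne'
    have p4 := (mul_eq_zero.1 p2).resolve_left hp.ne'
    refine ⟨⟨p3, p4⟩, ⟨by rw [v2, p4], by rw [v1, p3]; simp⟩⟩
  exact hgr

end Pool.Agent.H754R3.PR
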