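import Mathlib

set_option autoImplicit false

/-!
# A divergence theorem without regularity of the domain

For fields vanishing (with first derivatives) on the frontier of a bounded open set of the plane.
-/

namespace Pool.Agent.H754R3.PR

open MeasureTheory Set Filter Topology

/-- the plane -/
abbrev P2 : Type := ℝ × ℝ

/-- partial derivative in the direction `(1,0)` -/
noncomputable def d1 (f : P2 → ℝ) (x : P2) : ℝ := fderiv ℝ f x (1, 0)
/-- partial derivative in the direction `(0,1)` -/
noncomputable def d2 (f : P2 → ℝ) (x : P2) : ℝ := fderiv ℝ f x (0, 1)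

lemma ind_hasFDerivAt {Ω : Set P2} (hΩ : IsOpen Ω) {V : P2 → ℝ} (hV : ContDiff ℝ 1 V)
    (h0 : ∀ x ∈ frontier Ω, V x = 0 ∧ fderiv ℝ V x = 0) (x : P2) :
    HasFDerivAt (Ω.indicator V) (Ω.indicator (fderiv ℝ V) x) x := by
  have hVd : Differentiable ℝ V := hV.differentiable (by norm_num)
  by_cases hx : x ∈ Ω
  · rw [indicator_of_mem hx]
    refine (hVd x).hasFDerivAt.congr_of_eventuallyEq ?_
    filter_upwards [hΩ.mem_nhds hx] with y hy
    rw [indicator_of_mem hy]
  · rw [indicator_of_notMem hx]
    by_cases hxf : x ∈ frontier Ω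
    · obtain ⟨h1, h2⟩ := h0 x hxf
      have h3 : HasFDerivAt V (0 : P2 →L[ℝ] ℝ) x := by
        have := (hVd x).hasFDerivAt
        rwa [h2] at this
      rw [hasFDerivAt_iff_isLittleO] at h3 ⊢
      refine (Asymptotics.IsBigO.of_bound 1 (Eventually.of_forall fun y => ?_)).trans_isLittleO h3
      rw [indicator_of_notMem hx]
      simp only [ContinuousLinearMap.zero_apply, sub_zero, h1, one_mul]
      by_cases hy : y ∈ Ω
      · rw [indicator_of_mem hy]
      · rw [indicator_of_notMem hy]; simp
    · have hxc : x ∈ (closure Ω)ᶜ := by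
        intro hc
        exact hxf ⟨hc, by rwa [hΩ.interior_eq]⟩
      refine (hasFDerivAt_const (0 : ℝ) x).congr_of_eventuallyEq ?_
      filter_upwards [isClosed_closure.isOpen_compl.mem_nhds hxc] with y hy
      rw [indicator_of_notMem (fun h => hy (subset_closure h))]

lemma gauss0 {Ω : Set P2} (hΩ : IsOpen Ω) (hb : Bornology.IsBounded Ω) {V : P2 → ℝ}
    (hV : ContDiff ℝ 1 V) (h0 : ∀ x ∈ frontier Ω, V x = 0 ∧ fderiv ℝ V x = 0) (e : P2) :
    ∫ x in Ω, fderiv ℝ V x e = 0 := by
  set Z := Ω.indicator V with hZ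
  have hd : ∀ x, HasFDerivAt Z (Ω.indicator (fderiv ℝ V) x) x := ind_hasFDerivAt hΩ hV h0
  have hZd : Differentiable ℝ Z := fun x => (hd x).differentiableAt
  have hfd : ∀ x, fderiv ℝ Z x = Ω.indicator (fderiv ℝ V) x := fun x => (hd x).fderiv
  have hcont : Continuous (fderiv ℝ Z) := by
    have : fderiv ℝ Z = Ω.indicator (fderiv ℝ V) := funext hfd
    rw [this]
    exact continuous_indicator (fun a ha => (h0 a ha).2)
      (hV.continuous_fderiv (by norm_num)).continuousOn
  have hcs : HasCompactSupport Z := by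
    refine HasCompactSupport.intro (hb.isCompact_closure) (fun x hx => ?_)
    exact indicator_of_notMem (fun h => hx (subset_closure h)) _
  have hc2 : Continuous (fun x => fderiv ℝ Z x e) := hcont.clm_apply continuous_const
  have hcs2 : HasCompactSupport (fun x => fderiv ℝ Z x e) :=
    (hcs.fderiv (𝕜 := ℝ)).comp_left (g := fun L : P2 →L[ℝ] ℝ => L e) (by simp)
  have hmain := integral_mul_fderiv_eq_neg_fderiv_mul_of_integrable (μ := (volume : Measure P2))
    (f := fun _ : P2 => (1 : ℝ)) (g := Z) (v := e)
    (by simp) (by simpa using hc2.integrable_of_hasCompactSupport hcs2)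
    (by simpa using hZd.continuous.integrable_of_hasCompactSupport hcs)
    (fun x _ => differentiableAt_const _) (fun x _ => hZd x)
  have h1 : ∫ x, fderiv ℝ Z x e = 0 := by simpa using hmain
  rw [← h1, ← integral_indicator hΩ.measurableSet]
  refine integral_congr_ae (Eventually.of_forall fun x => ?_)
  simp only
  rw [hfd x]
  by_cases hx : x ∈ Ω
  · rw [indicator_of_mem hx, indicator_of_mem hx]
  · rw [indicator_of_notMem hx, indicator_of_notMem hx]; rfl

end Pool.Agent.H754R3.PR
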