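import Pool.Agent.H754R3.PR.Time

set_option autoImplicit false

/-!
# Parabolic unique continuation for bounded complete trajectories
-/

namespace Pool.Agent.H754R3.PR

open MeasureTheory Set Filter Topology

/-- time flux, first component -/
noncomputable def U1 (τ b : ℝ) (f k : P2 → ℝ) (x : P2) : ℝ := Ew τ b x * (k x * hh τ b f x)
/-- time flux, second component -/
noncomputable def U2 (τ b : ℝ) (f k : P2 → ℝ) (x : P2) : ℝ := Ew τ b x * (k x * d2 f x)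

lemma U1_contDiff (τ b : ℝ) {f k : P2 → ℝ} (hf : ContDiff ℝ 2 f) (hk : ContDiff ℝ 2 k) :
    ContDiff ℝ 1 (U1 τ b f k) := by
  unfold U1
  exact (Ew_contDiff τ b (n := 1)).mul ((hk.of_le (by norm_num)).mul (hh_contDiff τ b hf))

lemma U2_contDiff (τ b : ℝ) {f k : P2 → ℝ} (hf : ContDiff ℝ 2 f) (hk : ContDiff ℝ 2 k) :
    ContDiff ℝ 1 (U2 τ b f k) := by
  unfold U2
  exact (Ew_contDiff τ b (n := 1)).mul ((hk.of_le (by norm_num)).mul
    (d2_contDiff (m := 1) (n := 2) hf (by norm_num)))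

section

variable {f k : P2 → ℝ} (hf : ContDiff ℝ 2 f) (hk : ContDiff ℝ 2 k) (τ b : ℝ) (x : P2)

include hf hk in
lemma U1_hasFDerivAt : ∃ L : P2 →L[ℝ] ℝ, HasFDerivAt (U1 τ b f k) L x ∧ (∀ e, L e =
    (2 * τ * (x.1 + b) * Ew τ b x * e.1) * (k x * hh τ b f x)
    + Ew τ b x * (fderiv ℝ k x e * hh τ b f x + k x * fderiv ℝ (hh τ b f) x e)) := by
  have h1 : HasFDerivAt (hh τ b f) (fderiv ℝ (hh τ b f) x) x :=
    ((hh_contDiff τ b hf).differentiable (by norm_num) x).hasFDerivAt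
  have h3 : HasFDerivAt k (fderiv ℝ k x) x :=
    (hk.differentiable (by norm_num) x).hasFDerivAt
  have h4 := Ew_hasFDerivAt τ b x
  have hm := h4.fun_mul (h3.fun_mul h1)
  refine ⟨_, hm, fun e => ?_⟩
  simp
  ring

include hf hk in
lemma U2_hasFDerivAt : ∃ L : P2 →L[ℝ] ℝ, HasFDerivAt (U2 τ b f k) L x ∧ (∀ e, L e =
    (2 * τ * (x.1 + b) * Ew τ b x * e.1) * (k x * d2 f x)
    + Ew τ b x * (fderiv ℝ k x e * d2 f x + k x * fderiv ℝ (d2 f) x e)) := by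
  have h2 : HasFDerivAt (d2 f) (fderiv ℝ (d2 f) x) x :=
    (((d2_contDiff (m := 1) (n := 2) hf (by norm_num))).differentiable (by norm_num) x).hasFDerivAt
  have h3 : HasFDerivAt k (fderiv ℝ k x) x :=
    (hk.differentiable (by norm_num) x).hasFDerivAt
  have h4 := Ew_hasFDerivAt τ b x
  have hm := h4.fun_mul (h3.fun_mul h2)
  refine ⟨_, hm, fun e => ?_⟩
  simp
  ring

include hf hk in
/-- the pointwise parabolic Carleman identity -/
lemma carleman_par_pt (ν : ℝ) :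
    Ew τ b x * (k x - ν * (d1 (d1 f) x + d2 (d2 f) x)) ^ 2 =
      Ew τ b x * ((k x + ν * (2 * τ * (x.1 + b) * hh τ b f x + τ * f x)) ^ 2
        + ν ^ 2 * ((d1 (d1 f) x + d2 (d2 f) x + 2 * τ * (x.1 + b) * d1 f x + 2 * τ * f x
          + 2 * τ ^ 2 * (x.1 + b) ^ 2 * f x) ^ 2
        + 0 ^ 2
        + 4 * τ * hh τ b f x ^ 2 + 2 * τ * (hh τ b f x ^ 2 + d2 f x ^ 2)
        + 2 * τ ^ 3 * (x.1 + b) ^ 2 * f x ^ 2 - τ ^ 2 * f x ^ 2))
      + (ν ^ 2 * (d1 (V1 τ b f) x + d2 (V2 τ b f) x)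
        - 2 * ν * (d1 (U1 τ b f k) x + d2 (U2 τ b f k) x))
      + 2 * ν * (Ew τ b x * (hh τ b f x * hh τ b k x + d2 f x * d2 k x
        - τ ^ 2 * (x.1 + b) ^ 2 * f x * k x)) := by
  obtain ⟨L1, hL1, hL1e⟩ := U1_hasFDerivAt hf hk τ b x
  obtain ⟨L2, hL2, hL2e⟩ := U2_hasFDerivAt hf hk τ b x
  have hc := carleman_pt hf τ b x
  have e1 : d1 (U1 τ b f k) x = L1 (1, 0) := by rw [d1, hL1.fderiv]
  have e2 : d2 (U2 τ b f k) x = L2 (0, 1) := by rw [d2, hL2.fderiv]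
  have e3 : fderiv ℝ (hh τ b f) x (1, 0) = d1 (d1 f) x + τ * ((x.1 + b) * d1 f x + f x) := by
    rw [(hh_hasFDerivAt hf τ b x).fderiv]
    simp [d1]
    ring
  have e6 : fderiv ℝ (d2 f) x (0, 1) = d2 (d2 f) x := rfl
  have e7 : fderiv ℝ k x (1, 0) = d1 k x := rfl
  have e8 : fderiv ℝ k x (0, 1) = d2 k x := rfl
  rw [e1, e2, hL1e, hL2e, e3, e6, e7, e8]
  have hc' : d1 (V1 τ b f) x + d2 (V2 τ b f) x = Ew τ b x * (d1 (d1 f) x + d2 (d2 f) x) ^ 2 -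
      Ew τ b x * ((d1 (d1 f) x + d2 (d2 f) x + 2 * τ * (x.1 + b) * d1 f x + 2 * τ * f x
          + 2 * τ ^ 2 * (x.1 + b) ^ 2 * f x) ^ 2
        + (2 * τ * (x.1 + b) * hh τ b f x + τ * f x) ^ 2
        + 4 * τ * hh τ b f x ^ 2 + 2 * τ * (hh τ b f x ^ 2 + d2 f x ^ 2)
        + 2 * τ ^ 3 * (x.1 + b) ^ 2 * f x ^ 2 - τ ^ 2 * f x ^ 2) := by linarith
  rw [hc']
  simp only [hh]
  ring

end

lemma U_zero {f k : P2 → ℝ} (hf : ContDiff ℝ 2 f) (hk : ContDiff ℝ 2 k) (τ b : ℝ) (x : P2)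
    (h0 : f x = 0) (h1 : fderiv ℝ f x = 0) (hk0 : k x = 0) :
    (U1 τ b f k x = 0 ∧ fderiv ℝ (U1 τ b f k) x = 0) ∧
      (U2 τ b f k x = 0 ∧ fderiv ℝ (U2 τ b f k) x = 0) := by
  obtain ⟨L1, hL1, hL1e⟩ := U1_hasFDerivAt hf hk τ b x
  obtain ⟨L2, hL2, hL2e⟩ := U2_hasFDerivAt hf hk τ b x
  obtain ⟨z1, z2⟩ := d_zero_of h1
  have z3 : hh τ b f x = 0 := by simp [hh, z1, h0]
  refine ⟨⟨by simp [U1, z3], ?_⟩, ⟨by simp [U2, z2], ?_⟩⟩
  · rw [hL1.fderiv]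
    refine ContinuousLinearMap.ext fun e => ?_
    simp [hL1e, z3, hk0]
  · rw [hL2.fderiv]
    refine ContinuousLinearMap.ext fun e => ?_
    simp [hL2e, z2, hk0]

lemma zero_of_int {Ω : Set P2} (hΩ : IsOpen Ω) (hb : Bornology.IsBounded Ω) {H : P2 → ℝ}
    (hc : Continuous H) (hn : ∀ x, 0 ≤ H x) (hi : ∫ x in Ω, H x ≤ 0) : ∀ x ∈ Ω, H x = 0 := by
  have hz : ∫ x in Ω, H x = 0 :=
    le_antisymm hi (setIntegral_nonneg hΩ.measurableSet (fun x _ => hn x))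
  rw [setIntegral_eq_zero_iff_of_nonneg_ae (Eventually.of_forall hn)
    (hc.continuousOn.integrableOn_compact hb.isCompact_closure
      |>.mono_set subset_closure)] at hz
  have hopen : IsOpen (Ω ∩ {x | H x ≠ 0}) := hΩ.inter (isOpen_ne_fun hc continuous_const)
  have hvol : volume (Ω ∩ {x | H x ≠ 0}) = 0 := by
    have h1 := (ae_restrict_iff' hΩ.measurableSet).1 hz
    rw [ae_iff] at h1
    refine measure_mono_null (fun x hx => ?_) h1
    simp only [Set.mem_ofPred_eq, Classical.not_imp]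
    exact ⟨hx.1, hx.2⟩
  have hemp := (hopen.measure_eq_zero_iff volume).1 hvol
  intro x hx
  by_contra h
  have : x ∈ Ω ∩ {x | H x ≠ 0} := ⟨hx, h⟩
  rw [hemp] at this
  exact this

/-- real-number part of the pointwise inequality -/
lemma par_real {τ M N R X F h d A C E ν P DV q lhs : ℝ} (hM : 0 ≤ M) (hν : 0 < ν)
    (hN : N = (M + 1) / ν ^ 2) (hX : 1 ≤ X) (hXR : X ≤ R) (hE : 0 < E)
    (hτ : τ = 1 + 2 * N + 4 * N * R ^ 2)
    (hid : E * lhs = E * (C ^ 2 + ν ^ 2 * (A ^ 2 + 0 ^ 2 + 4 * τ * h ^ 2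
      + 2 * τ * (h ^ 2 + d ^ 2) + 2 * τ ^ 3 * X ^ 2 * F ^ 2 - τ ^ 2 * F ^ 2)) + DV + q)
    (hP : P = F ^ 2 + (h - τ * (X * F)) ^ 2 + d ^ 2) :
    E * (F ^ 2 + h ^ 2 + d ^ 2) ≤ E * lhs - E * (M * P) - DV - q := by
  have hν2 : 0 < ν ^ 2 := by positivity
  have hN0 : 0 ≤ N := by rw [hN]; positivity
  have hNM : ν ^ 2 * N = M + 1 := by rw [hN]; field_simp
  have h1 := lb_real (A := A) (B := 0) (F := F) (h := h) (d := d) (R := R) hN0 hX hτ
  have h2 := bd_real (τ := τ) (M := M) (R := R) (X := X) (F := F) (h := h) (d := d) hM hX hXR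
  set W := F ^ 2 * (1 + 2 * τ ^ 2 * R ^ 2) + 2 * h ^ 2 + d ^ 2 with hW
  set S := A ^ 2 + 0 ^ 2 + 4 * τ * h ^ 2
      + 2 * τ * (h ^ 2 + d ^ 2) + 2 * τ ^ 3 * X ^ 2 * F ^ 2 - τ ^ 2 * F ^ 2 with hS
  have h3 : ν ^ 2 * (F ^ 2 + N * W) ≤ ν ^ 2 * S := mul_le_mul_of_nonneg_left h1 hν2.le
  have h4 : ν ^ 2 * (F ^ 2 + N * W) = ν ^ 2 * F ^ 2 + (M + 1) * W := by rw [← hNM]; ring
  have h5 : 0 ≤ ν ^ 2 * F ^ 2 := by positivity
  have h6 : F ^ 2 + h ^ 2 + d ^ 2 ≤ W := by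
    have : 0 ≤ F ^ 2 * (2 * τ ^ 2 * R ^ 2) := by positivity
    have : 0 ≤ h ^ 2 := sq_nonneg _
    rw [hW]; nlinarith
  have h7 : F ^ 2 + h ^ 2 + d ^ 2 + M * P ≤ C ^ 2 + ν ^ 2 * S := by
    rw [hP]
    have := sq_nonneg C
    nlinarith
  have h8 := mul_le_mul_of_nonneg_left h7 hE.le
  rw [hid]
  nlinarith

/-- unique continuation from the frontier for bounded complete trajectories -/
lemma ucp_par {Ω : Set P2} (hΩ : IsOpen Ω) (hb : Bornology.IsBounded Ω) {f g : P3 → ℝ}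
    (hf : ContDiff ℝ 3 f) (hg : ContDiff ℝ 3 g)
    (hf0 : ∀ t, ∀ x ∈ frontier Ω, f (t, x) = 0 ∧ fderiv ℝ (sl f t) x = 0)
    (hg0 : ∀ t, ∀ x ∈ frontier Ω, g (t, x) = 0 ∧ fderiv ℝ (sl g t) x = 0)
    {ν M B : ℝ} (hν : 0 < ν) (hM : 0 ≤ M) (hB : 0 ≤ B)
    (hineq : ∀ t, ∀ x ∈ Ω,
      (Dt f (t, x) - ν * (d1 (d1 (sl f t)) x + d2 (d2 (sl f t)) x)) ^ 2
        + (Dt g (t, x) - ν * (d1 (d1 (sl g t)) x + d2 (d2 (sl g t)) x)) ^ 2
      ≤ M * (sz (sl f t) x + sz (sl g t) x))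
    (hfB : ∀ t, ∀ x ∈ Ω, |f (t, x)| ≤ B ∧ |d1 (sl f t) x| ≤ B ∧ |d2 (sl f t) x| ≤ B)
    (hgB : ∀ t, ∀ x ∈ Ω, |g (t, x)| ≤ B ∧ |d1 (sl g t) x| ≤ B ∧ |d2 (sl g t) x| ≤ B) :
    ∀ t, ∀ x ∈ Ω, f (t, x) = 0 ∧ g (t, x) = 0 := by
  obtain ⟨r, hr⟩ := hb.subset_closedBall (0 : P2)
  obtain ⟨b, hbd⟩ : ∃ b : ℝ, b = |r| + 1 := ⟨_, rfl⟩
  have hX0 : ∀ x ∈ Ω, 1 ≤ x.1 + b ∧ x.1 + b ≤ 2 * |r| + 1 := by
    intro x hx
    have h1 := hr hx
    rw [mem_closedBall_zero_iff] at h1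
    have h2 : |x.1| ≤ r := (norm_fst_le x).trans h1
    have h3 := abs_le.1 (h2.trans (le_abs_self r))
    constructor <;> linarith [h3.1, h3.2]
  obtain ⟨R, hR⟩ : ∃ R : ℝ, R = 2 * |r| + 1 := ⟨_, rfl⟩
  have hX : ∀ x ∈ Ω, 1 ≤ x.1 + b ∧ x.1 + b ≤ R := by rw [hR]; exact hX0
  have hR0 : 0 ≤ R := by rw [hR]; positivity
  obtain ⟨N, hN⟩ : ∃ N : ℝ, N = (M + 1) / ν ^ 2 := ⟨_, rfl⟩
  obtain ⟨τ, hτ⟩ : ∃ τ : ℝ, τ = 1 + 2 * N + 4 * N * R ^ 2 := ⟨_, rfl⟩
  have hN0 : 0 ≤ N := by rw [hN]; positivity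
  have hτ0 : 0 ≤ τ := by rw [hτ]; positivity
  -- slices
  have f2 : ∀ t, ContDiff ℝ 2 (sl f t) := fun t => sl_contDiff (n := 2) (hf.of_le (by norm_num)) t
  have g2 : ∀ t, ContDiff ℝ 2 (sl g t) := fun t => sl_contDiff (n := 2) (hg.of_le (by norm_num)) t
  have kf2 : ∀ t, ContDiff ℝ 2 (sl (Dt f) t) := fun t =>
    sl_contDiff (n := 2) (Dt_contDiff (n := 3) (m := 2) hf (by norm_num)) t
  have kg2 : ∀ t, ContDiff ℝ 2 (sl (Dt g) t) := fun t =>
    sl_contDiff (n := 2) (Dt_contDiff (n := 3) (m := 2) hg (by norm_num)) t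
  have fd : Differentiable ℝ f := hf.differentiable (by norm_num)
  have gd : Differentiable ℝ g := hg.differentiable (by norm_num)
  have hk0 : ∀ {F : P3 → ℝ}, Differentiable ℝ F → (∀ t, ∀ x ∈ frontier Ω, F (t, x) = 0) →
      ∀ t, ∀ x ∈ frontier Ω, sl (Dt F) t x = 0 := by
    intro F hF h0 t x hx
    have h1 := hasDerivAt_time hF t x
    have h2 : (fun s => F (s, x)) = fun _ => 0 := funext fun s => h0 s x hx
    rw [h2] at h1
    exact (h1.unique (hasDerivAt_const t (0 : ℝ)))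
  -- the quadratic functional
  obtain ⟨q, hq⟩ : ∃ q : (P3 → ℝ) → ℝ → P2 → ℝ, q = fun F t x =>
    ν * (Ew τ b x * (hh τ b (sl F t) x ^ 2 + d2 (sl F t) x ^ 2
      - τ ^ 2 * (x.1 + b) ^ 2 * sl F t x ^ 2)) := ⟨_, rfl⟩
  obtain ⟨q', hq'⟩ : ∃ q' : (P3 → ℝ) → ℝ → P2 → ℝ, q' = fun F t x =>
    2 * ν * (Ew τ b x * (hh τ b (sl F t) x * hh τ b (sl (Dt F) t) x
      + d2 (sl F t) x * d2 (sl (Dt F) t) x
      - τ ^ 2 * (x.1 + b) ^ 2 * sl F t x * sl (Dt F) t x)) := ⟨_, rfl⟩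
  have hqd : ∀ {F : P3 → ℝ}, ContDiff ℝ 3 F → ∀ t x,
      HasDerivAt (fun s => q F s x) (q' F t x) t := by
    intro F hF t x
    have hF2 : ContDiff ℝ 2 F := hF.of_le (by norm_num)
    have a0 := hasDerivAt_time (hF.differentiable (by norm_num)) t x
    have a1 := hasDerivAt_d1 hF2 t x
    have a2 := hasDerivAt_d2 hF2 t x
    have a3 : HasDerivAt (fun s => hh τ b (sl F s) x) (hh τ b (sl (Dt F) t) x) t :=
      a1.fun_add ((a0.const_mul (x.1 + b)).const_mul τ)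
    have a4 := ((((a3.fun_pow 2).fun_add (a2.fun_pow 2)).fun_sub
      ((a0.fun_pow 2).const_mul (τ ^ 2 * (x.1 + b) ^ 2))).const_mul (Ew τ b x)).const_mul ν
    rw [hq, hq']
    refine a4.congr_deriv ?_
    simp only [sl]
    push_cast
    ring
  have cont_sl : ∀ {F : P3 → ℝ}, ContDiff ℝ 2 F →
      Continuous (fun z : P3 => sl F z.1 z.2) ∧ Continuous (fun z : P3 => hh τ b (sl F z.1) z.2) ∧
      Continuous (fun z : P3 => d2 (sl F z.1) z.2) := by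
    intro F hF
    have hd : Differentiable ℝ F := hF.differentiable (by norm_num)
    have c1 : Continuous (Dx (1, 0) F) :=
      (Dx_contDiff (n := 2) (m := 1) hF (by norm_num) _).continuous
    have c2 : Continuous (Dx (0, 1) F) :=
      (Dx_contDiff (n := 2) (m := 1) hF (by norm_num) _).continuous
    have c0 : Continuous F := hF.continuous
    refine ⟨c0, ?_, ?_⟩
    · simp only [hh, d1_sl hd, sl]
      have : Continuous (fun z : P3 => Dx (1, 0) F z + τ * ((z.2.1 + b) * F z)) := by fun_prop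
      exact this
    · simp only [d2_sl hd]
      exact c2
  have cE : Continuous (Ew τ b) := (Ew_contDiff τ b (n := 1)).continuous
  have hqc : ∀ {F : P3 → ℝ}, ContDiff ℝ 3 F → Continuous (fun z : P3 => q F z.1 z.2) := by
    intro F hF
    obtain ⟨c0, c1, c2⟩ := cont_sl (hF.of_le (by norm_num) : ContDiff ℝ 2 F)
    have cE' : Continuous (fun z : P3 => Ew τ b z.2) := cE.comp continuous_snd
    rw [hq]
    exact continuous_const.mul (cE'.mul (((c1.pow 2).add (c2.pow 2)).sub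
      ((by fun_prop : Continuous fun z : P3 => τ ^ 2 * (z.2.1 + b) ^ 2).mul (c0.pow 2))))
  have hqc' : ∀ {F : P3 → ℝ}, ContDiff ℝ 3 F → Continuous (fun z : P3 => q' F z.1 z.2) := by
    intro F hF
    obtain ⟨c0, c1, c2⟩ := cont_sl (hF.of_le (by norm_num) : ContDiff ℝ 2 F)
    obtain ⟨k0, k1, k2⟩ := cont_sl (Dt_contDiff (n := 3) (m := 2) hF (by norm_num))
    have cE' : Continuous (fun z : P3 => Ew τ b z.2) := cE.comp continuous_snd
    rw [hq']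
    exact continuous_const.mul (cE'.mul (((c1.mul k1).add (c2.mul k2)).sub
      (((by fun_prop : Continuous fun z : P3 => τ ^ 2 * (z.2.1 + b) ^ 2).mul c0).mul k0)))
  obtain ⟨Q, hQ⟩ : ∃ Q : ℝ → ℝ, Q = fun t => (∫ x in Ω, q f t x) + ∫ x in Ω, q g t x := ⟨_, rfl⟩
  have hQd : ∀ t, HasDerivAt Q ((∫ x in Ω, q' f t x) + ∫ x in Ω, q' g t x) t := by
    intro t
    rw [hQ]
    exact (deriv_int hb (hqc hf) (hqc' hf) (hqd hf) t).fun_add
      (deriv_int hb (hqc hg) (hqc' hg) (hqd hg) t)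
  -- the density
  obtain ⟨Z, hZ⟩ : ∃ Z : ℝ → P2 → ℝ, Z = fun t x =>
    Ew τ b x * (sl f t x ^ 2 + hh τ b (sl f t) x ^ 2 + d2 (sl f t) x ^ 2)
      + Ew τ b x * (sl g t x ^ 2 + hh τ b (sl g t) x ^ 2 + d2 (sl g t) x ^ 2) := ⟨_, rfl⟩
  have slc : ∀ {H : ℝ → P2 → ℝ}, Continuous (fun z : P3 => H z.1 z.2) → ∀ t, Continuous (H t) :=
    fun hH t => hH.comp (by fun_prop : Continuous fun x => ((t, x) : P3))
  have hZc : ∀ t, Continuous (Z t) := by
    intro t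
    obtain ⟨c0, c1, c2⟩ := cont_sl (hf.of_le (by norm_num) : ContDiff ℝ 2 f)
    obtain ⟨k0, k1, k2⟩ := cont_sl (hg.of_le (by norm_num) : ContDiff ℝ 2 g)
    have c0' := slc (H := fun t x => sl f t x) c0 t
    have c1' := slc (H := fun t x => hh τ b (sl f t) x) c1 t
    have c2' := slc (H := fun t x => d2 (sl f t) x) c2 t
    have k0' := slc (H := fun t x => sl g t x) k0 t
    have k1' := slc (H := fun t x => hh τ b (sl g t) x) k1 t
    have k2' := slc (H := fun t x => d2 (sl g t) x) k2 t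
    rw [hZ]
    exact (cE.mul (((c0'.pow 2).add (c1'.pow 2)).add (c2'.pow 2))).add
      (cE.mul (((k0'.pow 2).add (k1'.pow 2)).add (k2'.pow 2)))
  have iO : ∀ {H : P2 → ℝ}, Continuous H → IntegrableOn H Ω := fun hH =>
    (hH.continuousOn.integrableOn_compact hb.isCompact_closure).mono_set subset_closure
  -- flux
  obtain ⟨DV, hDV⟩ : ∃ DV : (P3 → ℝ) → ℝ → P2 → ℝ, DV = fun F t x =>
    ν ^ 2 * (d1 (V1 τ b (sl F t)) x + d2 (V2 τ b (sl F t)) x)
      - 2 * ν * (d1 (U1 τ b (sl F t) (sl (Dt F) t)) x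
        + d2 (U2 τ b (sl F t) (sl (Dt F) t)) x) := ⟨_, rfl⟩
  have dcont : ∀ {V : P2 → ℝ}, ContDiff ℝ 1 V → Continuous (d1 V) ∧ Continuous (d2 V) := fun hV =>
    ⟨(hV.continuous_fderiv (by norm_num)).clm_apply continuous_const,
      (hV.continuous_fderiv (by norm_num)).clm_apply continuous_const⟩
  have hDVi : ∀ {F : P3 → ℝ}, ContDiff ℝ 3 F →
      (∀ t, ∀ x ∈ frontier Ω, F (t, x) = 0 ∧ fderiv ℝ (sl F t) x = 0) → ∀ t,
      IntegrableOn (DV F t) Ω ∧ ∫ x in Ω, DV F t x = 0 := by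
    intro F hF h0 t
    have F2 : ContDiff ℝ 2 (sl F t) := sl_contDiff (n := 2) (hF.of_le (by norm_num)) t
    have K2 : ContDiff ℝ 2 (sl (Dt F) t) :=
      sl_contDiff (n := 2) (Dt_contDiff (n := 3) (m := 2) hF (by norm_num)) t
    have hkz := hk0 (hF.differentiable (by norm_num)) (fun t x hx => (h0 t x hx).1) t
    have v1 := gauss0 hΩ hb (V1_contDiff τ b F2) (fun x hx =>
      (V_zero F2 τ b x (h0 t x hx).1 (h0 t x hx).2).1) (1, 0)
    have v2 := gauss0 hΩ hb (V2_contDiff τ b F2) (fun x hx =>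
      (V_zero F2 τ b x (h0 t x hx).1 (h0 t x hx).2).2) (0, 1)
    have v3 := gauss0 hΩ hb (U1_contDiff τ b F2 K2) (fun x hx =>
      (U_zero F2 K2 τ b x (h0 t x hx).1 (h0 t x hx).2 (hkz x hx)).1) (1, 0)
    have v4 := gauss0 hΩ hb (U2_contDiff τ b F2 K2) (fun x hx =>
      (U_zero F2 K2 τ b x (h0 t x hx).1 (h0 t x hx).2 (hkz x hx)).2) (0, 1)
    have i1 := iO (dcont (V1_contDiff τ b F2)).1
    have i2 := iO (dcont (V2_contDiff τ b F2)).2
    have i3 := iO (dcont (U1_contDiff τ b F2 K2)).1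
    have i4 := iO (dcont (U2_contDiff τ b F2 K2)).2
    have j1 := (i1.add i2).const_mul (ν ^ 2)
    have j2 := (i3.add i4).const_mul (2 * ν)
    have j3 := j1.sub j2
    rw [hDV]
    refine ⟨j3, ?_⟩
    have k1 := integral_sub j1 j2
    have k2 := integral_add i1 i2
    have k3 := integral_add i3 i4
    simp only [Pi.add_apply] at k1
    rw [integral_const_mul, integral_const_mul, k2, k3] at k1
    have v1' : ∫ x in Ω, d1 (V1 τ b (sl F t)) x = 0 := v1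
    have v2' : ∫ x in Ω, d2 (V2 τ b (sl F t)) x = 0 := v2
    have v3' : ∫ x in Ω, d1 (U1 τ b (sl F t) (sl (Dt F) t)) x = 0 := v3
    have v4' : ∫ x in Ω, d2 (U2 τ b (sl F t) (sl (Dt F) t)) x = 0 := v4
    rw [v1', v2', v3', v4'] at k1
    simp only [k1]
    simp
  -- pointwise inequality
  have hpt : ∀ t, ∀ x ∈ Ω, Z t x ≤ -(DV f t x + DV g t x) - (q' f t x + q' g t x) := by
    intro t x hx
    have hE : 0 < Ew τ b x := Real.exp_pos _
    obtain ⟨x1, x2⟩ := hX x hx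
    have e1 : ∀ F : P3 → ℝ, d1 (sl F t) x = hh τ b (sl F t) x - τ * ((x.1 + b) * sl F t x) := by
      intro F; simp [hh]
    have p1 := par_real hM hν hN x1 x2 hE hτ (carleman_par_pt (f2 t) (kf2 t) τ b x ν)
      (P := sz (sl f t) x) (by rw [sz, e1 f])
    have p2 := par_real hM hν hN x1 x2 hE hτ (carleman_par_pt (g2 t) (kg2 t) τ b x ν)
      (P := sz (sl g t) x) (by rw [sz, e1 g])
    have p3 := mul_le_mul_of_nonneg_left (hineq t x hx) hE.le
    rw [hZ, hDV, hq']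
    simp only [sl] at p1 p2 p3 ⊢
    nlinarith
  have hint : ∀ t, ∫ x in Ω, Z t x ≤ -((∫ x in Ω, q' f t x) + ∫ x in Ω, q' g t x) := by
    intro t
    obtain ⟨a1, a2⟩ := hDVi hf hf0 t
    obtain ⟨b1, b2⟩ := hDVi hg hg0 t
    have c1 := iO (slc (hqc' hf) t)
    have c2 := iO (slc (hqc' hg) t)
    have e1 : ∫ x in Ω, (-(DV f t x + DV g t x) - (q' f t x + q' g t x)) =
        -((∫ x in Ω, q' f t x) + ∫ x in Ω, q' g t x) := by
      have k1 := integral_sub (a1.add b1).neg (c1.add c2)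
      have k2 := integral_neg (μ := volume.restrict Ω) (f := fun x => DV f t x + DV g t x)
      have k3 := integral_add a1 b1
      have k4 := integral_add c1 c2
      simp only [Pi.add_apply, Pi.neg_apply] at k1
      rw [k1, k2, k3, k4, a2, b2]
      simp
    rw [← e1]
    exact setIntegral_mono_on (iO (hZc t)) ((a1.add b1).neg.sub (c1.add c2)) hΩ.measurableSet
      (hpt t)
  have hZn : ∀ t x, 0 ≤ Z t x := by
    intro t x
    have hE : 0 < Ew τ b x := Real.exp_pos _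
    rw [hZ]; positivity
  -- |Q| ≤ C ∫ Z
  have hQZ : ∀ t, |Q t| ≤ (ν * (1 + τ ^ 2 * R ^ 2)) * ∫ x in Ω, Z t x := by
    intro t
    have c1 := iO (slc (hqc hf) t)
    have c2 := iO (slc (hqc hg) t)
    have e1 : Q t = ∫ x in Ω, (q f t x + q g t x) := by
      rw [hQ]; exact (integral_add c1 c2).symm
    rw [e1, ← integral_const_mul, ← Real.norm_eq_abs]
    refine norm_integral_le_of_norm_le ((iO (hZc t)).const_mul _) ?_
    filter_upwards [ae_restrict_mem hΩ.measurableSet] with x hx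
    have hE : 0 < Ew τ b x := Real.exp_pos _
    obtain ⟨x1, x2⟩ := hX x hx
    have one : ∀ F : P3 → ℝ, |q F t x| ≤ (ν * (1 + τ ^ 2 * R ^ 2)) * (Ew τ b x *
        (sl F t x ^ 2 + hh τ b (sl F t) x ^ 2 + d2 (sl F t) x ^ 2)) := by
      intro F
      rw [hq]
      simp only
      rw [abs_mul, abs_mul, abs_of_pos hν, abs_of_pos hE]
      have s1 : |hh τ b (sl F t) x ^ 2 + d2 (sl F t) x ^ 2
          - τ ^ 2 * (x.1 + b) ^ 2 * sl F t x ^ 2| ≤ (1 + τ ^ 2 * R ^ 2) *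
          (sl F t x ^ 2 + hh τ b (sl F t) x ^ 2 + d2 (sl F t) x ^ 2) := by
        have y1 : (x.1 + b) ^ 2 ≤ R ^ 2 := by nlinarith
        have y2 : τ ^ 2 * sl F t x ^ 2 * (x.1 + b) ^ 2 ≤ τ ^ 2 * sl F t x ^ 2 * R ^ 2 :=
          mul_le_mul_of_nonneg_left y1 (by positivity)
        have y3 : 0 ≤ τ ^ 2 * sl F t x ^ 2 * (x.1 + b) ^ 2 := by positivity
        have y4 : 0 ≤ τ ^ 2 * R ^ 2 * (hh τ b (sl F t) x ^ 2 + d2 (sl F t) x ^ 2) := by positivity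
        have y5 : 0 ≤ hh τ b (sl F t) x ^ 2 := sq_nonneg _
        have y6 : 0 ≤ d2 (sl F t) x ^ 2 := sq_nonneg _
        have y7 : 0 ≤ sl F t x ^ 2 := sq_nonneg _
        rw [abs_le]; constructor <;> nlinarith
      calc ν * (Ew τ b x * |hh τ b (sl F t) x ^ 2 + d2 (sl F t) x ^ 2
          - τ ^ 2 * (x.1 + b) ^ 2 * sl F t x ^ 2|)
          ≤ ν * (Ew τ b x * ((1 + τ ^ 2 * R ^ 2) *
          (sl F t x ^ 2 + hh τ b (sl F t) x ^ 2 + d2 (sl F t) x ^ 2))) := by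
            gcongr
        _ = _ := by ring
    rw [Real.norm_eq_abs]
    refine (abs_add_le _ _).trans ?_
    rw [hZ]
    simp only
    rw [mul_add]
    exact add_le_add (one f) (one g)
  -- |Q| bounded
  have hQK : ∃ K, ∀ t, |Q t| ≤ K := by
    set D := Real.exp (τ * R ^ 2) * (B ^ 2 + (B + τ * (R * B)) ^ 2 + B ^ 2) with hD
    refine ⟨(ν * (1 + τ ^ 2 * R ^ 2)) * ((D + D) * volume.real Ω), fun t => (hQZ t).trans ?_⟩
    refine mul_le_mul_of_nonneg_left ?_ (by positivity)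
    have hfin : volume Ω < ⊤ := hb.measure_lt_top
    have h1 := norm_setIntegral_le_of_norm_le_const (μ := volume) (s := Ω) (f := Z t) hfin
      (C := D + D) (fun x hx => by
        rw [Real.norm_eq_abs, abs_of_nonneg (hZn t x)]
        obtain ⟨x1, x2⟩ := hX x hx
        have hE : Ew τ b x ≤ Real.exp (τ * R ^ 2) := by
          unfold Ew
          apply Real.exp_le_exp.2
          have : (x.1 + b) ^ 2 ≤ R ^ 2 := by nlinarith
          exact mul_le_mul_of_nonneg_left this hτ0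
        have one : ∀ F : P3 → ℝ, (|F (t, x)| ≤ B ∧ |d1 (sl F t) x| ≤ B ∧ |d2 (sl F t) x| ≤ B) →
            Ew τ b x * (sl F t x ^ 2 + hh τ b (sl F t) x ^ 2 + d2 (sl F t) x ^ 2) ≤ D := by
          intro F ⟨z1, z2, z3⟩
          have z1' : |sl F t x| ≤ B := z1
          have w1 : sl F t x ^ 2 ≤ B ^ 2 := by
            rw [← sq_abs]; exact pow_le_pow_left₀ (abs_nonneg _) z1' 2
          have w3 : d2 (sl F t) x ^ 2 ≤ B ^ 2 := by
            rw [← sq_abs]; exact pow_le_pow_left₀ (abs_nonneg _) z3 2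
          have w2' : |hh τ b (sl F t) x| ≤ B + τ * (R * B) := by
            refine (abs_add_le _ _).trans (add_le_add z2 ?_)
            rw [abs_mul, abs_mul, abs_of_nonneg hτ0, abs_of_nonneg (by linarith : 0 ≤ x.1 + b)]
            exact mul_le_mul_of_nonneg_left (mul_le_mul x2 z1' (abs_nonneg _) hR0) hτ0
          have w2 : hh τ b (sl F t) x ^ 2 ≤ (B + τ * (R * B)) ^ 2 := by
            rw [← sq_abs]; exact pow_le_pow_left₀ (abs_nonneg _) w2' 2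
          rw [hD]
          exact mul_le_mul hE (by linarith) (by positivity) (Real.exp_pos _).le
        rw [hZ]
        exact add_le_add (one f (hfB t x hx)) (one g (hgB t x hx)))
    exact (le_abs_self _).trans h1
  obtain ⟨K, hK⟩ := hQK
  have hcpos : 0 < ν * (1 + τ ^ 2 * R ^ 2) := by positivity
  have hz := ode_zero (c := (ν * (1 + τ ^ 2 * R ^ 2))⁻¹) (inv_pos.2 hcpos) hQd (fun t => by
    have h1 := hQZ t
    have h2 := hint t
    have h3 : (ν * (1 + τ ^ 2 * R ^ 2))⁻¹ * |Q t| ≤ ∫ x in Ω, Z t x := by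
      rw [inv_mul_le_iff₀ hcpos]; exact h1
    linarith) hK
  intro t
  have hQ'0 : (∫ x in Ω, q' f t x) + ∫ x in Ω, q' g t x = 0 := by
    have h1 := hQd t
    have h2 : Q = fun _ => 0 := funext hz
    rw [h2] at h1
    exact h1.unique (hasDerivAt_const t (0 : ℝ))
  have h3 := hint t
  rw [hQ'0, neg_zero] at h3
  have h4 := zero_of_int hΩ hb (hZc t) (hZn t) h3
  intro x hx
  have h5 := h4 x hx
  have hE : 0 < Ew τ b x := Real.exp_pos _
  rw [hZ] at h5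
  simp only at h5
  rw [← mul_add] at h5
  have h6 := (mul_eq_zero.1 h5).resolve_left hE.ne'
  have s1 := sq_nonneg (sl f t x)
  have s2 := sq_nonneg (hh τ b (sl f t) x)
  have s3 := sq_nonneg (d2 (sl f t) x)
  have s4 := sq_nonneg (sl g t x)
  have s5 := sq_nonneg (hh τ b (sl g t) x)
  have s6 := sq_nonneg (d2 (sl g t) x)
  have s7 : sl f t x ^ 2 = 0 := by linarith
  have s8 : sl g t x ^ 2 = 0 := by linarith
  exact ⟨pow_eq_zero_iff (two_ne_zero) |>.1 s7, pow_eq_zero_iff (two_ne_zero) |>.1 s8⟩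

end Pool.Agent.H754R3.PR
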