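import Pool.Agent.H754R3.PR.ConstZero
import Pool.Agent.H754R3.PR.Carleman

set_option autoImplicit false

/-!
# Steady states with the same pressure coincide
-/

namespace Pool.Agent.H754R3.PR

open MeasureTheory Set Filter Topology

section dcalc

variable {f g : P2 → ℝ}

lemma d1_mul (hf : Differentiable ℝ f) (hg : Differentiable ℝ g) (x : P2) :
    d1 (fun y => f y * g y) x = f x * d1 g x + d1 f x * g x := by
  have := (hf x).hasFDerivAt.fun_mul (hg x).hasFDerivAt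
  rw [d1, this.fderiv]; simp [d1]; ring

lemma d2_mul (hf : Differentiable ℝ f) (hg : Differentiable ℝ g) (x : P2) :
    d2 (fun y => f y * g y) x = f x * d2 g x + d2 f x * g x := by
  have := (hf x).hasFDerivAt.fun_mul (hg x).hasFDerivAt
  rw [d2, this.fderiv]; simp [d2]; ring

lemma d1_add (hf : Differentiable ℝ f) (hg : Differentiable ℝ g) (x : P2) :
    d1 (fun y => f y + g y) x = d1 f x + d1 g x := by
  have := (hf x).hasFDerivAt.fun_add (hg x).hasFDerivAt
  rw [d1, this.fderiv]; simp [d1]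

lemma d2_add (hf : Differentiable ℝ f) (hg : Differentiable ℝ g) (x : P2) :
    d2 (fun y => f y + g y) x = d2 f x + d2 g x := by
  have := (hf x).hasFDerivAt.fun_add (hg x).hasFDerivAt
  rw [d2, this.fderiv]; simp [d2]

lemma d1_sub (hf : Differentiable ℝ f) (hg : Differentiable ℝ g) (x : P2) :
    d1 (fun y => f y - g y) x = d1 f x - d1 g x := by
  have := (hf x).hasFDerivAt.fun_sub (hg x).hasFDerivAt
  rw [d1, this.fderiv]; simp [d1]

lemma d2_sub (hf : Differentiable ℝ f) (hg : Differentiable ℝ g) (x : P2) :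
    d2 (fun y => f y - g y) x = d2 f x - d2 g x := by
  have := (hf x).hasFDerivAt.fun_sub (hg x).hasFDerivAt
  rw [d2, this.fderiv]; simp [d2]

lemma d1_cmul (hf : Differentiable ℝ f) (c : ℝ) (x : P2) :
    d1 (fun y => c * f y) x = c * d1 f x := by
  have := (hf x).hasFDerivAt.const_mul c
  rw [d1, this.fderiv]; simp [d1]

lemma d2_cmul (hf : Differentiable ℝ f) (c : ℝ) (x : P2) :
    d2 (fun y => c * f y) x = c * d2 f x := by
  have := (hf x).hasFDerivAt.const_mul c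
  rw [d2, this.fderiv]; simp [d2]

lemma d1_fst (x : P2) : d1 (fun y => y.1) x = 1 := by
  rw [d1, (hasFDerivAt_fst (𝕜 := ℝ) (p := x)).fderiv]; simp
lemma d1_snd (x : P2) : d1 (fun y => y.2) x = 0 := by
  rw [d1, (hasFDerivAt_snd (𝕜 := ℝ) (p := x)).fderiv]; simp
lemma d2_fst (x : P2) : d2 (fun y => y.1) x = 0 := by
  rw [d2, (hasFDerivAt_fst (𝕜 := ℝ) (p := x)).fderiv]; simp
lemma d2_snd (x : P2) : d2 (fun y => y.2) x = 1 := by
  rw [d2, (hasFDerivAt_snd (𝕜 := ℝ) (p := x)).fderiv]; simp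

lemma d1_const (c : ℝ) (x : P2) : d1 (fun _ => c) x = 0 := by
  rw [d1, fderiv_fun_const]; simp
lemma d2_const (c : ℝ) (x : P2) : d2 (fun _ => c) x = 0 := by
  rw [d2, fderiv_fun_const]; simp

lemma fderiv_eq_of_d (x e : P2) : fderiv ℝ f x e = e.1 * d1 f x + e.2 * d2 f x := by
  have : e = e.1 • (1, 0) + e.2 • ((0, 1) : P2) := by ext <;> simp
  conv_lhs => rw [this]
  rw [map_add, map_smul, map_smul]
  simp [d1, d2]

lemma fderiv_zero_of_d {x : P2} (h1 : d1 f x = 0) (h2 : d2 f x = 0) : fderiv ℝ f x = 0 := by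
  refine ContinuousLinearMap.ext fun e => ?_
  rw [fderiv_eq_of_d, h1, h2]; simp

end dcalc

/-- extension of an identity to the frontier by continuity -/
lemma zero_on_frontier {Ω : Set P2} {F : P2 → ℝ} (hF : Continuous F) (h : ∀ x ∈ Ω, F x = 0) :
    ∀ x ∈ frontier Ω, F x = 0 := by
  intro x hx
  have h1 : closure Ω ⊆ {x | F x = 0} :=
    closure_minimal h (isClosed_eq hF continuous_const)
  exact h1 hx.1

lemma four_sq (a b c d : ℝ) :
    (a + b + c + d) ^ 2 ≤ 4 * (a ^ 2 + b ^ 2 + c ^ 2 + d ^ 2) := by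
  nlinarith [sq_nonneg (a - b), sq_nonneg (a - c), sq_nonneg (a - d), sq_nonneg (b - c),
    sq_nonneg (b - d), sq_nonneg (c - d)]

/-- core statement for the difference `w` and the mean `a` -/
theorem core {Ω : Set P2} (hΩ : IsOpen Ω) (hb : Bornology.IsBounded Ω)
    {γ : ℝ → P2} (hγ : Differentiable ℝ γ) (hγ0 : ∀ s, deriv γ s ≠ 0) (hγr : range γ = frontier Ω)
    {ν : ℝ} (hν : 0 < ν) {w1 w2 a1 a2 : P2 → ℝ}
    (hw1 : ContDiff ℝ 3 w1) (hw2 : ContDiff ℝ 3 w2) (ha1 : ContDiff ℝ 3 a1) (ha2 : ContDiff ℝ 3 a2)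
    (hdw : ∀ x ∈ Ω, d1 w1 x + d2 w2 x = 0) (hda : ∀ x ∈ Ω, d1 a1 x + d2 a2 x = 0)
    (hbw : ∀ x ∈ frontier Ω, w1 x = 0 ∧ w2 x = 0) (hba : ∀ x ∈ frontier Ω, a1 x = 0 ∧ a2 x = 0)
    (hm1 : ∀ x ∈ Ω, ν * (d1 (d1 w1) x + d2 (d2 w1) x) =
      a1 x * d1 w1 x + a2 x * d2 w1 x + w1 x * d1 a1 x + w2 x * d2 a1 x)
    (hm2 : ∀ x ∈ Ω, ν * (d1 (d1 w2) x + d2 (d2 w2) x) =
      a1 x * d1 w2 x + a2 x * d2 w2 x + w1 x * d1 a2 x + w2 x * d2 a2 x) :
    ∀ x ∈ Ω, w1 x = 0 ∧ w2 x = 0 := by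
  rcases Ω.eq_empty_or_nonempty with hemp | hne
  · simp [hemp]
  -- regularity
  have hw1' : ContDiff ℝ 2 w1 := hw1.of_le (by norm_num)
  have hw2' : ContDiff ℝ 2 w2 := hw2.of_le (by norm_num)
  have r1 : ContDiff ℝ 2 (d1 w1) := d1_contDiff (m := 2) (n := 3) hw1 (by norm_num)
  have r2 : ContDiff ℝ 2 (d2 w1) := d2_contDiff (m := 2) (n := 3) hw1 (by norm_num)
  have r3 : ContDiff ℝ 2 (d1 w2) := d1_contDiff (m := 2) (n := 3) hw2 (by norm_num)
  have r4 : ContDiff ℝ 2 (d2 w2) := d2_contDiff (m := 2) (n := 3) hw2 (by norm_num)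
  have q1 : ContDiff ℝ 2 (d1 a1) := d1_contDiff (m := 2) (n := 3) ha1 (by norm_num)
  have q2 : ContDiff ℝ 2 (d2 a1) := d2_contDiff (m := 2) (n := 3) ha1 (by norm_num)
  have q3 : ContDiff ℝ 2 (d1 a2) := d1_contDiff (m := 2) (n := 3) ha2 (by norm_num)
  have q4 : ContDiff ℝ 2 (d2 a2) := d2_contDiff (m := 2) (n := 3) ha2 (by norm_num)
  have cdd : ∀ {F : P2 → ℝ}, ContDiff ℝ 2 F → Continuous (d1 F) ∧ Continuous (d2 F) := fun hF =>
    ⟨(d1_contDiff (m := 1) (n := 2) hF (by norm_num)).continuous,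
      (d2_contDiff (m := 1) (n := 2) hF (by norm_num)).continuous⟩
  have dd : ∀ {F : P2 → ℝ}, ContDiff ℝ 2 F → Differentiable ℝ F := fun hF =>
    hF.differentiable (by norm_num)
  have dw1 := dd hw1'
  have dw2 := dd hw2'
  have dr1 := dd r1
  have dr2 := dd r2
  have dr3 := dd r3
  have dr4 := dd r4
  have da1 := dd (ha1.of_le (by norm_num))
  have da2 := dd (ha2.of_le (by norm_num))
  -- derivatives of the divergence
  have hdd1 : ∀ x ∈ Ω, d1 (d1 w1) x + d1 (d2 w2) x = 0 := by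
    intro x hx
    rw [← d1_add dr1 dr4]
    have : (fun y => d1 w1 y + d2 w2 y) =ᶠ[𝓝 x] fun _ => 0 := by
      filter_upwards [hΩ.mem_nhds hx] with y hy using hdw y hy
    rw [d1, this.fderiv_eq, fderiv_fun_const]; simp
  have hdd2 : ∀ x ∈ Ω, d2 (d1 w1) x + d2 (d2 w2) x = 0 := by
    intro x hx
    rw [← d2_add dr1 dr4]
    have : (fun y => d1 w1 y + d2 w2 y) =ᶠ[𝓝 x] fun _ => 0 := by
      filter_upwards [hΩ.mem_nhds hx] with y hy using hdw y hy
    rw [d2, this.fderiv_eq, fderiv_fun_const]; simp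
  -- vorticity
  obtain ⟨om, hom⟩ : ∃ om : P2 → ℝ, om = fun x => d1 w2 x - d2 w1 x := ⟨_, rfl⟩
  have hom2 : ContDiff ℝ 2 om := by rw [hom]; exact r3.sub r2
  have dom := dd hom2
  have ho1 : ∀ x, d1 om x = d1 (d1 w2) x - d1 (d2 w1) x := fun x => by
    rw [hom]; exact d1_sub dr3 dr2 x
  have ho2 : ∀ x, d2 om x = d2 (d1 w2) x - d2 (d2 w1) x := fun x => by
    rw [hom]; exact d2_sub dr3 dr2 x
  have hL1 : ∀ x ∈ Ω, d1 (d1 w1) x + d2 (d2 w1) x = - d2 om x := by
    intro x hx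
    rw [ho2, ← d_comm hw2' x]
    have := hdd1 x hx
    linarith
  have hL2 : ∀ x ∈ Ω, d1 (d1 w2) x + d2 (d2 w2) x = d1 om x := by
    intro x hx
    rw [ho1, d_comm hw1' x]
    have := hdd2 x hx
    linarith
  -- frontier identities
  have f1 : ∀ x ∈ frontier Ω, d2 om x = 0 := by
    intro x hx
    have h1 := zero_on_frontier (Ω := Ω) (F := fun x => ν * d2 om x +
      (a1 x * d1 w1 x + a2 x * d2 w1 x + w1 x * d1 a1 x + w2 x * d2 a1 x)) (by
        have := (cdd hom2).2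
        have := r1.continuous; have := r2.continuous; have := q1.continuous
        have := q2.continuous; have := ha1.continuous; have := ha2.continuous
        have := hw1.continuous; have := hw2.continuous
        fun_prop) (by
        intro y hy
        have e1 := hm1 y hy
        rw [hL1 y hy] at e1
        linarith) x hx
    simp only [(hbw x hx).1, (hbw x hx).2, (hba x hx).1, (hba x hx).2] at h1
    have : ν * d2 om x = 0 := by linarith
    exact (mul_eq_zero.1 this).resolve_left hν.ne'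
  have f2 : ∀ x ∈ frontier Ω, d1 om x = 0 := by
    intro x hx
    have h1 := zero_on_frontier (Ω := Ω) (F := fun x => ν * d1 om x -
      (a1 x * d1 w2 x + a2 x * d2 w2 x + w1 x * d1 a2 x + w2 x * d2 a2 x)) (by
        have := (cdd hom2).1
        have := r3.continuous; have := r4.continuous; have := q3.continuous
        have := q4.continuous; have := ha1.continuous; have := ha2.continuous
        have := hw1.continuous; have := hw2.continuous
        fun_prop) (by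
        intro y hy
        have e1 := hm2 y hy
        rw [hL2 y hy] at e1
        linarith) x hx
    simp only [(hbw x hx).1, (hbw x hx).2, (hba x hx).1, (hba x hx).2] at h1
    have : ν * d1 om x = 0 := by linarith
    exact (mul_eq_zero.1 this).resolve_left hν.ne'
  have hmem : ∀ s, γ s ∈ frontier Ω := fun s => by rw [← hγr]; exact mem_range_self s
  have hconst : ∀ s, om (γ s) = om (γ 0) := by
    intro s
    have hd : ∀ s, HasDerivAt (fun s => om (γ s)) 0 s := by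
      intro s
      have h1 := (dom (γ s)).hasFDerivAt.comp_hasDerivAt s (hγ s).hasDerivAt
      rw [fderiv_zero_of_d (f2 _ (hmem s)) (f1 _ (hmem s))] at h1
      exact h1
    exact is_const_of_deriv_eq_zero (fun s => (hd s).differentiableAt) (fun s => (hd s).deriv) s 0
  set c : ℝ := om (γ 0) with hc
  have hcf : ∀ x ∈ frontier Ω, om x = c := by
    intro x hx
    rw [← hγr] at hx
    obtain ⟨s, rfl⟩ := hx
    exact hconst s
  -- the constant vanishes
  have hc0 : c = 0 := by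
    have hT : ContDiff ℝ 1 (fun x : P2 => x.1) := contDiff_fst
    have hT2 : ContDiff ℝ 1 (fun x : P2 => x.2) := contDiff_snd
    have k1 : ContDiff ℝ 1 w1 := hw1.of_le (by norm_num)
    have k2 : ContDiff ℝ 1 w2 := hw2.of_le (by norm_num)
    have k3 : ContDiff ℝ 1 a1 := ha1.of_le (by norm_num)
    have k4 : ContDiff ℝ 1 a2 := ha2.of_le (by norm_num)
    have k5 : ContDiff ℝ 1 om := hom2.of_le (by norm_num)
    have hz := const_zero hΩ hb hne
      (Y1 := fun x => ((om x - c) * x.1 - 2 * w2 x) - ν⁻¹ * ((a1 x * w2 x + w1 x * a2 x) * x.1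
        - (2 * (a1 x * w1 x)) * x.2))
      (Y2 := fun x => ((om x - c) * x.2 + 2 * w1 x) - ν⁻¹ * ((2 * (a2 x * w2 x)) * x.1
        - (a1 x * w2 x + w1 x * a2 x) * x.2)) (k := -2 * c)
      (by fun_prop) (by fun_prop)
      (by
        intro x hx
        simp [hcf x hx, (hbw x hx).1, (hbw x hx).2, (hba x hx).1, (hba x hx).2])
      (by
        intro x hx
        have dX : Differentiable ℝ (fun x : P2 => x.1) := differentiable_fst
        have dX2 : Differentiable ℝ (fun x : P2 => x.2) := differentiable_snd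
        have dc : Differentiable ℝ (fun _ : P2 => c) := differentiable_const c
        have m1 : Differentiable ℝ (fun x => a1 x * w2 x) := da1.mul dw2
        have m2 : Differentiable ℝ (fun x => w1 x * a2 x) := dw1.mul da2
        have m3 : Differentiable ℝ (fun x => a1 x * w1 x) := da1.mul dw1
        have m4 : Differentiable ℝ (fun x => a2 x * w2 x) := da2.mul dw2
        have m5 : Differentiable ℝ (fun x => a1 x * w2 x + w1 x * a2 x) := m1.add m2
        have m6 : Differentiable ℝ (fun x => om x - c) := dom.sub dc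
        have m7 : Differentiable ℝ (fun x => 2 * (a1 x * w1 x)) := m3.const_mul 2
        have m8 : Differentiable ℝ (fun x => 2 * (a2 x * w2 x)) := m4.const_mul 2
        have e1 : d1 (fun x : P2 => ((om x - c) * x.1 - 2 * w2 x) - ν⁻¹ *
            ((a1 x * w2 x + w1 x * a2 x) * x.1 - (2 * (a1 x * w1 x)) * x.2)) x =
            (om x - c) + d1 om x * x.1 - 2 * d1 w2 x - ν⁻¹ *
            ((a1 x * w2 x + w1 x * a2 x) + (a1 x * d1 w2 x + d1 a1 x * w2 x + (w1 x * d1 a2 x +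
              d1 w1 x * a2 x)) * x.1 - 2 * (a1 x * d1 w1 x + d1 a1 x * w1 x) * x.2) := by
          rw [d1_sub (by fun_prop) (by fun_prop), d1_sub (by fun_prop) (by fun_prop),
            d1_mul m6 dX, d1_sub dom dc, d1_const, d1_fst, d1_cmul dw2,
            d1_cmul (by fun_prop), d1_sub (by fun_prop) (by fun_prop), d1_mul m5 dX,
            d1_add m1 m2, d1_mul da1 dw2, d1_mul dw1 da2, d1_fst, d1_mul m7 dX2, d1_snd,
            d1_cmul m3, d1_mul da1 dw1]
          ring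
        have e2 : d2 (fun x : P2 => ((om x - c) * x.2 + 2 * w1 x) - ν⁻¹ *
            ((2 * (a2 x * w2 x)) * x.1 - (a1 x * w2 x + w1 x * a2 x) * x.2)) x =
            (om x - c) + d2 om x * x.2 + 2 * d2 w1 x - ν⁻¹ *
            (2 * (a2 x * d2 w2 x + d2 a2 x * w2 x) * x.1 - ((a1 x * w2 x + w1 x * a2 x) +
              (a1 x * d2 w2 x + d2 a1 x * w2 x + (w1 x * d2 a2 x + d2 w1 x * a2 x)) * x.2)) := by
          rw [d2_sub (by fun_prop) (by fun_prop), d2_add (by fun_prop) (by fun_prop),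
            d2_mul m6 dX2, d2_sub dom dc, d2_const, d2_snd, d2_cmul dw1,
            d2_cmul (by fun_prop), d2_sub (by fun_prop) (by fun_prop), d2_mul m8 dX, d2_fst,
            d2_cmul m4, d2_mul da2 dw2, d2_mul m5 dX2, d2_snd, d2_add m1 m2, d2_mul da1 dw2,
            d2_mul dw1 da2]
          ring
        rw [e1, e2]
        have g1 := hm1 x hx
        have g2 := hm2 x hx
        rw [hL1 x hx] at g1
        rw [hL2 x hx] at g2
        have g3 := hdw x hx
        have g4 := hda x hx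
        have s1 : d2 w2 x = - d1 w1 x := by linarith
        have s2 : d2 a2 x = - d1 a1 x := by linarith
        have hνν : ν⁻¹ * ν = 1 := inv_mul_cancel₀ hν.ne'
        have g1' : d2 om x = - (ν⁻¹ * (a1 x * d1 w1 x + a2 x * d2 w1 x + w1 x * d1 a1 x
            + w2 x * d2 a1 x)) := by
          rw [← g1, ← mul_assoc, hνν]; ring
        have g2' : d1 om x = ν⁻¹ * (a1 x * d1 w2 x + a2 x * d2 w2 x + w1 x * d1 a2 x
            + w2 x * d2 a2 x) := by
          rw [← g2, ← mul_assoc, hνν]; ring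
        rw [g1', g2', s1, s2]
        simp only [hom]
        ring)
    linarith
  -- the gradient vanishes on the frontier
  have hgr : ∀ x ∈ frontier Ω, (d1 w1 x = 0 ∧ d2 w1 x = 0) ∧ (d1 w2 x = 0 ∧ d2 w2 x = 0) := by
    intro x hx
    have g0 := hcf x hx
    rw [hc0] at g0
    simp only [hom] at g0
    have g1 := zero_on_frontier (Ω := Ω) (F := fun x => d1 w1 x + d2 w2 x)
      (r1.continuous.add r4.continuous) hdw x hx
    rw [← hγr] at hx
    obtain ⟨s, rfl⟩ := hx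
    have t1 : ∀ F : P2 → ℝ, Differentiable ℝ F → (∀ x ∈ frontier Ω, F x = 0) →
        (deriv γ s).1 * d1 F (γ s) + (deriv γ s).2 * d2 F (γ s) = 0 := by
      intro F hF h0
      have h1 := (hF (γ s)).hasFDerivAt.comp_hasDerivAt s (hγ s).hasDerivAt
      have h2 : (F ∘ γ) = fun _ => 0 := funext fun s => h0 _ (hmem s)
      rw [h2] at h1
      have h3 := h1.unique (hasDerivAt_const s (0 : ℝ))
      rw [fderiv_eq_of_d] at h3
      exact h3
    have u1 := t1 w1 dw1 (fun x hx => (hbw x hx).1)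
    have u2 := t1 w2 dw2 (fun x hx => (hbw x hx).2)
    have hp : 0 < (deriv γ s).1 ^ 2 + (deriv γ s).2 ^ 2 := by
      by_contra h
      push Not at h
      apply hγ0 s
      have z1 : (deriv γ s).1 = 0 := by nlinarith [sq_nonneg (deriv γ s).1, sq_nonneg (deriv γ s).2]
      have z2 : (deriv γ s).2 = 0 := by nlinarith [sq_nonneg (deriv γ s).1, sq_nonneg (deriv γ s).2]
      exact Prod.ext z1 z2
    set t := (deriv γ s).1
    set t' := (deriv γ s).2
    have v1 : d2 w2 (γ s) = - d1 w1 (γ s) := by linarith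
    have v2 : d1 w2 (γ s) = d2 w1 (γ s) := by linarith
    rw [v1, v2] at u2
    have p1 : (t ^ 2 + t' ^ 2) * d1 w1 (γ s) = 0 := by linear_combination t * u1 - t' * u2
    have p2 : (t ^ 2 + t' ^ 2) * d2 w1 (γ s) = 0 := by linear_combination t' * u1 + t * u2
    have p3 := (mul_eq_zero.1 p1).resolve_left hp.ne'
    have p4 := (mul_eq_zero.1 p2).resolve_left hp.ne'
    refine ⟨⟨p3, p4⟩, ⟨by rw [v2, p4], by rw [v1, p3]; simp⟩⟩
  -- bounds for the mean field
  have hcpt : IsCompact (closure Ω) := hb.isCompact_closure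
  have bdd : ∀ F : P2 → ℝ, Continuous F → ∃ K, 0 ≤ K ∧ ∀ x ∈ Ω, |F x| ≤ K := by
    intro F hF
    obtain ⟨K, hK⟩ := hcpt.exists_bound_of_continuousOn hF.continuousOn
    refine ⟨|K|, abs_nonneg _, fun x hx => ?_⟩
    exact (hK x (subset_closure hx)).trans (le_abs_self K)
  obtain ⟨K1, hK1, b1⟩ := bdd a1 ha1.continuous
  obtain ⟨K2, hK2, b2⟩ := bdd a2 ha2.continuous
  obtain ⟨K3, hK3, b3⟩ := bdd _ q1.continuous
  obtain ⟨K4, hK4, b4⟩ := bdd _ q2.continuous
  obtain ⟨K5, hK5, b5⟩ := bdd _ q3.continuous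
  obtain ⟨K6, hK6, b6⟩ := bdd _ q4.continuous
  set K := K1 + K2 + K3 + K4 + K5 + K6 with hK
  refine ucp hΩ hb hw1' hw2'
    (fun x hx => ⟨(hbw x hx).1, fderiv_zero_of_d (hgr x hx).1.1 (hgr x hx).1.2⟩)
    (fun x hx => ⟨(hbw x hx).2, fderiv_zero_of_d (hgr x hx).2.1 (hgr x hx).2.2⟩)
    (M := 8 * K ^ 2 * (ν⁻¹) ^ 2) (by positivity) ?_
  intro x hx
  have hνν : ν⁻¹ * ν = 1 := inv_mul_cancel₀ hν.ne'
  have four : ∀ (p q r s P Q R S : ℝ), |p| ≤ K → |q| ≤ K → |r| ≤ K → |s| ≤ K →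
      (p * P + q * Q + r * R + s * S) ^ 2 ≤ 4 * K ^ 2 * (P ^ 2 + Q ^ 2 + R ^ 2 + S ^ 2) := by
    intro p q r s P Q R S hp hq hr hs
    have sq : ∀ y : ℝ, |y| ≤ K → y ^ 2 ≤ K ^ 2 := fun y hy => by
      rw [← sq_abs y]; exact pow_le_pow_left₀ (abs_nonneg y) hy 2
    have z1 := mul_le_mul_of_nonneg_right (sq p hp) (sq_nonneg P)
    have z2 := mul_le_mul_of_nonneg_right (sq q hq) (sq_nonneg Q)
    have z3 := mul_le_mul_of_nonneg_right (sq r hr) (sq_nonneg R)
    have z4 := mul_le_mul_of_nonneg_right (sq s hs) (sq_nonneg S)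
    have z5 := four_sq (p * P) (q * Q) (r * R) (s * S)
    rw [mul_pow, mul_pow, mul_pow, mul_pow] at z5
    linarith
  have l1 : d1 (d1 w1) x + d2 (d2 w1) x = ν⁻¹ * (a1 x * d1 w1 x + a2 x * d2 w1 x
      + d1 a1 x * w1 x + d2 a1 x * w2 x) := by
    have e : a1 x * d1 w1 x + a2 x * d2 w1 x + d1 a1 x * w1 x + d2 a1 x * w2 x =
      ν * (d1 (d1 w1) x + d2 (d2 w1) x) := by rw [hm1 x hx]; ring
    rw [e, ← mul_assoc, hνν, one_mul]
  have l2 : d1 (d1 w2) x + d2 (d2 w2) x = ν⁻¹ * (a1 x * d1 w2 x + a2 x * d2 w2 x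
      + d1 a2 x * w1 x + d2 a2 x * w2 x) := by
    have e : a1 x * d1 w2 x + a2 x * d2 w2 x + d1 a2 x * w1 x + d2 a2 x * w2 x =
      ν * (d1 (d1 w2) x + d2 (d2 w2) x) := by rw [hm2 x hx]; ring
    rw [e, ← mul_assoc, hνν, one_mul]
  have n1 := four (a1 x) (a2 x) (d1 a1 x) (d2 a1 x) (d1 w1 x) (d2 w1 x) (w1 x) (w2 x)
    ((b1 x hx).trans (by linarith)) ((b2 x hx).trans (by linarith))
    ((b3 x hx).trans (by linarith)) ((b4 x hx).trans (by linarith))
  have n2 := four (a1 x) (a2 x) (d1 a2 x) (d2 a2 x) (d1 w2 x) (d2 w2 x) (w1 x) (w2 x)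
    ((b1 x hx).trans (by linarith)) ((b2 x hx).trans (by linarith))
    ((b5 x hx).trans (by linarith)) ((b6 x hx).trans (by linarith))
  rw [l1, l2, mul_pow, mul_pow, ← mul_add]
  have n3 := mul_le_mul_of_nonneg_left (add_le_add n1 n2) (sq_nonneg ν⁻¹)
  refine n3.trans ?_
  have n4 : 0 ≤ (ν⁻¹) ^ 2 * K ^ 2 * (d1 w1 x ^ 2 + d2 w1 x ^ 2 + d1 w2 x ^ 2 + d2 w2 x ^ 2) := by
    positivity
  have n5 : 8 * K ^ 2 * ν⁻¹ ^ 2 * (sz w1 x + sz w2 x) - ν⁻¹ ^ 2 *
      (4 * K ^ 2 * (d1 w1 x ^ 2 + d2 w1 x ^ 2 + w1 x ^ 2 + w2 x ^ 2) +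
        4 * K ^ 2 * (d1 w2 x ^ 2 + d2 w2 x ^ 2 + w1 x ^ 2 + w2 x ^ 2)) =
      4 * ((ν⁻¹) ^ 2 * K ^ 2 * (d1 w1 x ^ 2 + d2 w1 x ^ 2 + d1 w2 x ^ 2 + d2 w2 x ^ 2)) := by
    simp only [sz]; ring
  linarith

end Pool.Agent.H754R3.PR
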