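import Pool.Agent.H754R3.PR.Steady

set_option autoImplicit false

/-!
# Slices of space-time functions, derivative of integrals, an ODE lemma
-/

namespace Pool.Agent.H754R3.PR

open MeasureTheory Set Filter Topology

/-- space-time -/
abbrev P3 : Type := ℝ × P2

/-- slice at time `t` -/
def sl (F : P3 → ℝ) (t : ℝ) : P2 → ℝ := fun x => F (t, x)

/-- time derivative -/
noncomputable def Dt (F : P3 → ℝ) (z : P3) : ℝ := fderiv ℝ F z (1, 0)

lemma sl_contDiff {F : P3 → ℝ} {n : ℕ} (hF : ContDiff ℝ n F) (t : ℝ) : ContDiff ℝ n (sl F t) :=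
  hF.comp (contDiff_const.prodMk contDiff_id)

lemma Dt_contDiff {F : P3 → ℝ} {n m : ℕ} (hF : ContDiff ℝ n F) (h : m + 1 ≤ n) :
    ContDiff ℝ m (Dt F) := by
  refine ContDiff.clm_apply ?_ contDiff_const
  exact hF.fderiv_right (by exact_mod_cast h)

lemma slice_fderiv {F : P3 → ℝ} (hF : Differentiable ℝ F) (t : ℝ) (x e : P2) :
    fderiv ℝ (sl F t) x e = fderiv ℝ F (t, x) (0, e) := by
  have h1 : HasFDerivAt (fun x : P2 => ((t, x) : P3))
      ((0 : P2 →L[ℝ] ℝ).prod (ContinuousLinearMap.id ℝ P2)) x :=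
    (hasFDerivAt_const t x).prodMk (hasFDerivAt_id x)
  have h2 := (hF (t, x)).hasFDerivAt.comp x h1
  have h3 : fderiv ℝ (sl F t) x = _ := h2.fderiv
  rw [h3]; simp

lemma hasDerivAt_time {F : P3 → ℝ} (hF : Differentiable ℝ F) (t : ℝ) (x : P2) :
    HasDerivAt (fun s => F (s, x)) (Dt F (t, x)) t := by
  have h1 : HasDerivAt (fun s : ℝ => ((s, x) : P3)) ((1 : ℝ), (0 : P2)) t :=
    (hasDerivAt_id t).prodMk (hasDerivAt_const t x)
  exact (hF (t, x)).hasFDerivAt.comp_hasDerivAt t h1

/-- space derivative as a space-time function -/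
noncomputable def Dx (e : P2) (F : P3 → ℝ) (z : P3) : ℝ := fderiv ℝ F z (0, e)

lemma Dx_contDiff {F : P3 → ℝ} {n m : ℕ} (hF : ContDiff ℝ n F) (h : m + 1 ≤ n) (e : P2) :
    ContDiff ℝ m (Dx e F) := by
  refine ContDiff.clm_apply ?_ contDiff_const
  exact hF.fderiv_right (by exact_mod_cast h)

lemma d1_sl {F : P3 → ℝ} (hF : Differentiable ℝ F) (t : ℝ) (x : P2) :
    d1 (sl F t) x = Dx (1, 0) F (t, x) := slice_fderiv hF t x _

lemma d2_sl {F : P3 → ℝ} (hF : Differentiable ℝ F) (t : ℝ) (x : P2) :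
    d2 (sl F t) x = Dx (0, 1) F (t, x) := slice_fderiv hF t x _

lemma Dt_Dx {F : P3 → ℝ} (hF : ContDiff ℝ 2 F) (e : P2) (z : P3) :
    Dt (Dx e F) z = Dx e (Dt F) z := by
  have h1 : DifferentiableAt ℝ (fderiv ℝ F) z :=
    ((hF.fderiv_right (m := 1) (by norm_num)).differentiable (by norm_num)) z
  have h2 := h1.hasFDerivAt.clm_apply (hasFDerivAt_const ((0, e) : P3) z)
  have h3 := h1.hasFDerivAt.clm_apply (hasFDerivAt_const ((1, 0) : P3) z)
  have h2' : fderiv ℝ (Dx e F) z = _ := h2.fderiv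
  have h3' : fderiv ℝ (Dt F) z = _ := h3.fderiv
  rw [Dt, Dx, h2', h3']
  have h4 : IsSymmSndFDerivAt ℝ F z := hF.contDiffAt.isSymmSndFDerivAt (by simp)
  have h5 := h4 (1, 0) (0, e)
  simpa using h5

/-- time derivative of the space derivative of a slice -/
lemma hasDerivAt_d1 {F : P3 → ℝ} (hF : ContDiff ℝ 2 F) (t : ℝ) (x : P2) :
    HasDerivAt (fun s => d1 (sl F s) x) (d1 (sl (Dt F) t) x) t := by
  have hd : Differentiable ℝ F := hF.differentiable (by norm_num)
  have hd2 : Differentiable ℝ (Dt F) :=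
    (Dt_contDiff (n := 2) (m := 1) hF (by norm_num)).differentiable (by norm_num)
  have hd3 : Differentiable ℝ (Dx (1, 0) F) :=
    (Dx_contDiff (n := 2) (m := 1) hF (by norm_num) _).differentiable (by norm_num)
  simp only [d1_sl hd, d1_sl hd2]
  rw [← Dt_Dx hF]
  exact hasDerivAt_time hd3 t x

lemma hasDerivAt_d2 {F : P3 → ℝ} (hF : ContDiff ℝ 2 F) (t : ℝ) (x : P2) :
    HasDerivAt (fun s => d2 (sl F s) x) (d2 (sl (Dt F) t) x) t := by
  have hd : Differentiable ℝ F := hF.differentiable (by norm_num)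
  have hd2 : Differentiable ℝ (Dt F) :=
    (Dt_contDiff (n := 2) (m := 1) hF (by norm_num)).differentiable (by norm_num)
  have hd3 : Differentiable ℝ (Dx (0, 1) F) :=
    (Dx_contDiff (n := 2) (m := 1) hF (by norm_num) _).differentiable (by norm_num)
  simp only [d2_sl hd, d2_sl hd2]
  rw [← Dt_Dx hF]
  exact hasDerivAt_time hd3 t x

/-- differentiation under the integral sign over a bounded set -/
lemma deriv_int {Ω : Set P2} (hb : Bornology.IsBounded Ω) {F F' : ℝ → P2 → ℝ}
    (hF : Continuous (fun z : P3 => F z.1 z.2)) (hF' : Continuous (fun z : P3 => F' z.1 z.2))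
    (hd : ∀ t x, HasDerivAt (fun s => F s x) (F' t x) t) (t0 : ℝ) :
    HasDerivAt (fun t => ∫ x in Ω, F t x) (∫ x in Ω, F' t0 x) t0 := by
  have hK : IsCompact (Icc (t0 - 1) (t0 + 1) ×ˢ closure Ω) :=
    isCompact_Icc.prod hb.isCompact_closure
  obtain ⟨C, hC⟩ := hK.exists_bound_of_continuousOn hF'.continuousOn
  have hsl : ∀ t, Continuous (F t) := fun t => hF.comp (by fun_prop : Continuous fun x => ((t, x) : P3))
  have hsl' : ∀ t, Continuous (F' t) := fun t =>
    hF'.comp (by fun_prop : Continuous fun x => ((t, x) : P3))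
  refine (hasDerivAt_integral_of_dominated_loc_of_deriv_le (s := Ioo (t0 - 1) (t0 + 1))
    (bound := fun _ => C) (Ioo_mem_nhds (by linarith) (by linarith)) ?_ ?_ ?_ ?_ ?_ ?_).2
  · exact Eventually.of_forall fun t => (hsl t).aestronglyMeasurable
  · exact ((hsl t0).continuousOn.integrableOn_compact hb.isCompact_closure).mono_set subset_closure
  · exact (hsl' t0).aestronglyMeasurable
  · have h1 : ∀ᵐ x ∂(volume.restrict (closure Ω)), x ∈ closure Ω :=
      ae_restrict_mem isClosed_closure.measurableSet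
    have h2 : ∀ᵐ x ∂(volume.restrict Ω), x ∈ closure Ω :=
      (ae_mono (Measure.restrict_mono subset_closure le_rfl)) h1
    filter_upwards [h2] with x hx t ht
    exact hC (t, x) ⟨⟨ht.1.le, ht.2.le⟩, hx⟩
  · exact (continuous_const.continuousOn.integrableOn_compact hb.isCompact_closure).mono_set
      subset_closure
  · exact Eventually.of_forall fun x t _ => hd t x

/-- a bounded function with `Q' ≤ -c |Q|` on the whole line vanishes -/
lemma ode_zero {Q Q' : ℝ → ℝ} {c K : ℝ} (hc : 0 < c) (hQ : ∀ t, HasDerivAt Q (Q' t) t)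
    (hle : ∀ t, Q' t ≤ -c * |Q t|) (hK : ∀ t, |Q t| ≤ K) : ∀ t, Q t = 0 := by
  have hdiff : Differentiable ℝ Q := fun t => (hQ t).differentiableAt
  have hanti : Antitone Q := antitone_of_deriv_nonpos hdiff (fun t => by
    rw [(hQ t).deriv]
    have := hle t
    have := mul_nonneg hc.le (abs_nonneg (Q t))
    linarith)
  -- the function `Q + c δ t` is antitone where `|Q| ≥ δ`
  have main : ∀ (I : Set ℝ), Convex ℝ I → ∀ δ, (∀ t ∈ I, δ ≤ |Q t|) →
      AntitoneOn (fun t => Q t + c * δ * t) I := by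
    intro I hI δ hδ
    refine antitoneOn_of_deriv_nonpos hI ?_ ?_ ?_
    · exact (hdiff.continuous.add (by fun_prop)).continuousOn
    · exact (hdiff.add (by fun_prop)).differentiableOn
    · intro t ht
      have h1 : HasDerivAt (fun t => Q t + c * δ * t) (Q' t + c * δ * 1) t :=
        (hQ t).add ((hasDerivAt_id t).const_mul (c * δ))
      rw [h1.deriv]
      have h2 := hδ t (interior_subset ht)
      have h3 := mul_le_mul_of_nonneg_left h2 hc.le
      have h4 := hle t
      linarith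
  intro t0
  by_contra hne
  have hδ : 0 < |Q t0| := abs_pos.2 hne
  set δ := |Q t0| with hδd
  have hK0 := hK t0
  set L := 2 * (K + 1) / (c * δ) with hL
  have hcd : 0 < c * δ := mul_pos hc hδ
  have hLp : 0 < L := by
    have : 0 < K + 1 := by linarith
    positivity
  have hcL : c * δ * L = 2 * (K + 1) := by rw [hL]; field_simp
  rcases lt_or_gt_of_ne hne with hneg | hpos
  · have h1 := main (Ici t0) (convex_Ici t0) δ (fun t ht => by
      have h2 := hanti (mem_Ici.1 ht)
      rw [hδd, abs_of_neg hneg, abs_of_nonpos (by linarith)]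
      linarith)
    have h2 := h1 (mem_Ici.2 le_rfl) (mem_Ici.2 (by linarith : t0 ≤ t0 + L)) (by linarith)
    simp only at h2
    have h3 := (abs_le.1 (hK (t0 + L))).1
    have h4 := (abs_le.1 hK0).2
    nlinarith
  · have h1 := main (Iic t0) (convex_Iic t0) δ (fun t ht => by
      have h2 := hanti (mem_Iic.1 ht)
      rw [hδd, abs_of_pos hpos, abs_of_nonneg (by linarith)]
      linarith)
    have h2 := h1 (mem_Iic.2 (by linarith : t0 - L ≤ t0)) (mem_Iic.2 le_rfl) (by linarith)
    simp only at h2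
    have h3 := (abs_le.1 (hK (t0 - L))).2
    have h4 := (abs_le.1 hK0).1
    nlinarith

end Pool.Agent.H754R3.PR
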