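import Pool.Agent.H754R3.PR.Curv

set_option autoImplicit false

/-!
# Difference of two complete bounded trajectories with the same pressure
-/

namespace Pool.Agent.H754R3.PR

open MeasureTheory Set Filter Topology

/-- signed curvature numerator of the curve -/
noncomputable def curv (γ : ℝ → P2) (s : ℝ) : ℝ :=
  (deriv γ s).1 * (deriv (deriv γ) s).2 - (deriv γ s).2 * (deriv (deriv γ) s).1

theorem core_time {Ω : Set P2} (hΩ : IsOpen Ω) (hb : Bornology.IsBounded Ω)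
    {γ : ℝ → P2} (hγ : ContDiff ℝ 2 γ) (hγ0 : ∀ s, deriv γ s ≠ 0) (hγr : range γ = frontier Ω)
    {ν B : ℝ} (hν : 0 < ν) {w1 w2 a1 a2 : P3 → ℝ}
    (hw1 : ContDiff ℝ 3 w1) (hw2 : ContDiff ℝ 3 w2) (ha1 : ContDiff ℝ 3 a1) (ha2 : ContDiff ℝ 3 a2)
    (hdw : ∀ t, ∀ x ∈ Ω, d1 (sl w1 t) x + d2 (sl w2 t) x = 0)
    (hda : ∀ t, ∀ x ∈ Ω, d1 (sl a1 t) x + d2 (sl a2 t) x = 0)
    (hbw : ∀ t, ∀ x ∈ frontier Ω, w1 (t, x) = 0 ∧ w2 (t, x) = 0)
    (hba : ∀ t, ∀ x ∈ frontier Ω, a1 (t, x) = 0 ∧ a2 (t, x) = 0)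
    (hm1 : ∀ t, ∀ x ∈ Ω, ν * (d1 (d1 (sl w1 t)) x + d2 (d2 (sl w1 t)) x) = Dt w1 (t, x) +
      (a1 (t, x) * d1 (sl w1 t) x + a2 (t, x) * d2 (sl w1 t) x + w1 (t, x) * d1 (sl a1 t) x
        + w2 (t, x) * d2 (sl a1 t) x))
    (hm2 : ∀ t, ∀ x ∈ Ω, ν * (d1 (d1 (sl w2 t)) x + d2 (d2 (sl w2 t)) x) = Dt w2 (t, x) +
      (a1 (t, x) * d1 (sl w2 t) x + a2 (t, x) * d2 (sl w2 t) x + w1 (t, x) * d1 (sl a2 t) x
        + w2 (t, x) * d2 (sl a2 t) x))
    (hw1B : ∀ t, ∀ x ∈ Ω, |w1 (t, x)| ≤ B ∧ |d1 (sl w1 t) x| ≤ B ∧ |d2 (sl w1 t) x| ≤ B)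
    (hw2B : ∀ t, ∀ x ∈ Ω, |w2 (t, x)| ≤ B ∧ |d1 (sl w2 t) x| ≤ B ∧ |d2 (sl w2 t) x| ≤ B)
    (ha1B : ∀ t, ∀ x ∈ Ω, |a1 (t, x)| ≤ B ∧ |d1 (sl a1 t) x| ≤ B ∧ |d2 (sl a1 t) x| ≤ B)
    (ha2B : ∀ t, ∀ x ∈ Ω, |a2 (t, x)| ≤ B ∧ |d1 (sl a2 t) x| ≤ B ∧ |d2 (sl a2 t) x| ≤ B) :
    ∃ c : ℝ → ℝ, Continuous c ∧
      (∀ t, ∀ x ∈ frontier Ω, d1 (sl w2 t) x - d2 (sl w1 t) x = c t) ∧
      (∃ B' : ℝ, ∀ t0 t1 : ℝ, |∫ s in t0..t1, c s| ≤ B') ∧
      (∀ t s, c t * (d1 (sl a2 t) (γ s) - d2 (sl a1 t) (γ s)) * curv γ s = 0) ∧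
      ((∀ t, c t = 0) → ∀ t, ∀ x ∈ Ω, w1 (t, x) = 0 ∧ w2 (t, x) = 0) := by
  have hmem : ∀ s, γ s ∈ frontier Ω := fun s => by rw [← hγr]; exact mem_range_self s
  have hne : Ω.Nonempty := by
    rcases Ω.eq_empty_or_nonempty with h | h
    · exfalso
      have := hmem 0
      rw [h] at this
      simp at this
    · exact h
  have hB : 0 ≤ B := by
    obtain ⟨x, hx⟩ := hne
    exact (abs_nonneg _).trans (hw1B 0 x hx).1
  -- slices
  have S3 : ∀ {F : P3 → ℝ}, ContDiff ℝ 3 F → ∀ t, ContDiff ℝ 3 (sl F t) := fun hF t =>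
    sl_contDiff (n := 3) hF t
  have K2 : ∀ {F : P3 → ℝ}, ContDiff ℝ 3 F → ∀ t, ContDiff ℝ 2 (sl (Dt F) t) := fun hF t =>
    sl_contDiff (n := 2) (Dt_contDiff (n := 3) (m := 2) hF (by norm_num)) t
  have hk0 : ∀ {F : P3 → ℝ}, ContDiff ℝ 3 F → (∀ t, ∀ x ∈ frontier Ω, F (t, x) = 0) →
      ∀ t, ∀ x ∈ frontier Ω, sl (Dt F) t x = 0 := by
    intro F hF h0 t x hx
    have h1 := hasDerivAt_time (hF.differentiable (by norm_num)) t x
    have h2 : (fun s => F (s, x)) = fun _ => 0 := funext fun s => h0 s x hx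
    rw [h2] at h1
    exact (h1.unique (hasDerivAt_const t (0 : ℝ)))
  have fx := fun t => fixed_time hΩ hb (hγ.differentiable (by norm_num)) hγ0 hγr hν
    (w1 := sl w1 t) (w2 := sl w2 t) (a1 := sl a1 t) (a2 := sl a2 t)
    (k1 := sl (Dt w1) t) (k2 := sl (Dt w2) t) (K2 hw1 t).continuous (K2 hw2 t).continuous
    (fun x hx => ⟨hk0 hw1 (fun t x hx => (hbw t x hx).1) t x hx,
      hk0 hw2 (fun t x hx => (hbw t x hx).2) t x hx⟩)
    (S3 hw1 t) (S3 hw2 t) (S3 ha1 t) (S3 ha2 t) (hdw t) (hda t) (hbw t) (hba t) (hm1 t) (hm2 t)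
  have D0 : ∀ {F : P3 → ℝ}, ContDiff ℝ 3 F → Differentiable ℝ F := fun hF =>
    hF.differentiable (by norm_num)
  have cdx : ∀ {F : P3 → ℝ}, ContDiff ℝ 3 F → ∀ e, Continuous (Dx e F) := fun hF e =>
    (Dx_contDiff (n := 3) (m := 2) hF (by norm_num) e).continuous
  refine ⟨fun t => d1 (sl w2 t) (γ 0) - d2 (sl w1 t) (γ 0), ?_, fun t => (fx t).1, ?_, ?_, ?_⟩
  · simp only [d1_sl (D0 hw2), d2_sl (D0 hw1)]
    have h1 := (cdx hw2 (1, 0)).comp (by fun_prop : Continuous fun t : ℝ => ((t, γ 0) : P3))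
    have h2 := (cdx hw1 (0, 1)).comp (by fun_prop : Continuous fun t : ℝ => ((t, γ 0) : P3))
    exact h1.sub h2
  · -- the time integral of c is bounded
    have hvol : 0 < volume.real Ω := by
      rw [Measure.real, ENNReal.toReal_pos_iff]
      exact ⟨hΩ.measure_pos volume hne, hb.measure_lt_top⟩
    obtain ⟨Φ, hΦ⟩ : ∃ Φ : ℝ → ℝ, Φ = fun t =>
      ∫ x in Ω, (x.1 * w2 (t, x) - x.2 * w1 (t, x)) := ⟨_, rfl⟩
    have cw1 : Continuous w1 := hw1.continuous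
    have cw2 : Continuous w2 := hw2.continuous
    have ck1 : Continuous (Dt w1) := (Dt_contDiff (n := 3) (m := 2) hw1 (by norm_num)).continuous
    have ck2 : Continuous (Dt w2) := (Dt_contDiff (n := 3) (m := 2) hw2 (by norm_num)).continuous
    have hΦd : ∀ t, HasDerivAt Φ (2 * ν * (d1 (sl w2 t) (γ 0) - d2 (sl w1 t) (γ 0)) *
        volume.real Ω) t := by
      intro t
      rw [(fx t).2.1, hΦ]
      exact deriv_int hb (F := fun t x => x.1 * w2 (t, x) - x.2 * w1 (t, x))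
        (F' := fun t x => x.1 * sl (Dt w2) t x - x.2 * sl (Dt w1) t x)
        (by fun_prop) (by simp only [sl]; fun_prop) (fun t x =>
          ((hasDerivAt_time (D0 hw2) t x).const_mul x.1).fun_sub
            ((hasDerivAt_time (D0 hw1) t x).const_mul x.2)) t
    obtain ⟨r, hr⟩ := hb.subset_closedBall (0 : P2)
    have hΦB : ∀ t, |Φ t| ≤ (2 * (|r| * B)) * volume.real Ω := by
      intro t
      rw [hΦ]
      have hfin : volume Ω < ⊤ := hb.measure_lt_top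
      refine norm_setIntegral_le_of_norm_le_const (μ := volume) (s := Ω)
        (f := fun x : P2 => x.1 * w2 (t, x) - x.2 * w1 (t, x)) hfin
        (C := 2 * (|r| * B)) (fun x hx => ?_)
      have h1 := hr hx
      rw [mem_closedBall_zero_iff] at h1
      have h2 : |x.1| ≤ |r| := ((norm_fst_le x).trans h1).trans (le_abs_self r)
      have h3 : |x.2| ≤ |r| := ((norm_snd_le x).trans h1).trans (le_abs_self r)
      rw [Real.norm_eq_abs]
      refine (abs_sub _ _).trans ?_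
      rw [abs_mul, abs_mul]
      have h4 := mul_le_mul h2 (hw2B t x hx).1 (abs_nonneg _) (abs_nonneg _)
      have h5 := mul_le_mul h3 (hw1B t x hx).1 (abs_nonneg _) (abs_nonneg _)
      linarith
    have hcc : Continuous (fun t => d1 (sl w2 t) (γ 0) - d2 (sl w1 t) (γ 0)) := by
      simp only [d1_sl (D0 hw2), d2_sl (D0 hw1)]
      have h1 := (cdx hw2 (1, 0)).comp (by fun_prop : Continuous fun t : ℝ => ((t, γ 0) : P3))
      have h2 := (cdx hw1 (0, 1)).comp (by fun_prop : Continuous fun t : ℝ => ((t, γ 0) : P3))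
      exact h1.sub h2
    refine ⟨(2 * ν * volume.real Ω)⁻¹ * (2 * ((2 * (|r| * B)) * volume.real Ω)),
      fun t0 t1 => ?_⟩
    have hpos : 0 < 2 * ν * volume.real Ω := by positivity
    have h1 := intervalIntegral.integral_eq_sub_of_hasDerivAt (a := t0) (b := t1)
      (fun t _ => hΦd t) (Continuous.intervalIntegrable
        ((continuous_const.mul hcc).mul continuous_const) t0 t1)
    have h2 : (∫ t in t0..t1, 2 * ν * (d1 (sl w2 t) (γ 0) - d2 (sl w1 t) (γ 0)) *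
        volume.real Ω) = (2 * ν * volume.real Ω) *
        ∫ t in t0..t1, (d1 (sl w2 t) (γ 0) - d2 (sl w1 t) (γ 0)) := by
      rw [← intervalIntegral.integral_const_mul]
      congr 1
      funext t
      ring
    rw [h2] at h1
    have h3 : (∫ t in t0..t1, (d1 (sl w2 t) (γ 0) - d2 (sl w1 t) (γ 0))) =
        (2 * ν * volume.real Ω)⁻¹ * (Φ t1 - Φ t0) := by
      rw [← h1, ← mul_assoc, inv_mul_cancel₀ hpos.ne', one_mul]
    rw [h3, abs_mul, abs_of_pos (inv_pos.2 hpos)]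
    refine mul_le_mul_of_nonneg_left ?_ (inv_pos.2 hpos).le
    refine (abs_sub _ _).trans ?_
    have := hΦB t1
    have := hΦB t0
    linarith
  · intro t s
    have hdk : ∀ x ∈ Ω, d1 (sl (Dt w1) t) x + d2 (sl (Dt w2) t) x = 0 := by
      intro x hx
      have h1 := hasDerivAt_d1 (hw1.of_le (by norm_num) : ContDiff ℝ 2 w1) t x
      have h2 := hasDerivAt_d2 (hw2.of_le (by norm_num) : ContDiff ℝ 2 w2) t x
      have h3 := h1.fun_add h2
      have h4 : (fun s => d1 (sl w1 s) x + d2 (sl w2 s) x) = fun _ => 0 :=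
        funext fun s => hdw s x hx
      rw [h4] at h3
      exact h3.unique (hasDerivAt_const t (0 : ℝ))
    have hG := mixed_det hΩ (K2 hw1 t) (K2 hw2 t) (S3 hw1 t) (S3 hw2 t) (S3 ha1 t) (S3 ha2 t)
      (hdw t) (hda t) hdk (hm1 t) (hm2 t)
    have h5 := curvature hΩ hγ hγ0 hγr (S3 hw1 t) (S3 hw2 t) (S3 ha1 t) (S3 ha2 t)
      (hdw t) (hda t) (hbw t) (hba t) hG s
    rw [(fx t).1 _ (hmem s)] at h5
    exact h5
  · intro hc
    have hgr := fun t => (fx t).2.2.2 (hc t)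
    refine ucp_par hΩ hb hw1 hw2
      (fun t x hx => ⟨(hbw t x hx).1, fderiv_zero_of_d (hgr t x hx).1.1 (hgr t x hx).1.2⟩)
      (fun t x hx => ⟨(hbw t x hx).2, fderiv_zero_of_d (hgr t x hx).2.1 (hgr t x hx).2.2⟩)
      hν (M := 8 * B ^ 2) (by positivity) hB ?_ hw1B hw2B
    intro t x hx
    have four : ∀ (p q r s P Q R S : ℝ), |p| ≤ B → |q| ≤ B → |r| ≤ B → |s| ≤ B →
        (p * P + q * Q + r * R + s * S) ^ 2 ≤ 4 * B ^ 2 * (P ^ 2 + Q ^ 2 + R ^ 2 + S ^ 2) := by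
      intro p q r s P Q R S hp hq hr hs
      have sq : ∀ y : ℝ, |y| ≤ B → y ^ 2 ≤ B ^ 2 := fun y hy => by
        rw [← sq_abs y]; exact pow_le_pow_left₀ (abs_nonneg y) hy 2
      have z1 := mul_le_mul_of_nonneg_right (sq p hp) (sq_nonneg P)
      have z2 := mul_le_mul_of_nonneg_right (sq q hq) (sq_nonneg Q)
      have z3 := mul_le_mul_of_nonneg_right (sq r hr) (sq_nonneg R)
      have z4 := mul_le_mul_of_nonneg_right (sq s hs) (sq_nonneg S)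
      have z5 := four_sq (p * P) (q * Q) (r * R) (s * S)
      rw [mul_pow, mul_pow, mul_pow, mul_pow] at z5
      linarith
    have l1 : (Dt w1 (t, x) - ν * (d1 (d1 (sl w1 t)) x + d2 (d2 (sl w1 t)) x)) ^ 2 =
        (a1 (t, x) * d1 (sl w1 t) x + a2 (t, x) * d2 (sl w1 t) x + d1 (sl a1 t) x * w1 (t, x)
          + d2 (sl a1 t) x * w2 (t, x)) ^ 2 := by
      rw [hm1 t x hx]; ring
    have l2 : (Dt w2 (t, x) - ν * (d1 (d1 (sl w2 t)) x + d2 (d2 (sl w2 t)) x)) ^ 2 =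
        (a1 (t, x) * d1 (sl w2 t) x + a2 (t, x) * d2 (sl w2 t) x + d1 (sl a2 t) x * w1 (t, x)
          + d2 (sl a2 t) x * w2 (t, x)) ^ 2 := by
      rw [hm2 t x hx]; ring
    have n1 := four (a1 (t, x)) (a2 (t, x)) (d1 (sl a1 t) x) (d2 (sl a1 t) x) (d1 (sl w1 t) x)
      (d2 (sl w1 t) x) (w1 (t, x)) (w2 (t, x)) (ha1B t x hx).1 (ha2B t x hx).1
      (ha1B t x hx).2.1 (ha1B t x hx).2.2
    have n2 := four (a1 (t, x)) (a2 (t, x)) (d1 (sl a2 t) x) (d2 (sl a2 t) x) (d1 (sl w2 t) x)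
      (d2 (sl w2 t) x) (w1 (t, x)) (w2 (t, x)) (ha1B t x hx).1 (ha2B t x hx).1
      (ha2B t x hx).2.1 (ha2B t x hx).2.2
    rw [l1, l2]
    refine (add_le_add n1 n2).trans ?_
    have n4 : 0 ≤ B ^ 2 * (d1 (sl w1 t) x ^ 2 + d2 (sl w1 t) x ^ 2 + d1 (sl w2 t) x ^ 2
      + d2 (sl w2 t) x ^ 2) := by positivity
    simp only [sz, sl] at n4 ⊢
    nlinarith

end Pool.Agent.H754R3.PR
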